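import Pool.Agent.TH18.SlabMod

/-! `H` is of type `FP_3`. -/

set_option autoImplicit false

namespace Pool.Agent.TH18

open Pool.Agent.W326.DU (IL ZG Reg Im rm IsAlt2 IsAlt3)

theorem Rr_smul (v : V) (c : ZG H) (x : ZG A) : Rr v (c • x) = c • Rr v x := by
  rw [Rr_eq, Rr_eq, smul_sub, smul_eq, smul_eq, mul_assoc]

theorem b1_add (x y : V → ZG A) : b1 (fun v => x v + y v) = b1 x + b1 y := by
  unfold b1; simp only [map_add, Finset.sum_add_distrib]
theorem b1_smul (c : ZG H) (x : V → ZG A) : b1 (fun v => c • x v) = c • b1 x := by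
  unfold b1; simp only [Rr_smul, Finset.smul_sum]
theorem b2_add (x y : V → V → ZG A) (b : V) : b2 (fun a b => x a b + y a b) b = b2 x b + b2 y b := by
  unfold b2; simp only [map_add, Finset.sum_add_distrib]
theorem b2_smul (c : ZG H) (x : V → V → ZG A) (b : V) : b2 (fun a b => c • x a b) b = c • b2 x b := by
  unfold b2; simp only [Rr_smul, Finset.smul_sum]
theorem b3_add (x y : V → V → V → ZG A) (b c : V) :
    b3 (fun a b c => x a b c + y a b c) b c = b3 x b c + b3 y b c := by
  unfold b3; simp only [map_add, Finset.sum_add_distrib]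
theorem b3_smul (d : ZG H) (x : V → V → V → ZG A) (b c : V) :
    b3 (fun a b c => d • x a b c) b c = d • b3 x b c := by
  unfold b3; simp only [Rr_smul, Finset.smul_sum]

theorem al2_add (u u' : Fin 80 → ZG A) (a b : V) :
    al2 (fun i => u i + u' i) a b = al2 u a b + al2 u' a b := by
  unfold al2; simp only [smul_add, Finset.sum_add_distrib]
theorem al2_smul (c : ZG H) (u : Fin 80 → ZG A) (a b : V) :
    al2 (fun i => c • u i) a b = c • al2 u a b := by
  unfold al2
  rw [Finset.smul_sum]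
  refine Finset.sum_congr rfl fun i _ => ?_
  show sg2 i a b • (push inc c * u i) = push inc c * (sg2 i a b • u i)
  rw [mul_smul_comm]
theorem al3_add (u u' : Fin 60 → ZG A) (a b c : V) :
    al3 (fun i => u i + u' i) a b c = al3 u a b c + al3 u' a b c := by
  unfold al3; simp only [smul_add, Finset.sum_add_distrib]
theorem al3_smul (d : ZG H) (u : Fin 60 → ZG A) (a b c : V) :
    al3 (fun i => d • u i) a b c = d • al3 u a b c := by
  unfold al3
  rw [Finset.smul_sum]
  refine Finset.sum_congr rfl fun i _ => ?_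
  show sg3 i a b c • (push inc d * u i) = push inc d * (sg3 i a b c • u i)
  rw [mul_smul_comm]

theorem Rr_le {n : ℕ} {x : ZG A} (hx : Hle n x) (v : V) : Hle (n + 1 : ℕ) (Rr v x) := by
  rw [Rr_eq]
  have h1 := hx.mul (g v)
  rw [ht_g] at h1
  exact (h1.mono (by push_cast; omega)).sub (hx.mono (by push_cast; omega))

theorem Rr_ge {x : ZG A} (hx : Hge 0 x) (v : V) : Hge 0 (Rr v x) := by
  rw [Rr_eq]
  have h1 := hx.mul (g v)
  rw [ht_g] at h1
  exact (h1.mono (by omega)).sub hx

theorem mw_Rr {n : ℕ} {x : ZG A} (hx : x ∈ Mw n) (v : V) : Rr v x ∈ Mw (n + 1) :=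
  ⟨Rr_le hx.1 v, Rr_ge hx.2 v⟩

theorem mw_al2 {n : ℕ} (u : Fin 80 → Mw n) (a b : V) : al2 (fun i => (u i : ZG A)) a b ∈ Mw n :=
  Submodule.sum_mem _ fun i _ => (Mw n).toAddSubgroup.zsmul_mem (u i).2 _

theorem mw_al3 {n : ℕ} (u : Fin 60 → Mw n) (a b c : V) :
    al3 (fun i => (u i : ZG A)) a b c ∈ Mw n :=
  Submodule.sum_mem _ fun i _ => (Mw n).toAddSubgroup.zsmul_mem (u i).2 _

theorem mw_b1 {n : ℕ} (x : V → Mw n) : b1 (fun v => (x v : ZG A)) ∈ Mw (n + 1) :=
  Submodule.sum_mem _ fun v _ => mw_Rr (x v).2 v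

theorem mw_b2 {n : ℕ} (x : Fin 80 → Mw n) (b : V) :
    b2 (al2 (fun i => (x i : ZG A))) b ∈ Mw (n + 1) :=
  Submodule.sum_mem _ fun a _ => mw_Rr (mw_al2 x a b) a

theorem mw_b3 {n : ℕ} (x : Fin 60 → Mw n) (b c : V) :
    b3 (al3 (fun i => (x i : ZG A))) b c ∈ Mw (n + 1) :=
  Submodule.sum_mem _ fun a _ => mw_Rr (mw_al3 x a b c) a

/-- the augmentation -/
noncomputable def eps : Mw 3 →ₗ[ZG H] Tr H where
  toFun x := (show ℤ from augR A x.1)
  map_add' x y := map_add (augR A) _ _
  map_smul' c x := by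
    show augR A (push inc c * x.1) = augR H c * augR A x.1
    rw [map_mul]
    congr 1
    induction c using MonoidAlgebra.induction_on with
    | of h => rw [push_of, augR_of, augR_of]
    | add a b ha hb => rw [map_add, map_add, ha, hb, map_add]
    | smul r a ha => rw [map_zsmul, map_zsmul, ha, map_zsmul]

/-- differentials -/
noncomputable def dd1 : (V → Mw 2) →ₗ[ZG H] Mw 3 where
  toFun x := ⟨b1 (fun v => (x v : ZG A)), mw_b1 x⟩
  map_add' x y := by
    apply Subtype.ext
    exact b1_add (fun v => (x v : ZG A)) (fun v => (y v : ZG A))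
  map_smul' c x := by
    apply Subtype.ext
    exact b1_smul c (fun v => (x v : ZG A))

/-- differentials -/
noncomputable def dd2 : (Fin 80 → Mw 1) →ₗ[ZG H] (V → Mw 2) where
  toFun u := fun b => ⟨b2 (al2 (fun i => (u i : ZG A))) b, mw_b2 u b⟩
  map_add' x y := by
    funext b
    apply Subtype.ext
    show b2 (al2 (fun i => (x i : ZG A) + (y i : ZG A))) b = _
    have : al2 (fun i => (x i : ZG A) + (y i : ZG A)) =
        fun a b => al2 (fun i => (x i : ZG A)) a b + al2 (fun i => (y i : ZG A)) a b := by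
      funext a b; exact al2_add _ _ a b
    rw [this]; exact b2_add (al2 (fun i => (x i : ZG A))) (al2 (fun i => (y i : ZG A))) b
  map_smul' c x := by
    funext b
    apply Subtype.ext
    show b2 (al2 (fun i => c • (x i : ZG A))) b = _
    have : al2 (fun i => c • (x i : ZG A)) = fun a b => c • al2 (fun i => (x i : ZG A)) a b := by
      funext a b; exact al2_smul _ _ a b
    rw [this]; exact b2_smul c (al2 (fun i => (x i : ZG A))) b

/-- differentials -/
noncomputable def dd3 : (Fin 60 → Mw 0) →ₗ[ZG H] (Fin 80 → Mw 1) where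
  toFun u := fun i => ⟨b3 (al3 (fun i => (u i : ZG A))) (e1 i) (e2 i), mw_b3 u _ _⟩
  map_add' x y := by
    funext b
    apply Subtype.ext
    show b3 (al3 (fun i => (x i : ZG A) + (y i : ZG A))) _ _ = _
    have : al3 (fun i => (x i : ZG A) + (y i : ZG A)) =
        fun a b c => al3 (fun i => (x i : ZG A)) a b c + al3 (fun i => (y i : ZG A)) a b c := by
      funext a b c; exact al3_add _ _ a b c
    rw [this]; exact b3_add (al3 (fun i => (x i : ZG A))) (al3 (fun i => (y i : ZG A))) _ _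
  map_smul' c x := by
    funext b
    apply Subtype.ext
    show b3 (al3 (fun i => c • (x i : ZG A))) _ _ = _
    have : al3 (fun i => c • (x i : ZG A)) =
        fun a b d => c • al3 (fun i => (x i : ZG A)) a b d := by
      funext a b d; exact al3_smul _ _ a b d
    rw [this]; exact b3_smul c (al3 (fun i => (x i : ZG A))) _ _

theorem ex0 (x : Mw 3) : eps x = 0 ↔ ∃ y, dd1 y = x := by
  constructor
  · intro hx
    have h1 : Pool.Agent.W326.DU.augm A x.1 = 0 := hx
    obtain ⟨w, h2, h3, h4⟩ := slab0 x.1 x.2.2 x.2.1 h1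
    exact ⟨fun v => ⟨w v, h3 v, h4 v⟩, Subtype.ext h2⟩
  · rintro ⟨y, rfl⟩
    show augR A (∑ v, Rr v (y v : ZG A)) = 0
    rw [map_sum]
    refine Finset.sum_eq_zero fun v _ => ?_
    rw [Rr_eq, map_sub, map_mul, augR_of, mul_one, sub_self]

theorem ex1 (x : V → Mw 2) : dd1 x = 0 ↔ ∃ y, dd2 y = x := by
  constructor
  · intro hx
    have h1 : b1 (fun v => (x v : ZG A)) = 0 := congrArg Subtype.val hx
    obtain ⟨y, ⟨h2, h3⟩, h4, h5⟩ := slab1 (fun v => (x v : ZG A)) (fun v => (x v).2.2)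
      (fun v => (x v).2.1) h1
    refine ⟨fun i => ⟨y (e1 i) (e2 i), h4 _ _, h5 _ _⟩, ?_⟩
    funext b
    apply Subtype.ext
    show b2 (al2 (fun i => y (e1 i) (e2 i))) b = _
    have h6 : al2 (fun i => y (e1 i) (e2 i)) = y := by
      funext a b; exact (exp2 h2 a b).symm
    rw [h6]; exact h3 b
  · rintro ⟨y, rfl⟩
    exact Subtype.ext (dd12 _ (al2_alt _))

theorem ex2 (x : Fin 80 → Mw 1) : dd2 x = 0 ↔ ∃ y, dd3 y = x := by
  constructor
  · intro hx
    have h1 : ∀ b, b2 (al2 (fun i => (x i : ZG A))) b = 0 := fun b =>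
      congrArg Subtype.val (congrFun hx b)
    obtain ⟨z, ⟨h2, h3⟩, h4, h5⟩ := slab2 (al2 (fun i => (x i : ZG A))) (al2_alt _)
      (fun a b => (mw_al2 x a b).2) (fun a b => (mw_al2 x a b).1) h1
    refine ⟨fun i => ⟨z (t1 i) (t2 i) (t3 i), h4 _ _ _, h5 _ _ _⟩, ?_⟩
    funext i
    apply Subtype.ext
    show b3 (al3 (fun i => z (t1 i) (t2 i) (t3 i))) (e1 i) (e2 i) = _
    have h6 : al3 (fun i => z (t1 i) (t2 i) (t3 i)) = z := by
      funext a b c; exact (exp3 h2 a b c).symm
    rw [h6, h3]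
    exact al2_e _ i
  · rintro ⟨y, rfl⟩
    funext b
    apply Subtype.ext
    show b2 (al2 (fun i => b3 (al3 (fun j => (y j : ZG A))) (e1 i) (e2 i))) b = 0
    have h6 : al2 (fun i => b3 (al3 (fun j => (y j : ZG A))) (e1 i) (e2 i)) =
        b3 (al3 (fun j => (y j : ZG A))) := by
      funext a b; exact (exp2 (b2_alt _ (al3_alt _)) a b).symm
    rw [h6]
    exact dd23 _ (al3_alt _) b

theorem eps_surj : Function.Surjective eps := by
  intro z
  have h0 : (1 : ZG A) ∈ Mw 3 := by
    constructor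
    · intro a ha
      rw [MonoidAlgebra.one_def, MonoidAlgebra.coeff_single, Finsupp.single_apply_ne_zero] at ha
      rw [ha.1, ht_one]; norm_num
    · intro a ha
      rw [MonoidAlgebra.one_def, MonoidAlgebra.coeff_single, Finsupp.single_apply_ne_zero] at ha
      rw [ha.1, ht_one]
  refine ⟨⟨(show ℤ from z) • 1, (Mw 3).toAddSubgroup.zsmul_mem h0 _⟩, ?_⟩
  show augR A ((show ℤ from z) • 1) = z
  rw [map_zsmul, map_one, zsmul_eq_mul, mul_one]; rfl

/-- **`H` is of type `FP_3`.** -/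
theorem fp3 : FPc H 3 := by
  apply toRep
  have p0 := mw_proj 3
  have p1 := pi_proj 2 V
  have p2 := pi_proj 1 (Fin 80)
  have f0 := mw_fin 3
  have f1 := pi_fin 2 V
  have f2 := pi_fin 1 (Fin 80)
  have f3 := pi_fin 0 (Fin 60)
  refine hasRes_cons eps eps_surj ?_
  refine hasRes_step dd1 eps ex0 ?_
  refine hasRes_step dd2 dd1 ex1 ?_
  have : Module.Finite (ZG H) (LinearMap.ker dd2) := by
    let p : (Fin 60 → Mw 0) →ₗ[ZG H] LinearMap.ker dd2 :=
      dd3.codRestrict _ (fun c => (ex2 _).2 ⟨c, rfl⟩)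
    refine Module.Finite.of_surjective p ?_
    rintro ⟨x, hx⟩
    obtain ⟨y, hy⟩ := (ex2 x).1 hx
    exact ⟨y, Subtype.ext hy⟩
  exact hasRes_one

end Pool.Agent.TH18
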