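import Pool.Agent.TH18.Fox
import Pool.Agent.W335.DU.HN

/-! The groups `G₁`, `G₂`, and the fibre product. -/

set_option autoImplicit false

namespace Pool.Agent.TH18

open Pool.Agent.W326.DU (IL ZG)
open Pool.Agent.W490.DU (of_sub_mem_IL IL_le)

section
variable {X : Type} {Q : Type} [Group Q] (q : FreeGroup X →* Q)

/-- the graph of `q` -/
def Gm : Subgroup (FreeGroup X × Q) := ((MonoidHom.id (FreeGroup X)).prod q).range

theorem mem_Gm (f : FreeGroup X) : (f, q f) ∈ Gm q := ⟨f, rfl⟩

/-- the group `G₁` -/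
abbrev G1 : Type := HNNExtension (FreeGroup X × Q) (Gm q) (Gm q) (MulEquiv.refl _)

/-- the stable letter -/
def tt : G1 q := HNNExtension.t

/-- the embedding of `F × Q` -/
def em : FreeGroup X × Q →* G1 q := HNNExtension.of

theorem em_inj : Function.Injective (em q) := HNNExtension.of_injective (φ := MulEquiv.refl (Gm q))

theorem tt_comm (f : FreeGroup X) : tt q * em q (f, q f) = em q (f, q f) * tt q :=
  HNNExtension.t_mul_of (φ := MulEquiv.refl (Gm q)) ⟨(f, q f), mem_Gm q f⟩

/-- the projection to `Q` -/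
def p1 : G1 q →* Q := HNNExtension.lift (MonoidHom.snd _ _) 1 (by
  rintro ⟨a, ha⟩
  show 1 * a.2 = a.2 * 1
  rw [one_mul, mul_one])

theorem p1_em (x : FreeGroup X × Q) : p1 q (em q x) = x.2 := HNNExtension.lift_of _ _ _ x
theorem p1_tt : p1 q (tt q) = 1 := HNNExtension.lift_t _ _ _

theorem p1_surj : Function.Surjective (p1 q) := fun y => ⟨em q (1, y), p1_em q _⟩

/-- generators of the kernel -/
def kg : Set (G1 q) := {tt q} ∪ Set.range (fun e : X => em q (FreeGroup.of e, 1))

theorem em_mem_kg (f : FreeGroup X) : em q (f, 1) ∈ Subgroup.closure (kg q) := by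
  have hf : f ∈ Subgroup.closure (Set.range (FreeGroup.of : X → FreeGroup X)) := by
    rw [FreeGroup.closure_range_of]; trivial
  induction hf using Subgroup.closure_induction with
  | mem x hx =>
    obtain ⟨e, rfl⟩ := hx
    exact Subgroup.subset_closure (Or.inr ⟨e, rfl⟩)
  | one => exact (map_one (em q)) ▸ one_mem _
  | mul x y _ _ hx hy =>
    have : em q (x * y, 1) = em q (x, 1) * em q (y, 1) := by
      rw [← map_mul, Prod.mk_mul_mk, one_mul]
    rw [this]; exact mul_mem hx hy
  | inv x _ hx =>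
    have : em q (x⁻¹, 1) = (em q (x, 1))⁻¹ := by
      rw [← map_inv, Prod.inv_mk, inv_one]
    rw [this]; exact inv_mem hx

theorem conj_kg (hq : Function.Surjective q) (y : Q) (k : G1 q)
    (hk : k ∈ Subgroup.closure (kg q)) :
    em q (1, y) * k * (em q (1, y))⁻¹ ∈ Subgroup.closure (kg q) := by
  induction hk using Subgroup.closure_induction with
  | mem x hx =>
    rcases hx with hx | ⟨e, rfl⟩
    · have hx' : x = tt q := hx
      subst hx'
      obtain ⟨f, rfl⟩ := hq y
      have h1 : em q (1, q f) = em q (f⁻¹, 1) * em q (f, q f) := by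
        rw [← map_mul, Prod.mk_mul_mk, inv_mul_cancel, one_mul]
      have h2 : em q (1, q f) * tt q * (em q (1, q f))⁻¹ =
          em q (f⁻¹, 1) * tt q * (em q (f⁻¹, 1))⁻¹ := by
        rw [h1, mul_inv_rev, mul_assoc (em q (f⁻¹, 1)), ← tt_comm]
        group
      rw [h2]
      exact mul_mem (mul_mem (em_mem_kg q _) (Subgroup.subset_closure (Or.inl rfl)))
        (inv_mem (em_mem_kg q _))
    · have h2 : em q (1, y) * em q (FreeGroup.of e, 1) * (em q (1, y))⁻¹ =
          em q (FreeGroup.of e, 1) := by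
        rw [mul_inv_eq_iff_eq_mul, ← map_mul, ← map_mul, Prod.mk_mul_mk, Prod.mk_mul_mk]
        simp
      show em q (1, y) * em q (FreeGroup.of e, 1) * (em q (1, y))⁻¹ ∈ _
      rw [h2]
      exact Subgroup.subset_closure (Or.inr ⟨e, rfl⟩)
  | one => rw [mul_one, mul_inv_cancel]; exact one_mem _
  | mul a b _ _ ha hb =>
    have : em q (1, y) * (a * b) * (em q (1, y))⁻¹ =
      (em q (1, y) * a * (em q (1, y))⁻¹) * (em q (1, y) * b * (em q (1, y))⁻¹) := by group
    rw [this]; exact mul_mem ha hb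
  | inv a _ ha =>
    have : em q (1, y) * a⁻¹ * (em q (1, y))⁻¹ = (em q (1, y) * a * (em q (1, y))⁻¹)⁻¹ := by group
    rw [this]; exact inv_mem ha

theorem decomp_kg (hq : Function.Surjective q) (x : G1 q) :
    ∃ k ∈ Subgroup.closure (kg q), x = k * em q (1, p1 q x) := by
  refine HNNExtension.induction_on x ?_ ?_ ?_ ?_
  · rintro ⟨f, y⟩
    refine ⟨em q (f, 1), em_mem_kg q f, ?_⟩
    have h1 : p1 q (HNNExtension.of (f, y)) = y := p1_em q (f, y)
    rw [h1, ← map_mul, Prod.mk_mul_mk, mul_one, one_mul]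
    rfl
  · refine ⟨tt q, Subgroup.subset_closure (Or.inl rfl), ?_⟩
    have h1 : p1 q HNNExtension.t = 1 := p1_tt q
    rw [h1]
    have h2 : em q (1, 1) = 1 := map_one (em q)
    rw [h2, mul_one]; rfl
  · rintro a b ⟨k1, hk1, h1⟩ ⟨k2, hk2, h2⟩
    refine ⟨k1 * (em q (1, p1 q a) * k2 * (em q (1, p1 q a))⁻¹),
      mul_mem hk1 (conj_kg q hq _ _ hk2), ?_⟩
    have h3 : em q (1, p1 q (a * b)) = em q (1, p1 q a) * em q (1, p1 q b) := by
      rw [← map_mul, Prod.mk_mul_mk, one_mul, map_mul]
    rw [h3]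
    conv_lhs => rw [h1, h2]
    group
  · rintro a ⟨k1, hk1, h1⟩
    refine ⟨em q (1, (p1 q a)⁻¹) * k1⁻¹ * (em q (1, (p1 q a)⁻¹))⁻¹,
      conj_kg q hq _ _ (inv_mem hk1), ?_⟩
    have h3 : em q (1, (p1 q a)⁻¹) = (em q (1, p1 q a))⁻¹ := by
      rw [← map_inv (em q), Prod.inv_mk, inv_one]
    rw [map_inv, h3]
    conv_lhs => rw [h1]
    group

theorem ker_p1 (hq : Function.Surjective q) : (p1 q).ker = Subgroup.closure (kg q) := by
  apply le_antisymm
  · intro x hx
    obtain ⟨k, hk, h⟩ := decomp_kg q hq x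
    have h1 : p1 q x = 1 := hx
    have h2 : em q (1, 1) = 1 := map_one (em q)
    rw [h1, h2, mul_one] at h
    rw [h]; exact hk
  · rw [Subgroup.closure_le]
    rintro x (hx | ⟨e, rfl⟩)
    · have hx' : x = tt q := hx
      subst hx'
      exact p1_tt q
    · exact p1_em q _

theorem ker_fg [Finite X] (hq : Function.Surjective q) : Group.FG (p1 q).ker := by
  rw [Group.fg_iff_subgroup_fg, Subgroup.fg_iff]
  exact ⟨kg q, (ker_p1 q hq).symm, (Set.finite_singleton _).union (Set.finite_range _)⟩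

/-! ### finite presentation for `G₁` -/

theorem q_closure (hq : Function.Surjective q) :
    Subgroup.closure (Set.range (fun e : X => q (FreeGroup.of e))) = ⊤ := by
  rw [eq_top_iff]
  rintro y -
  obtain ⟨f, rfl⟩ := hq y
  have hf : f ∈ Subgroup.closure (Set.range (FreeGroup.of : X → FreeGroup X)) := by
    rw [FreeGroup.closure_range_of]; trivial
  have h1 : q f ∈ (Subgroup.closure (Set.range (FreeGroup.of : X → FreeGroup X))).map q :=
    ⟨f, hf, rfl⟩
  rw [MonoidHom.map_closure, ← Set.range_comp] at h1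
  exact h1

theorem fp_prod [Fintype X] (hq : Function.Surjective q)
    (h : Module.FinitePresentation (ZG Q) (IL ℤ (Set.univ : Set Q))) :
    Module.FinitePresentation (ZG (FreeGroup X × Q))
      (IL ℤ (Set.univ : Set (FreeGroup X × Q))) := by
  classical
  let e := (Fintype.equivFin X).symm
  let t : Fin (Fintype.card X) → FreeGroup X × Q := fun i => (FreeGroup.of (e i), 1)
  let i2 : Q →* FreeGroup X × Q := MonoidHom.inr _ _
  let S : Fin (Fintype.card X) → Finset (FreeGroup X × Q) := fun _ =>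
    Finset.univ.image (fun x : X => ((1, q (FreeGroup.of x)) : FreeGroup X × Q))
  have hS : ∀ i, Subgroup.closure ((S i : Finset _) : Set (FreeGroup X × Q)) = i2.range := by
    intro i
    have h1 : ((S i : Finset _) : Set (FreeGroup X × Q)) =
        i2 '' (Set.range (fun e : X => q (FreeGroup.of e))) := by
      ext z
      simp only [S, Finset.coe_image, Finset.coe_univ, Set.image_univ, Set.mem_range, Set.mem_image]
      constructor
      · rintro ⟨x, rfl⟩; exact ⟨_, ⟨x, rfl⟩, rfl⟩
      · rintro ⟨_, ⟨x, rfl⟩, rfl⟩; exact ⟨x, rfl⟩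
    rw [h1, ← MonoidHom.map_closure, q_closure q hq, MonoidHom.range_eq_map]
  have hcl : Subgroup.closure (i2 '' Set.univ) = i2.range := by
    rw [← MonoidHom.map_closure, Subgroup.closure_univ, MonoidHom.range_eq_map]
  have h1 := fp_base i2 (fun a b hab => (Prod.mk.inj hab).2) Set.univ h
  have h2 := fp_ext (i2 '' Set.univ) t S ?_ ?_ h1
  · have h3 : IL ℤ (Set.univ : Set (FreeGroup X × Q)) = IL ℤ (i2 '' Set.univ ∪ Set.range t) := by
      apply IL_eq_of_closure
      rw [Subgroup.closure_univ, eq_comm, eq_top_iff]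
      rintro ⟨f, y⟩ -
      have h4 : ((f, y) : FreeGroup X × Q) = (f, 1) * (1, y) := by simp
      rw [h4]
      refine mul_mem ?_ (Subgroup.subset_closure (Or.inl ⟨y, trivial, rfl⟩))
      have hf : f ∈ Subgroup.closure (Set.range (FreeGroup.of : X → FreeGroup X)) := by
        rw [FreeGroup.closure_range_of]; trivial
      induction hf using Subgroup.closure_induction with
      | mem x hx =>
        obtain ⟨x, rfl⟩ := hx
        refine Subgroup.subset_closure (Or.inr ⟨e.symm x, ?_⟩)
        show (FreeGroup.of (e (e.symm x)), 1) = _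
        rw [Equiv.apply_symm_apply]
      | one => exact one_mem _
      | mul a b _ _ ha hb =>
        have : ((a * b, 1) : FreeGroup X × Q) = (a, 1) * (b, 1) := by simp
        rw [this]; exact mul_mem (ha (by simp)) (hb (by simp))
      | inv a _ ha =>
        have : ((a⁻¹, 1) : FreeGroup X × Q) = (a, 1)⁻¹ := by simp
        rw [this]; exact inv_mem (ha (by simp))
    rw [h3]; exact h2
  · intro i s hs
    obtain ⟨x, _, rfl⟩ := Finset.mem_image.1 hs
    refine ⟨Subgroup.subset_closure ⟨_, trivial, rfl⟩, ?_⟩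
    simp [t]
  · intro c hc i
    have h3 : IL ℤ ((S i : Finset _) : Set (FreeGroup X × Q)) =
        IL ℤ ((MonoidHom.fst (FreeGroup X) Q).ker : Set (FreeGroup X × Q)) := by
      apply IL_eq_of_closure
      rw [hS i, Subgroup.closure_eq]
      ext ⟨f, y⟩
      constructor
      · rintro ⟨y', hy⟩
        have := (Prod.mk.inj hy).1
        exact this.symm
      · intro hf
        have hf' : f = 1 := hf
        subst hf'
        exact ⟨y, rfl⟩
    rw [h3]
    apply ker_push
    have h4 := push_IL (MonoidHom.fst (FreeGroup X) Q) _ _ hc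
    have h5 : IL ℤ ((MonoidHom.fst (FreeGroup X) Q) '' (i2 '' Set.univ)) = ⊥ := by
      rw [eq_bot_iff]
      refine Submodule.span_le.2 ?_
      rintro _ ⟨_, ⟨_, ⟨y, _, rfl⟩, rfl⟩, rfl⟩
      show MonoidAlgebra.of ℤ (FreeGroup X) 1 - 1 = 0
      rw [map_one, sub_self]
    rw [h5, Submodule.mem_bot, map_sum] at h4
    simp only [map_mul, map_sub, map_one, push_of] at h4
    have h6 := fox (X := X) (fun x => push (MonoidHom.fst (FreeGroup X) Q) (c (e.symm x))) (by
      rw [← h4]
      rw [← e.sum_comp]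
      refine Finset.sum_congr rfl fun j _ => ?_
      rw [Equiv.symm_apply_apply]
      rfl) (e i)
    rwa [Equiv.symm_apply_apply] at h6

theorem closure_G1 : Subgroup.closure (em q '' Set.univ ∪ {tt q}) = ⊤ := by
  rw [eq_top_iff]
  rintro x -
  refine HNNExtension.induction_on x ?_ ?_ ?_ ?_
  · intro y
    exact Subgroup.subset_closure (Or.inl ⟨y, trivial, rfl⟩)
  · exact Subgroup.subset_closure (Or.inr rfl)
  · intro a b ha hb; exact mul_mem ha hb
  · intro a ha; exact inv_mem ha

/-- the star property of the stable letter -/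
theorem star_G1 (c : ZG (G1 q)) (hc : c * (MonoidAlgebra.of ℤ (G1 q) (tt q) - 1) ∈
    IL ℤ (Set.range (em q))) : c ∈ IL ℤ (em q '' (Gm q : Set _)) :=
  Pool.Agent.W335.DU.HN.th ℤ (FreeGroup X × Q) (Gm q) (Gm q) (MulEquiv.refl _) c hc

theorem fp_G1 [Fintype X] (hq : Function.Surjective q)
    (h : Module.FinitePresentation (ZG Q) (IL ℤ (Set.univ : Set Q))) :
    Module.FinitePresentation (ZG (G1 q)) (IL ℤ (Set.univ : Set (G1 q))) := by
  classical
  have h1 := fp_base (em q) (em_inj q) Set.univ (fp_prod q hq h)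
  let S : Fin 1 → Finset (G1 q) := fun _ =>
    Finset.univ.image (fun x : X => em q (FreeGroup.of x, q (FreeGroup.of x)))
  let t : Fin 1 → G1 q := fun _ => tt q
  have h2 := fp_ext (em q '' Set.univ) t S ?_ ?_ h1
  · have h3 : IL ℤ (Set.univ : Set (G1 q)) = IL ℤ (em q '' Set.univ ∪ Set.range t) := by
      apply IL_eq_of_closure
      have : Set.range t = {tt q} := by ext x; simp [t]
      rw [this, closure_G1, Subgroup.closure_univ]
    rw [h3]; exact h2
  · intro i s hs
    obtain ⟨x, _, rfl⟩ := Finset.mem_image.1 hs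
    exact ⟨Subgroup.subset_closure ⟨_, trivial, rfl⟩, tt_comm q _⟩
  · intro c hc i
    have h3 : IL ℤ ((S i : Finset _) : Set (G1 q)) = IL ℤ (em q '' (Gm q : Set _)) := by
      apply IL_eq_of_closure
      have h4 : ((S i : Finset _) : Set (G1 q)) = ((em q).comp
          ((MonoidHom.id (FreeGroup X)).prod q)) '' (Set.range FreeGroup.of) := by
        ext z
        simp only [S, Finset.coe_image, Finset.coe_univ, Set.image_univ, Set.mem_range,
          Set.mem_image]
        constructor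
        · rintro ⟨x, rfl⟩; exact ⟨_, ⟨x, rfl⟩, rfl⟩
        · rintro ⟨_, ⟨x, rfl⟩, rfl⟩; exact ⟨x, rfl⟩
      rw [h4, ← MonoidHom.map_closure, FreeGroup.closure_range_of, ← MonoidHom.map_closure,
        Subgroup.closure_eq, ← Subgroup.map_map, ← MonoidHom.range_eq_map]
      rfl
    rw [h3]
    apply star_G1
    have h4 : c i * (MonoidAlgebra.of ℤ (G1 q) (tt q) - 1) =
        ∑ j, c j * (MonoidAlgebra.of ℤ (G1 q) (t j) - 1) := by
      rw [Fin.sum_univ_one, Subsingleton.elim i 0]
    rw [h4, ← Set.image_univ]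
    exact hc

/-! ### the fibre product -/

/-- the fibre product -/
abbrev PP : Type :=
  ↥(((p1 q).comp (MonoidHom.fst (G1 q) (FreeGroup X))).eqLocus
    (q.comp (MonoidHom.snd (G1 q) (FreeGroup X))))

/-- the map `F × F → P` -/
def be : FreeGroup X × FreeGroup X →* PP q where
  toFun x := ⟨(em q (x.1, q x.2), x.2), (p1_em q (x.1, q x.2) : p1 q (em q (x.1, q x.2)) = q x.2)⟩
  map_one' := by
    apply Subtype.ext
    show (em q (1, q 1), (1 : FreeGroup X)) = 1
    rw [map_one]
    have h2 : em q (1, 1) = 1 := map_one (em q)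
    rw [h2]; rfl
  map_mul' x y := by
    apply Subtype.ext
    show (em q (x.1 * y.1, q (x.2 * y.2)), x.2 * y.2) =
      (em q (x.1, q x.2) * em q (y.1, q y.2), x.2 * y.2)
    rw [← map_mul, Prod.mk_mul_mk, map_mul]

theorem be_inj : Function.Injective (be q) := by
  rintro ⟨a, b⟩ ⟨c, d⟩ h
  have h1 : (em q (a, q b), b) = (em q (c, q d), d) := congrArg Subtype.val h
  have h2 := (Prod.mk.inj h1).2
  have h3 := em_inj q (Prod.mk.inj h1).1
  have h4 := (Prod.mk.inj h3).1
  rw [h2, h4]

/-- the stable letter of `P` -/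
def tp : PP q := ⟨(tt q, 1), by
  show p1 q (tt q) = q 1
  rw [p1_tt, map_one]⟩

/-- the projection `P → G₁` -/
def pr1 : PP q →* G1 q := (MonoidHom.fst _ _).comp (Subgroup.subtype _)

theorem pr1_surj (hq : Function.Surjective q) : Function.Surjective (pr1 q) := by
  intro x
  obtain ⟨f, hf⟩ := hq (p1 q x)
  exact ⟨⟨(x, f), hf.symm⟩, rfl⟩

theorem pr1_be (x : FreeGroup X × FreeGroup X) : pr1 q (be q x) = em q (x.1, q x.2) := rfl
theorem pr1_tp : pr1 q (tp q) = tt q := rfl

theorem ker_pr1 (z : PP q) (hz : pr1 q z = 1) : ∃ n, q n = 1 ∧ be q (1, n) = z := by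
  obtain ⟨⟨x, f⟩, h⟩ := z
  have hx : x = 1 := hz
  subst hx
  have h1 : p1 q 1 = q f := h
  rw [map_one] at h1
  refine ⟨f, h1.symm, ?_⟩
  apply Subtype.ext
  show (em q (1, q f), f) = (1, f)
  rw [← h1]
  have h2 : em q (1, 1) = 1 := map_one (em q)
  rw [h2]

/-- the finite generating set of `β(F × F)` -/
noncomputable def Bp [Fintype X] [DecidableEq (PP q)] : Finset (PP q) :=
  Finset.univ.image (fun x : X => be q (FreeGroup.of x, 1)) ∪
    Finset.univ.image (fun x : X => be q (1, FreeGroup.of x))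

theorem closure_Bp [Fintype X] [DecidableEq (PP q)] :
    Subgroup.closure (Bp q : Set (PP q)) = (be q).range := by
  apply le_antisymm
  · rw [Subgroup.closure_le]
    intro z hz
    rcases Finset.mem_union.1 (Finset.mem_coe.1 hz) with h | h
    · obtain ⟨x, _, rfl⟩ := Finset.mem_image.1 h
      exact ⟨_, rfl⟩
    · obtain ⟨x, _, rfl⟩ := Finset.mem_image.1 h
      exact ⟨_, rfl⟩
  · have a1 : ∀ f : FreeGroup X, be q (f, 1) ∈ Subgroup.closure (Bp q : Set (PP q)) := by
      intro f
      have hf : f ∈ Subgroup.closure (Set.range (FreeGroup.of : X → FreeGroup X)) := by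
        rw [FreeGroup.closure_range_of]; trivial
      induction hf using Subgroup.closure_induction with
      | mem x hx =>
        obtain ⟨x, rfl⟩ := hx
        refine Subgroup.subset_closure (Finset.mem_coe.2 (Finset.mem_union_left _ ?_))
        exact Finset.mem_image.2 ⟨x, Finset.mem_univ _, rfl⟩
      | one => exact (map_one (be q)) ▸ one_mem _
      | mul a b _ _ ha hb =>
        have : be q (a * b, 1) = be q (a, 1) * be q (b, 1) := by
          rw [← map_mul, Prod.mk_mul_mk, one_mul]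
        rw [this]; exact mul_mem ha hb
      | inv a _ ha =>
        have : be q (a⁻¹, 1) = (be q (a, 1))⁻¹ := by rw [← map_inv, Prod.inv_mk, inv_one]
        rw [this]; exact inv_mem ha
    have a2 : ∀ f : FreeGroup X, be q (1, f) ∈ Subgroup.closure (Bp q : Set (PP q)) := by
      intro f
      have hf : f ∈ Subgroup.closure (Set.range (FreeGroup.of : X → FreeGroup X)) := by
        rw [FreeGroup.closure_range_of]; trivial
      induction hf using Subgroup.closure_induction with
      | mem x hx =>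
        obtain ⟨x, rfl⟩ := hx
        refine Subgroup.subset_closure (Finset.mem_coe.2 (Finset.mem_union_right _ ?_))
        exact Finset.mem_image.2 ⟨x, Finset.mem_univ _, rfl⟩
      | one => exact (map_one (be q)) ▸ one_mem _
      | mul a b _ _ ha hb =>
        have : be q (1, a * b) = be q (1, a) * be q (1, b) := by
          rw [← map_mul, Prod.mk_mul_mk, one_mul]
        rw [this]; exact mul_mem ha hb
      | inv a _ ha =>
        have : be q (1, a⁻¹) = (be q (1, a))⁻¹ := by rw [← map_inv, Prod.inv_mk, inv_one]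
        rw [this]; exact inv_mem ha
    rintro _ ⟨⟨a, b⟩, rfl⟩
    have : be q (a, b) = be q (a, 1) * be q (1, b) := by
      rw [← map_mul, Prod.mk_mul_mk, mul_one, one_mul]
    rw [this]; exact mul_mem (a1 a) (a2 b)

theorem closure_PP [Fintype X] [DecidableEq (PP q)] (hq : Function.Surjective q) :
    Subgroup.closure ((Bp q : Set (PP q)) ∪ {tp q}) = ⊤ := by
  have hb : (be q).range ≤ Subgroup.closure ((Bp q : Set (PP q)) ∪ {tp q}) := by
    rw [← closure_Bp]
    exact Subgroup.closure_mono Set.subset_union_left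
  have ht : tp q ∈ Subgroup.closure ((Bp q : Set (PP q)) ∪ {tp q}) :=
    Subgroup.subset_closure (Or.inr rfl)
  have h1 : ∀ x : G1 q, ∃ k ∈ Subgroup.closure ((Bp q : Set (PP q)) ∪ {tp q}), pr1 q k = x := by
    intro x
    refine HNNExtension.induction_on x ?_ ?_ ?_ ?_
    · rintro ⟨f, y⟩
      obtain ⟨g, rfl⟩ := hq y
      exact ⟨be q (f, g), hb ⟨_, rfl⟩, rfl⟩
    · exact ⟨tp q, ht, rfl⟩
    · rintro a b ⟨k, hk, rfl⟩ ⟨l, hl, rfl⟩
      exact ⟨k * l, mul_mem hk hl, map_mul _ _ _⟩
    · rintro a ⟨k, hk, rfl⟩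
      exact ⟨k⁻¹, inv_mem hk, map_inv _ _⟩
  rw [eq_top_iff]
  rintro z -
  obtain ⟨k, hk, h2⟩ := h1 (pr1 q z)
  obtain ⟨n, _, hn⟩ := ker_pr1 q (z * k⁻¹) (by rw [map_mul, map_inv, h2, mul_inv_cancel])
  have h3 : z = z * k⁻¹ * k := by group
  rw [h3]
  refine mul_mem ?_ hk
  rw [← hn]
  exact hb ⟨_, rfl⟩

/-- the associated subgroup -/
def Es : Set (PP q) := be q '' {x | q x.1 = q x.2}

/-- **The fibre product.** -/
theorem fibre [Fintype X] (hq : Function.Surjective q)
    (h : Module.FinitePresentation (ZG (PP q)) (IL ℤ (Set.univ : Set (PP q)))) :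
    ∃ s : Set (FreeGroup X), s.Finite ∧ Subgroup.normalClosure s = q.ker := by
  classical
  have hU : IL ℤ (Set.univ : Set (PP q)) = IL ℤ ((Bp q : Set (PP q)) ∪ {tp q}) := by
    apply IL_eq_of_closure
    rw [closure_PP q hq, Subgroup.closure_univ]
  rw [hU] at h
  have hA : ∀ s ∈ Es q, s ∈ Subgroup.closure (Bp q : Set (PP q)) ∧ tp q * s = s * tp q := by
    rintro _ ⟨⟨a, b⟩, hab, rfl⟩
    have hab' : q a = q b := hab
    refine ⟨?_, ?_⟩
    · rw [closure_Bp]; exact ⟨_, rfl⟩
    · apply Subtype.ext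
      show (tt q * em q (a, q b), 1 * b) = (em q (a, q b) * tt q, b * 1)
      rw [← hab', tt_comm, one_mul, mul_one]
  have hB : ∀ c : ZG (PP q), c * (MonoidAlgebra.of ℤ (PP q) (tp q) - 1) ∈
      IL ℤ (Bp q : Set (PP q)) → c ∈ IL ℤ (Es q) := by
    intro c hc
    have h3 := push_IL (pr1 q) _ _ hc
    rw [map_mul, map_sub, map_one, push_of, pr1_tp] at h3
    have h4 : push (pr1 q) c ∈ IL ℤ (em q '' (Gm q : Set _)) := by
      apply star_G1
      refine IL_le ℤ ?_ h3
      rintro _ ⟨z, hz, rfl⟩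
      rcases Finset.mem_union.1 (Finset.mem_coe.1 hz) with h | h
      · obtain ⟨x, _, rfl⟩ := Finset.mem_image.1 h
        exact Subgroup.subset_closure ⟨_, rfl⟩
      · obtain ⟨x, _, rfl⟩ := Finset.mem_image.1 h
        exact Subgroup.subset_closure ⟨_, rfl⟩
    refine lift_IL (pr1 q) (pr1_surj q hq) _ _ ?_ ?_ c h4
    · rintro _ ⟨_, ⟨f, rfl⟩, rfl⟩
      exact ⟨be q (f, f), ⟨(f, f), rfl, rfl⟩, rfl⟩
    · intro z hz
      obtain ⟨n, hn, rfl⟩ := ker_pr1 q z hz
      exact Subgroup.subset_closure ⟨(1, n), by show q 1 = q n; rw [hn, map_one], rfl⟩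
  obtain ⟨S0, h1, h2⟩ := fg_of_fp (Bp q) (tp q) (Es q) hA hB h
  have h3 : ∀ z : PP q, ∃ w : FreeGroup X × FreeGroup X, z ∈ S0 → q w.1 = q w.2 ∧ be q w = z := by
    intro z
    by_cases hz : z ∈ S0
    · obtain ⟨w, hw, rfl⟩ := h1 hz
      exact ⟨w, fun _ => ⟨hw, rfl⟩⟩
    · exact ⟨1, fun h => absurd h hz⟩
  choose w hw using h3
  let s : Set (FreeGroup X) := (fun z => (w z).1⁻¹ * (w z).2) '' (S0 : Set (PP q))
  refine ⟨s, S0.finite_toSet.image _, le_antisymm ?_ ?_⟩
  · apply Subgroup.normalClosure_le_normal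
    rintro _ ⟨z, hz, rfl⟩
    show q _ = 1
    rw [map_mul, map_inv, (hw z hz).1, inv_mul_cancel]
  · intro n hn
    have hn' : q n = 1 := hn
    let N := Subgroup.normalClosure s
    let W : Subgroup (FreeGroup X × FreeGroup X) :=
      ((QuotientGroup.mk' N).comp (MonoidHom.fst _ _)).eqLocus
        ((QuotientGroup.mk' N).comp (MonoidHom.snd _ _))
    have hW : ∀ a b : FreeGroup X, (a, b) ∈ W ↔ a⁻¹ * b ∈ N := by
      intro a b
      show (QuotientGroup.mk a : FreeGroup X ⧸ N) = QuotientGroup.mk b ↔ _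
      exact QuotientGroup.eq
    have h4 : Subgroup.closure (S0 : Set (PP q)) ≤ W.map (be q) := by
      rw [Subgroup.closure_le]
      intro z hz
      refine ⟨w z, ?_, (hw z hz).2⟩
      exact (hW _ _).2 (Subgroup.subset_normalClosure ⟨z, hz, rfl⟩)
    have h5 : be q (1, n) ∈ Es q := ⟨(1, n), by show q 1 = q n; rw [hn', map_one], rfl⟩
    obtain ⟨x, hx, hx2⟩ := h4 (h2 h5)
    rw [be_inj q hx2] at hx
    have h6 := (hW _ _).1 hx
    simpa using h6

end

end Pool.Agent.TH18
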