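import Pool.Agent.TH18.Res

/-! Transfer between modules over the group ring and `Rep`. -/

set_option autoImplicit false

namespace Pool.Agent.TH18

open CategoryTheory
open Pool.Agent.W326.DU (IL ZG augm aug_th)

section
variable {k G : Type} [CommRing k] [Group G]

/-- the representation of a module -/
noncomputable abbrev RM (M : ModuleCat.{0} (MonoidAlgebra k G)) : Rep.{0} k G :=
  Rep.ofModuleMonoidAlgebra.obj M

theorem RM_proj (M : ModuleCat.{0} (MonoidAlgebra k G)) (h : Module.Projective (MonoidAlgebra k G) M) :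
    Projective (RM M) := by
  have h1 : Projective M := (IsProjective.iff_projective (R := MonoidAlgebra k G) M).1 h
  exact (Rep.equivalenceModuleMonoidAlgebra (k := k) (G := G)).symm.map_projective_iff M |>.2 h1

/-- the morphism of a linear map -/
noncomputable def RMm {M N : ModuleCat.{0} (MonoidAlgebra k G)} (f : M →ₗ[MonoidAlgebra k G] N) :
    RM M ⟶ RM N := Rep.ofModuleMonoidAlgebra.map (ModuleCat.ofHom f)

theorem RMm_apply {M N : ModuleCat.{0} (MonoidAlgebra k G)} (f : M →ₗ[MonoidAlgebra k G] N)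
    (x : M) : (RMm f).hom (show RM M from x) = (show RM N from f x) := rfl

theorem RM_rho (M : ModuleCat.{0} (MonoidAlgebra k G)) (g : G) (x : M) :
    (RM M).ρ g (show RM M from x) = (show RM M from MonoidAlgebra.of k G g • x) := rfl

/-- building a resolution in `Rep` from modules -/
theorem build2 (X : ℕ → ModuleCat.{0} (MonoidAlgebra k G))
    (d : ∀ n, X (n + 1) →ₗ[MonoidAlgebra k G] X n)
    (e : RM (X 0) ⟶ Rep.trivial k G k)
    (hproj : ∀ n, Module.Projective (MonoidAlgebra k G) (X n))
    (he : Function.Surjective e.hom)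
    (h0 : ∀ v : X 0, e.hom (show RM (X 0) from v) = 0 ↔ ∃ w, d 0 w = v)
    (h1 : ∀ n (v : X (n + 1)), d n v = 0 ↔ ∃ w, d (n + 1) w = v) :
    ∃ P : ProjectiveResolution (Rep.trivial k G k), ∀ n, P.complex.X n = RM (X n) := by
  obtain ⟨P, hP⟩ := build (fun n => RM (X n)) (fun n => RMm (d n)) (fun n => by
      apply Rep.hom_ext
      ext x
      exact (h1 n (d (n + 1) x)).2 ⟨x, rfl⟩) e (fun n => RM_proj _ (hproj n)) (by
      apply Rep.hom_ext
      ext x
      exact (h0 (d 0 x)).2 ⟨x, rfl⟩) he
    (fun v hv => (h0 v).1 hv) (fun n v hv => (h1 n v).1 hv)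
  exact ⟨P, fun n => by rw [hP]⟩

/-- closure under the group -/
theorem clos_inv (X : Rep.{0} k G) (s : Finset X.V) (g : G) (y : X.V)
    (hy : y ∈ AddSubgroup.closure (Set.range (fun p : G × s => X.ρ p.1 (p.2 : X.V)))) :
    X.ρ g y ∈ AddSubgroup.closure (Set.range (fun p : G × s => X.ρ p.1 (p.2 : X.V))) := by
  refine AddSubgroup.closure_induction (p := fun y _ => X.ρ g y ∈
    AddSubgroup.closure (Set.range (fun p : G × s => X.ρ p.1 (p.2 : X.V))))
    ?_ ?_ ?_ ?_ hy
  · rintro _ ⟨⟨g', t⟩, rfl⟩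
    show X.ρ g (X.ρ g' _) ∈ _
    rw [← Module.End.mul_apply, ← map_mul]
    exact AddSubgroup.subset_closure ⟨(g * g', t), rfl⟩
  · rw [map_zero]; exact zero_mem _
  · intro a b _ _ ha hb
    rw [map_add]; exact add_mem ha hb
  · intro a _ ha
    rw [map_neg]; exact neg_mem ha

theorem of_smul_asModule (X : Rep.{0} k G) (g : G) (x : X.ρ.asModule) :
    MonoidAlgebra.of k G g • x = (show X.ρ.asModule from X.ρ g (show X.V from x)) := by
  have := Representation.asModuleEquiv_map_smul X.ρ (MonoidAlgebra.of k G g) x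
  rw [Representation.asAlgebraHom_of] at this
  exact this

/-- an augmentation map -/
noncomputable def mkE (M : ModuleCat.{0} (MonoidAlgebra k G)) (f : M →+ k)
    (hf : ∀ (c : MonoidAlgebra k G) (x : M), f (c • x) = MonoidAlgebra.lift k k G 1 c * f x) :
    RM M ⟶ Rep.trivial k G k := ConcreteCategory.ofHom (C := Rep.{0} k G) (X := RM M)
    (Y := Rep.trivial k G k)
    { toFun := fun x => f (show M from x)
      map_add' := fun x y => map_add f _ _
      map_smul' := fun r x => by
        have h1 : f (algebraMap k (MonoidAlgebra k G) r • (show M from x)) = r * f (show M from x) := by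
          rw [hf]
          simp
        exact h1
      isIntertwining' := fun g => by
        ext x
        have h1 : f (MonoidAlgebra.of k G g • (show M from x)) = f (show M from x) := by
          rw [hf]
          simp
        exact h1 }

theorem mkE_apply (M : ModuleCat.{0} (MonoidAlgebra k G)) (f : M →+ k)
    (hf : ∀ (c : MonoidAlgebra k G) (x : M), f (c • x) = MonoidAlgebra.lift k k G 1 c * f x) (x : M) :
    (mkE M f hf).hom (show RM M from x) = f x := rfl

end

section
variable {G : Type} [Group G]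

theorem fgr_iff (X : Rep.{0} ℤ G) : FGR X ↔ ∃ s : Finset X.V, ∀ x : X.V,
    x ∈ AddSubgroup.closure (Set.range (fun p : G × s => X.ρ p.1 (p.2 : X.V))) := by
  unfold FGR
  refine exists_congr fun s => forall_congr' fun x => ?_
  rw [← Submodule.span_int_eq_addSubgroupClosure]
  rfl

theorem fgr_of (M : ModuleCat.{0} (ZG G)) (h : Module.Finite (ZG G) M) :
    FGR (RM M : Rep.{0} ℤ G) := by
  rw [fgr_iff]
  obtain ⟨s, hs⟩ := h
  let s' : Finset (RM M : Rep.{0} ℤ G).V := s
  refine ⟨s', fun x => ?_⟩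
  let x' : M := x
  have hx : x' ∈ Submodule.span (ZG G) (s : Set M) := by rw [hs]; trivial
  let W : AddSubgroup (RM M : Rep.{0} ℤ G).V := AddSubgroup.closure
    (Set.range (fun p : G × s' => (RM M : Rep.{0} ℤ G).ρ p.1 (p.2 : (RM M : Rep.{0} ℤ G).V)))
  have hW : ∀ (g : G) (y : (RM M : Rep.{0} ℤ G).V), y ∈ W → (RM M : Rep.{0} ℤ G).ρ g y ∈ W :=
    fun g y hy => clos_inv (RM M : Rep.{0} ℤ G) s' g y hy
  refine Submodule.span_induction (p := fun (y : M) _ => y ∈ (W : Set (RM M : Rep.{0} ℤ G).V))
    ?_ ?_ ?_ ?_ hx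
  · intro y hy
    refine AddSubgroup.subset_closure ⟨(1, ⟨y, hy⟩), ?_⟩
    show (RM M : Rep.{0} ℤ G).ρ 1 y = y
    rw [map_one]; rfl
  · exact zero_mem W
  · intro a b _ _ ha hb
    exact add_mem ha hb
  · intro c y _ hy
    induction c using MonoidAlgebra.induction_on with
    | of g => exact hW g y hy
    | add a b ha hb =>
      have : (a + b) • y = a • y + b • y := add_smul _ _ _
      rw [this]
      exact add_mem ha hb
    | smul r a ha =>
      have : (r • a) • y = r • (a • y) := by rw [smul_assoc]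
      rw [this]
      exact W.zsmul_mem ha r

/-- **Modules to `Rep`.** -/
theorem toRep (n : ℕ) (h : HasRes (ZG G) (n + 1) (Tr G)) : FPc G n := by
  obtain ⟨X, d, e, h1, h2, h3, h4, h5⟩ := h
  let f : X 0 →+ ℤ :=
    { toFun := fun x => (show ℤ from e x)
      map_zero' := map_zero e
      map_add' := fun x y => map_add e _ _ }
  obtain ⟨P, hP⟩ := build2 X d (mkE (X 0) f (fun c x => map_smul e c x)) h1 h2 h3 h4
  refine ⟨P, fun k hk => ?_⟩
  rw [hP]
  exact fgr_of _ (h5 k (by omega))

end

section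
variable {k G : Type} [CommRing k] [Group G]

theorem asMod_proj (X : Rep.{0} k G) (h : Projective X) :
    Module.Projective (MonoidAlgebra k G) X.ρ.asModule := by
  have h2 : Projective (Rep.toModuleMonoidAlgebra.obj X) :=
    ((Rep.equivalenceModuleMonoidAlgebra (k := k) (G := G)).map_projective_iff _).2 h
  exact (IsProjective.iff_projective (R := MonoidAlgebra k G) X.ρ.asModule).2 h2

theorem asMod_fin (X : Rep.{0} k G) (s : Finset X.V) (hs : ∀ x : X.V,
    x ∈ AddSubgroup.closure (Set.range (fun p : G × s => X.ρ p.1 (p.2 : X.V)))) :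
    Module.Finite (MonoidAlgebra k G) X.ρ.asModule := by
  let s' : Finset X.ρ.asModule := s
  refine ⟨s', ?_⟩
  rw [eq_top_iff]
  rintro x -
  refine AddSubgroup.closure_induction (p := fun (y : X.V) _ =>
    (show X.ρ.asModule from y) ∈ Submodule.span (MonoidAlgebra k G) (s' : Set X.ρ.asModule))
    ?_ ?_ ?_ ?_ (hs x)
  · rintro _ ⟨⟨g, t⟩, rfl⟩
    have h1 := of_smul_asModule X g (t : X.V)
    have h2 : MonoidAlgebra.of k G g • (show X.ρ.asModule from (t : X.V)) ∈
        Submodule.span (MonoidAlgebra k G) (s' : Set X.ρ.asModule) :=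
      Submodule.smul_mem _ _ (Submodule.subset_span t.2)
    rw [h1] at h2
    exact h2
  · exact zero_mem _
  · intro a b _ _ ha hb; exact add_mem ha hb
  · intro a _ ha; exact neg_mem ha

/-- the linear map of a morphism -/
noncomputable def asMap {X Y : Rep.{0} k G} (f : X ⟶ Y) :
    X.ρ.asModule →ₗ[MonoidAlgebra k G] Y.ρ.asModule := (Rep.toModuleMonoidAlgebra.map f).hom

theorem asMap_apply {X Y : Rep.{0} k G} (f : X ⟶ Y) (x : X.V) :
    asMap f (show X.ρ.asModule from x) = (show Y.ρ.asModule from f.hom x) := rfl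

theorem triv_smul (c : MonoidAlgebra k G) (z : (Rep.trivial k G k).ρ.asModule) :
    c • z = (show (Rep.trivial k G k).ρ.asModule from
      MonoidAlgebra.lift k k G 1 c * (show k from z)) := by
  have h1 := Representation.asModuleEquiv_map_smul (Rep.trivial k G k).ρ c z
  have h2 : ∀ (c : MonoidAlgebra k G) (z : k),
      (Representation.asAlgebraHom (Rep.trivial k G k).ρ c) z = MonoidAlgebra.lift k k G 1 c * z := by
    intro c z
    induction c using MonoidAlgebra.induction_on with
    | of g =>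
      rw [Representation.asAlgebraHom_of]
      simp
    | add a b ha hb => rw [map_add, LinearMap.add_apply, ha, hb, map_add, add_mul]
    | smul r a ha => rw [map_smul, LinearMap.smul_apply, ha, map_smul, smul_mul_assoc]
  exact h1.trans (h2 c z)

theorem ofRep_gen (R : ProjectiveResolution (Rep.trivial k G k))
    (h : ∀ n ≤ 2, ∃ s : Finset (R.complex.X n).V, ∀ x : (R.complex.X n).V,
      x ∈ AddSubgroup.closure (Set.range
        (fun p : G × s => (R.complex.X n).ρ p.1 (p.2 : (R.complex.X n).V)))) :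
    ∃ (P0 P1 P2 : ModuleCat.{0} (MonoidAlgebra k G)) (d0 : P1 →ₗ[MonoidAlgebra k G] P0)
      (d1 : P2 →ₗ[MonoidAlgebra k G] P1) (ε : P0 →+ k),
      (Module.Projective (MonoidAlgebra k G) P0 ∧ Module.Projective (MonoidAlgebra k G) P1) ∧
      (Module.Finite (MonoidAlgebra k G) P0 ∧ Module.Finite (MonoidAlgebra k G) P1 ∧
        Module.Finite (MonoidAlgebra k G) P2) ∧
      (∀ (c : MonoidAlgebra k G) x, ε (c • x) = MonoidAlgebra.lift k k G 1 c * ε x) ∧
      Function.Surjective ε ∧ (∀ x, ε x = 0 ↔ ∃ y, d0 y = x) ∧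
      (∀ x, d0 x = 0 ↔ ∃ y, d1 y = x) := by
  let e : R.complex.X 0 ⟶ Rep.trivial k G k := R.π.f 0
  have hf := fun n hn => (h n hn).elim (fun s hs => asMod_fin (R.complex.X n) s hs)
  have e0 := (rep_exact_iff _).1 R.exact₀
  have e1 := (rep_exact_iff _).1 (R.exact_succ 0)
  have z0 : ∀ y, e.hom ((R.complex.d 1 0).hom y) = 0 := by
    intro y
    have h1 := R.complex_d_comp_π_f_zero
    have h2 := congrArg (fun f => f.hom y) h1
    exact h2
  have z1 : ∀ y, (R.complex.d 1 0).hom ((R.complex.d 2 1).hom y) = 0 := by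
    intro y
    have h1 := R.complex.d_comp_d 2 1 0
    have h2 := congrArg (fun f => f.hom y) h1
    exact h2
  refine ⟨ModuleCat.of _ (R.complex.X 0).ρ.asModule, ModuleCat.of _ (R.complex.X 1).ρ.asModule,
    ModuleCat.of _ (R.complex.X 2).ρ.asModule, asMap (R.complex.d 1 0), asMap (R.complex.d 2 1),
    (asMap e).toAddMonoidHom, ⟨asMod_proj _ (R.projective 0), asMod_proj _ (R.projective 1)⟩,
    ⟨hf 0 (by omega), hf 1 (by omega), hf 2 (by omega)⟩, ?_, ?_, ?_, ?_⟩
  · intro c x
    have h1 := map_smul (asMap e) c x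
    rw [triv_smul] at h1
    exact h1
  · have h1 : Epi e := inferInstanceAs (Epi (R.π.f 0))
    rw [Rep.epi_iff_surjective] at h1
    exact h1
  · intro x
    constructor
    · intro hx; exact e0 x hx
    · rintro ⟨y, rfl⟩; exact z0 y
  · intro x
    constructor
    · intro hx; exact e1 x hx
    · rintro ⟨y, rfl⟩; exact z1 y

end

section
variable {G : Type} [Group G]

/-- **`Rep` to modules.** -/
theorem ofRep (h : FPc G 2) : Module.FinitePresentation (ZG G) (IL ℤ (Set.univ : Set G)) := by
  obtain ⟨R, hR⟩ := h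
  obtain ⟨P0, P1, P2, d0, d1, ε, ⟨p0, p1⟩, ⟨f0, f1, f2⟩, hε, hs, h0, h1⟩ :=
    ofRep_gen R (fun n hn => (fgr_iff _).1 (hR n hn))
  let ε' : P0 →ₗ[ZG G] Tr G :=
    { toFun := fun x => (show ℤ from ε x)
      map_add' := fun x y => map_add ε x y
      map_smul' := fun c x => hε c x }
  rw [← ker_augL]
  exact schanuel ε' d0 d1 (augL G) hs (augL_surj G) h0 h1

/-- finitely presented augmentation ideal implies `FP_2` -/
theorem fpc_two (h : Module.FinitePresentation (ZG G) (IL ℤ (Set.univ : Set G))) : FPc G 2 := by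
  apply toRep
  apply hasRes_cons (augL G) (augL_surj G)
  rw [ker_augL]
  exact hasRes_two

theorem FPc_mono {m n : ℕ} (hmn : m ≤ n) (h : FPc G n) : FPc G m := by
  obtain ⟨R, hR⟩ := h
  exact ⟨R, fun k hk => hR k (hk.trans hmn)⟩

end

end Pool.Agent.TH18
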