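import Pool.Agent.TH18.Surj
import Pool.Agent.TH18.Groups
import Pool.Agent.TH18.ResRep

set_option autoImplicit false

namespace Pool.Agent.TH18

open CategoryTheory

theorem final (hH : FPc H 3) :
    ¬ (∀ (G₁ G₂ Q : Type) [Group G₁] [Group G₂] [Group Q] (π₁ : G₁ →* Q) (π₂ : G₂ →* Q),
      Function.Surjective π₁ → Function.Surjective π₂ → Group.FG π₁.ker →
      FPc G₁ 2 → FPc G₂ 2 → FPc Q 3 →
      FPc ↥((π₁.comp (MonoidHom.fst G₁ G₂)).eqLocus (π₂.comp (MonoidHom.snd G₁ G₂))) 2) := by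
  intro h
  have h1 := h (G1 qH) (FreeGroup E) H (p1 qH) qH (p1_surj qH) qH_surj (ker_fg qH qH_surj)
    (fpc_two (fp_G1 qH qH_surj (ofRep (FPc_mono (by omega) hH)))) (fpc_two free_fp) hH
  obtain ⟨s, hs, hn⟩ := fibre qH qH_surj (ofRep h1)
  exact not_fp s hs hn

end Pool.Agent.TH18
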