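import Pool.Agent.TH605.AP.WF

set_option autoImplicit false

open Set Topology Filter

namespace Pool.Agent.TH18.J2840

open Pool.Agent.TH605.AP

theorem E_infty (v : HV) : E v OnePoint.infty = v.k := rfl

theorem E_some (v : HV) (z : ℂ) : E v (OnePoint.some z) =
    v.k * (z.re ^ 2 + z.im ^ 2) - 2 * (v.p * z.re + v.q * z.im) + v.c := rfl

theorem uniq_disc {A B C : ℝ} (P : Option ℝ → OnePoint ℂ) (hinj : Function.Injective P)
    {S V : Set (OnePoint ℂ)} (hS : ∀ z, z ∈ S ↔ ∃ o, P o = z) (h0 : P none ∈ V ↔ A = 0)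
    (h1 : ∀ t, P (some t) ∈ V ↔ A * t ^ 2 - 2 * B * t + C = 0) (hu : ∃! p, p ∈ V ∩ S) :
    B ^ 2 = A * C := by
  by_contra hne
  obtain ⟨p0, hp0, hun⟩ := hu
  by_cases hA : A = 0
  · have hB : B ≠ 0 := by
      rintro rfl
      apply hne
      rw [hA]; ring
    have e1 := hun (P none) ⟨h0.2 hA, (hS _).2 ⟨_, rfl⟩⟩
    have e2 := hun (P (some (C / (2 * B)))) ⟨(h1 _).2 (by rw [hA]; field_simp; ring),
      (hS _).2 ⟨_, rfl⟩⟩
    have := hinj (e1.trans e2.symm)
    simp at this
  · rcases lt_or_gt_of_ne hne with h | h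
    · obtain ⟨hV, hSp⟩ := hp0
      obtain ⟨o, rfl⟩ := (hS _).1 hSp
      cases o with
      | none => exact hA (h0.1 hV)
      | some t =>
        have h2 := (h1 t).1 hV
        have h3 : (A * t - B) ^ 2 = B ^ 2 - A * C := by
          have : A * (A * t ^ 2 - 2 * B * t + C) = 0 := by rw [h2, mul_zero]
          nlinarith
        have h4 := sq_nonneg (A * t - B)
        linarith
    · have hd : 0 < B ^ 2 - A * C := by linarith
      set r := Real.sqrt (B ^ 2 - A * C) with hr
      have hr0 : 0 < r := Real.sqrt_pos.2 hd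
      have hr2 : r ^ 2 = B ^ 2 - A * C := Real.sq_sqrt hd.le
      have key : ∀ e : ℝ, e ^ 2 = r ^ 2 → P (some ((B + e) / A)) ∈ V ∩ S := by
        intro e he
        refine ⟨(h1 _).2 ?_, (hS _).2 ⟨_, rfl⟩⟩
        field_simp
        rw [hr2] at he
        nlinarith
      have e1 := hun _ (key r rfl)
      have e2 := hun _ (key (-r) (by ring))
      have h3 := hinj (e1.trans e2.symm)
      rw [Option.some.injEq, div_left_inj' hA] at h3
      linarith

/-- parametrisations of the circles -/
noncomputable def Pm : Fin 4 → Option ℝ → OnePoint ℂ :=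
  ![fun o => o.elim (OnePoint.some 0)
      (fun t => OnePoint.some (⟨t / (t ^ 2 + 1), -(1 / (t ^ 2 + 1))⟩ : ℂ)),
    fun o => o.elim (OnePoint.some 1)
      (fun t => OnePoint.some (⟨1 + t / (t ^ 2 + 1), -(1 / (t ^ 2 + 1))⟩ : ℂ)),
    fun o => o.elim OnePoint.infty (fun t => OnePoint.some (⟨t, 0⟩ : ℂ)),
    fun o => o.elim OnePoint.infty (fun t => OnePoint.some (⟨t, -1⟩ : ℂ))]

theorem some_inj {a b : ℂ} : (OnePoint.some a : OnePoint ℂ) = OnePoint.some b ↔ a = b :=
  OnePoint.coe_eq_coe

theorem Pm_inj (i : Fin 4) : Function.Injective (Pm i) := by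
  intro o o' h
  fin_cases i
  · rcases o with _ | t <;> rcases o' with _ | t'
    · rfl
    · exfalso
      have h1 := some_inj.1 h
      have h2 := congrArg Complex.im h1
      simp only [Complex.zero_im] at h2
      have : 0 < 1 / (t' ^ 2 + 1) := by positivity
      linarith
    · exfalso
      have h1 := some_inj.1 h
      have h2 := congrArg Complex.im h1
      simp only [Complex.zero_im] at h2
      have : 0 < 1 / (t ^ 2 + 1) := by positivity
      linarith
    · have h1 := some_inj.1 h
      have h2 := congrArg Complex.im h1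
      have h3 := congrArg Complex.re h1
      simp only at h2 h3
      have p1 : 0 < t ^ 2 + 1 := by positivity
      have p2 : 0 < t' ^ 2 + 1 := by positivity
      have h4 : t ^ 2 + 1 = t' ^ 2 + 1 := by
        field_simp at h2
        linarith
      rw [h4, div_left_inj' p2.ne'] at h3
      rw [h3]
  · rcases o with _ | t <;> rcases o' with _ | t'
    · rfl
    · exfalso
      have h1 := some_inj.1 h
      have h2 := congrArg Complex.im h1
      simp only [Complex.one_im] at h2
      have : 0 < 1 / (t' ^ 2 + 1) := by positivity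
      linarith
    · exfalso
      have h1 := some_inj.1 h
      have h2 := congrArg Complex.im h1
      simp only [Complex.one_im] at h2
      have : 0 < 1 / (t ^ 2 + 1) := by positivity
      linarith
    · have h1 := some_inj.1 h
      have h2 := congrArg Complex.im h1
      have h3 := congrArg Complex.re h1
      simp only at h2 h3
      have p1 : 0 < t ^ 2 + 1 := by positivity
      have p2 : 0 < t' ^ 2 + 1 := by positivity
      have h4 : t ^ 2 + 1 = t' ^ 2 + 1 := by
        field_simp at h2
        linarith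
      rw [h4, add_right_inj, div_left_inj' p2.ne'] at h3
      rw [h3]
  · rcases o with _ | t <;> rcases o' with _ | t'
    · rfl
    · exact absurd h.symm (OnePoint.coe_ne_infty _)
    · exact absurd h (OnePoint.coe_ne_infty _)
    · have h1 := some_inj.1 h
      have h3 := congrArg Complex.re h1
      simp only at h3
      rw [h3]
  · rcases o with _ | t <;> rcases o' with _ | t'
    · rfl
    · exact absurd h.symm (OnePoint.coe_ne_infty _)
    · exact absurd h (OnePoint.coe_ne_infty _)
    · have h1 := some_inj.1 h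
      have h3 := congrArg Complex.re h1
      simp only at h3
      rw [h3]

theorem Pm_mem (i : Fin 4) (z : OnePoint ℂ) : z ∈ Cir i ↔ ∃ o, Pm i o = z := by
  fin_cases i
  · show E ⟨2, 0, -1, 0⟩ z = 0 ↔ _
    constructor
    · intro h
      induction z using OnePoint.rec with
      | infty => rw [E_infty] at h; norm_num at h
      | coe z =>
        rw [E_some] at h
        simp only at h
        have h' : z.re ^ 2 + z.im ^ 2 + z.im = 0 := by linarith
        by_cases h0 : z = 0
        · exact ⟨none, by subst h0; rfl⟩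
        · have hn : z.re ^ 2 + z.im ^ 2 ≠ 0 := by
            intro hz
            apply h0
            have h1 : z.im = 0 := by linarith
            have h2 : z.re = 0 := by
              rw [h1] at hz
              simpa using hz
            exact Complex.ext h2 h1
          have him : z.im ≠ 0 := by
            intro h1
            apply hn
            linarith
          refine ⟨some (z.re / (z.re ^ 2 + z.im ^ 2)), ?_⟩
          apply some_inj.2
          have hq : (z.re / (z.re ^ 2 + z.im ^ 2)) ^ 2 + 1 = 1 / (z.re ^ 2 + z.im ^ 2) := by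
            rw [div_pow, div_add_one (pow_ne_zero 2 hn), div_eq_div_iff (pow_ne_zero 2 hn) hn]
            have h5 : z.im ^ 2 = (z.re ^ 2 + z.im ^ 2) ^ 2 := by
              have : z.re ^ 2 + z.im ^ 2 = -z.im := by linarith
              rw [this]; ring
            rw [one_mul]
            nlinarith
          rw [hq]
          apply Complex.ext
          · show z.re / (z.re ^ 2 + z.im ^ 2) / (1 / (z.re ^ 2 + z.im ^ 2)) = z.re
            field_simp
          · show -(1 / (1 / (z.re ^ 2 + z.im ^ 2))) = z.im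
            rw [one_div_one_div]
            linarith
    · rintro ⟨o, rfl⟩
      rcases o with _ | t
      · show E _ (OnePoint.some 0) = 0
        rw [E_some]; simp
      · show E _ (OnePoint.some _) = 0
        rw [E_some]
        have p1 : t ^ 2 + 1 ≠ 0 := by positivity
        simp only
        field_simp
        ring
  · show E ⟨2, 2, -1, 2⟩ z = 0 ↔ _
    constructor
    · intro h
      induction z using OnePoint.rec with
      | infty => rw [E_infty] at h; norm_num at h
      | coe z =>
        rw [E_some] at h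
        simp only at h
        have h' : (z.re - 1) ^ 2 + z.im ^ 2 + z.im = 0 := by linarith
        by_cases h0 : z = 1
        · exact ⟨none, by subst h0; rfl⟩
        · have hn : (z.re - 1) ^ 2 + z.im ^ 2 ≠ 0 := by
            intro hz
            apply h0
            have h1 : z.im = 0 := by linarith
            have h2 : z.re - 1 = 0 := by
              rw [h1] at hz
              simpa using hz
            apply Complex.ext
            · rw [Complex.one_re]; linarith
            · rw [Complex.one_im]; exact h1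
          refine ⟨some ((z.re - 1) / ((z.re - 1) ^ 2 + z.im ^ 2)), ?_⟩
          apply some_inj.2
          have hq : ((z.re - 1) / ((z.re - 1) ^ 2 + z.im ^ 2)) ^ 2 + 1 =
              1 / ((z.re - 1) ^ 2 + z.im ^ 2) := by
            rw [div_pow, div_add_one (pow_ne_zero 2 hn), div_eq_div_iff (pow_ne_zero 2 hn) hn]
            have h5 : z.im ^ 2 = ((z.re - 1) ^ 2 + z.im ^ 2) ^ 2 := by
              have : (z.re - 1) ^ 2 + z.im ^ 2 = -z.im := by linarith
              rw [this]; ring
            rw [one_mul]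
            nlinarith
          rw [hq]
          apply Complex.ext
          · show 1 + (z.re - 1) / ((z.re - 1) ^ 2 + z.im ^ 2) /
              (1 / ((z.re - 1) ^ 2 + z.im ^ 2)) = z.re
            field_simp
            ring
          · show -(1 / (1 / ((z.re - 1) ^ 2 + z.im ^ 2))) = z.im
            rw [one_div_one_div]
            linarith
    · rintro ⟨o, rfl⟩
      rcases o with _ | t
      · show E _ (OnePoint.some 1) = 0
        rw [E_some]; simp; norm_num
      · show E _ (OnePoint.some _) = 0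
        rw [E_some]
        have p1 : t ^ 2 + 1 ≠ 0 := by positivity
        simp only
        field_simp
        ring
  · show E ⟨0, 0, 1, 0⟩ z = 0 ↔ _
    constructor
    · intro h
      induction z using OnePoint.rec with
      | infty => exact ⟨none, rfl⟩
      | coe z =>
        rw [E_some] at h
        simp only at h
        refine ⟨some z.re, some_inj.2 (Complex.ext rfl ?_)⟩
        show 0 = z.im
        linarith
    · rintro ⟨o, rfl⟩
      rcases o with _ | t
      · rfl
      · show E _ (OnePoint.some _) = 0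
        rw [E_some]
        simp
  · show E ⟨0, 0, -1, 2⟩ z = 0 ↔ _
    constructor
    · intro h
      induction z using OnePoint.rec with
      | infty => exact ⟨none, rfl⟩
      | coe z =>
        rw [E_some] at h
        simp only at h
        refine ⟨some z.re, some_inj.2 (Complex.ext rfl ?_)⟩
        show -1 = z.im
        linarith
    · rintro ⟨o, rfl⟩
      rcases o with _ | t
      · rfl
      · show E _ (OnePoint.some _) = 0
        rw [E_some]
        simp

theorem disc2 {v : HV} (h : ∃! p, p ∈ {z | E v z = 0} ∩ Cir 2) : v.p ^ 2 = v.k * v.c := by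
  refine uniq_disc (Pm 2) (Pm_inj 2) (Pm_mem 2) ?_ ?_ h
  · exact Iff.rfl
  · intro t
    show E v (OnePoint.some _) = 0 ↔ _
    rw [E_some]
    simp only
    constructor <;> intro h <;> linarith

theorem disc3 {v : HV} (h : ∃! p, p ∈ {z | E v z = 0} ∩ Cir 3) :
    v.p ^ 2 = v.k * (v.k + 2 * v.q + v.c) := by
  refine uniq_disc (Pm 3) (Pm_inj 3) (Pm_mem 3) ?_ ?_ h
  · exact Iff.rfl
  · intro t
    show E v (OnePoint.some _) = 0 ↔ _
    rw [E_some]
    simp only
    constructor <;> intro h <;> linarith

theorem disc0 {v : HV} (h : ∃! p, p ∈ {z | E v z = 0} ∩ Cir 0) :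
    v.p ^ 2 = v.c * (v.k + 2 * v.q + v.c) := by
  refine uniq_disc (Pm 0) (Pm_inj 0) (Pm_mem 0) ?_ ?_ h
  · show E v (OnePoint.some 0) = 0 ↔ _
    rw [E_some]
    simp
  · intro t
    show E v (OnePoint.some _) = 0 ↔ _
    rw [E_some]
    have p1 : t ^ 2 + 1 ≠ 0 := by positivity
    simp only
    have e : v.k * ((t / (t ^ 2 + 1)) ^ 2 + (-(1 / (t ^ 2 + 1))) ^ 2) -
        2 * (v.p * (t / (t ^ 2 + 1)) + v.q * -(1 / (t ^ 2 + 1))) + v.c =
        (v.c * t ^ 2 - 2 * v.p * t + (v.k + 2 * v.q + v.c)) / (t ^ 2 + 1) := by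
      field_simp
      ring
    rw [e, div_eq_zero_iff]
    simp [p1]

theorem disc1 {v : HV} (h : ∃! p, p ∈ {z | E v z = 0} ∩ Cir 1) :
    (v.p - v.k) ^ 2 = (v.c + v.k - 2 * v.p) * (v.c + 2 * v.k - 2 * v.p + 2 * v.q) := by
  refine uniq_disc (Pm 1) (Pm_inj 1) (Pm_mem 1) ?_ ?_ h
  · show E v (OnePoint.some 1) = 0 ↔ _
    rw [E_some]
    simp only [Complex.one_re, Complex.one_im]
    constructor <;> intro h <;> linarith
  · intro t
    show E v (OnePoint.some _) = 0 ↔ _
    rw [E_some]
    have p1 : t ^ 2 + 1 ≠ 0 := by positivity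
    simp only
    have e : v.k * ((1 + t / (t ^ 2 + 1)) ^ 2 + (-(1 / (t ^ 2 + 1))) ^ 2) -
        2 * (v.p * (1 + t / (t ^ 2 + 1)) + v.q * -(1 / (t ^ 2 + 1))) + v.c =
        ((v.c + v.k - 2 * v.p) * t ^ 2 - 2 * (v.p - v.k) * t +
          (v.c + 2 * v.k - 2 * v.p + 2 * v.q)) / (t ^ 2 + 1) := by
      field_simp
      ring
    rw [e, div_eq_zero_iff]
    simp [p1]

theorem scal {v w : HV} (r : ℝ) (hr : r ≠ 0) (h1 : v.k = r * w.k) (h2 : v.p = r * w.p)
    (h3 : v.q = r * w.q) (h4 : v.c = r * w.c) : {z | E v z = 0} = {z | E w z = 0} := by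
  have key : ∀ z, E v z = r * E w z := by
    intro z
    induction z using OnePoint.rec with
    | infty => exact h1
    | coe z => rw [E_some, E_some, h1, h2, h3, h4]; ring
  ext z
  show E v z = 0 ↔ E w z = 0
  rw [key z, mul_eq_zero, or_iff_right hr]

theorem not_self (B : BF) {V : Set (OnePoint ℂ)} (i : Fin 4) (h : ∃! p, p ∈ V ∩ Cir i) :
    V ≠ Cir i := by
  rintro rfl
  obtain ⟨p, q, hpq, hp, hq⟩ := B.two i
  obtain ⟨x, _, hx⟩ := h
  exact hpq ((hx p ⟨hp, hp⟩).trans (hx q ⟨hq, hq⟩).symm)

theorem s_img (B : BF) (l : Fin 4) :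
    s l '' Cir l = {z | E (TH605.AP.refl (vD l) (vC l)) z = 0} := by
  ext z
  constructor
  · rintro ⟨w, hw, rfl⟩
    obtain ⟨μ, hμ, h⟩ := B.E_s l (vC l) (s l w)
    rw [B.s_s] at h
    have hw' : E (vC l) w = 0 := hw
    rw [hw'] at h
    rcases mul_eq_zero.1 h.symm with h | h
    · exact absurd h hμ.ne'
    · exact h
  · intro hz
    refine ⟨s l z, ?_, B.s_s l z⟩
    obtain ⟨μ, hμ, h⟩ := B.E_s l (vC l) z
    show E (vC l) (s l z) = 0
    have hz' : E (TH605.AP.refl (vD l) (vC l)) z = 0 := hz
    rw [h, hz', mul_zero]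

theorem rf (l : Fin 4) : TH605.AP.refl (vD l) (vC l) = (![⟨2, 4, -1, 8⟩, ⟨2, -2, -1, 2⟩, ⟨8, 4, -7, 8⟩,
    ⟨8, 4, -1, 2⟩] : Fin 4 → HV) l := by
  fin_cases l <;> simp [TH605.AP.refl, vD, vC, ip] <;> norm_num

section

variable (B : BF) {v : HV} (hv : v.k * v.c < v.p ^ 2 + v.q ^ 2)

include B hv

theorem apol1 (h0 : ∃! p, p ∈ {z | E v z = 0} ∩ Cir 0) (h2 : ∃! p, p ∈ {z | E v z = 0} ∩ Cir 2)
    (h3 : ∃! p, p ∈ {z | E v z = 0} ∩ Cir 3) :
    {z | E v z = 0} = Cir 1 ∨ {z | E v z = 0} = s 1 '' Cir 1 := by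
  have d0 := disc0 h0
  have d2 := disc2 h2
  have d3 := disc3 h3
  have n0 := not_self B 0 h0
  have n2 := not_self B 2 h2
  have n3 := not_self B 3 h3
  have e1 : v.k * (v.k + 2 * v.q) = 0 := by linarith
  have e2 : v.c * (v.c + 2 * v.q) = 0 := by linarith
  rcases mul_eq_zero.1 e1 with hk | hk
  · have hp : v.p = 0 := by
      rw [hk, zero_mul] at d2
      exact pow_eq_zero_iff (two_ne_zero) |>.1 d2
    rcases mul_eq_zero.1 e2 with hc | hc
    · exfalso
      have hq : v.q ≠ 0 := by rintro hq; rw [hk, hp, hq] at hv; norm_num at hv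
      exact n2 (scal (w := vC 2) v.q hq (by rw [hk]; simp [vC]) (by rw [hp]; simp [vC])
        (by simp [vC]) (by rw [hc]; simp [vC]))
    · exfalso
      have hq : v.q ≠ 0 := by rintro hq; rw [hk, hp, hq] at hv; norm_num at hv
      exact n3 (scal (w := vC 3) (-v.q) (neg_ne_zero.2 hq) (by rw [hk]; simp [vC])
        (by rw [hp]; simp [vC]) (by simp [vC]) (by simp [vC]; linarith))
  · rcases mul_eq_zero.1 e2 with hc | hc
    · exfalso
      have hp : v.p = 0 := by
        rw [hc, mul_zero] at d2
        exact pow_eq_zero_iff (two_ne_zero) |>.1 d2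
      have hq : v.q ≠ 0 := by rintro hq; rw [hc, hp, hq] at hv; norm_num at hv
      exact n0 (scal (w := vC 0) (-v.q) (neg_ne_zero.2 hq) (by simp [vC]; linarith)
        (by rw [hp]; simp [vC]) (by simp [vC]) (by rw [hc]; simp [vC]))
    · have hk' : v.k = -2 * v.q := by linarith
      have hc' : v.c = -2 * v.q := by linarith
      have h4 : (v.p - 2 * v.q) * (v.p + 2 * v.q) = 0 := by
        rw [hk', hc'] at d2; linarith
      have hq : v.q ≠ 0 := by
        rintro hq
        rw [hk', hc'] at d2
        rw [hk', hc', d2, hq] at hv; norm_num at hv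
      rcases mul_eq_zero.1 h4 with h5 | h5
      · right
        rw [s_img B 1, rf]
        exact scal (-v.q) (neg_ne_zero.2 hq) (by simp; linarith) (by simp; linarith)
          (by simp) (by simp; linarith)
      · left
        exact scal (w := vC 1) (-v.q) (neg_ne_zero.2 hq) (by simp [vC]; linarith)
          (by simp [vC]; linarith) (by simp [vC]) (by simp [vC]; linarith)

set_option linter.unusedSectionVars false

theorem ex0 (hq : v.q ≠ 0) (h : ∃! p, p ∈ {z | E v z = 0} ∩ Cir 0) (hk : v.k = -2 * v.q)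
    (hp : v.p = 0) (hc : v.c = 0) : False :=
  not_self B 0 h (scal (w := vC 0) (-v.q) (neg_ne_zero.2 hq) (by simp [vC]; linarith)
    (by rw [hp]; simp [vC]) (by simp [vC]) (by rw [hc]; simp [vC]))

theorem ex1 (hq : v.q ≠ 0) (h : ∃! p, p ∈ {z | E v z = 0} ∩ Cir 1) (hk : v.k = -2 * v.q)
    (hp : v.p = -2 * v.q) (hc : v.c = -2 * v.q) : False :=
  not_self B 1 h (scal (w := vC 1) (-v.q) (neg_ne_zero.2 hq) (by simp [vC]; linarith)
    (by simp [vC]; linarith) (by simp [vC]) (by simp [vC]; linarith))

theorem ex2 (hq : v.q ≠ 0) (h : ∃! p, p ∈ {z | E v z = 0} ∩ Cir 2) (hk : v.k = 0)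
    (hp : v.p = 0) (hc : v.c = 0) : False :=
  not_self B 2 h (scal (w := vC 2) v.q hq (by rw [hk]; simp [vC]) (by rw [hp]; simp [vC])
    (by simp [vC]) (by rw [hc]; simp [vC]))

theorem ex3 (hq : v.q ≠ 0) (h : ∃! p, p ∈ {z | E v z = 0} ∩ Cir 3) (hk : v.k = 0)
    (hp : v.p = 0) (hc : v.c = -2 * v.q) : False :=
  not_self B 3 h (scal (w := vC 3) (-v.q) (neg_ne_zero.2 hq) (by rw [hk]; simp [vC])
    (by rw [hp]; simp [vC]) (by simp [vC]) (by simp [vC]; linarith))

omit B in
theorem yes0 (hq : v.q ≠ 0) (hk : v.k = -2 * v.q)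
    (hp : v.p = 0) (hc : v.c = 0) : {z | E v z = 0} = Cir 0 :=
  (scal (w := vC 0) (-v.q) (neg_ne_zero.2 hq) (by simp [vC]; linarith)
    (by rw [hp]; simp [vC]) (by simp [vC]) (by rw [hc]; simp [vC]))

omit B in
theorem yes2 (hq : v.q ≠ 0) (hk : v.k = 0)
    (hp : v.p = 0) (hc : v.c = 0) : {z | E v z = 0} = Cir 2 :=
  (scal (w := vC 2) v.q hq (by rw [hk]; simp [vC]) (by rw [hp]; simp [vC])
    (by simp [vC]) (by rw [hc]; simp [vC]))

omit B in
theorem yes3 (hq : v.q ≠ 0) (hk : v.k = 0)
    (hp : v.p = 0) (hc : v.c = -2 * v.q) : {z | E v z = 0} = Cir 3 :=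
  (scal (w := vC 3) (-v.q) (neg_ne_zero.2 hq) (by rw [hk]; simp [vC])
    (by rw [hp]; simp [vC]) (by simp [vC]) (by simp [vC]; linarith))

theorem apol0 (h1 : ∃! p, p ∈ {z | E v z = 0} ∩ Cir 1) (h2 : ∃! p, p ∈ {z | E v z = 0} ∩ Cir 2)
    (h3 : ∃! p, p ∈ {z | E v z = 0} ∩ Cir 3) :
    {z | E v z = 0} = Cir 0 ∨ {z | E v z = 0} = s 0 '' Cir 0 := by
  have d1 := disc1 h1
  have d2 := disc2 h2
  have d3 := disc3 h3
  have e1 : v.k * (v.k + 2 * v.q) = 0 := by linarith
  rcases mul_eq_zero.1 e1 with hk | hk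
  · exfalso
    have hp : v.p = 0 := by
      rw [hk, zero_mul] at d2
      exact pow_eq_zero_iff (two_ne_zero) |>.1 d2
    have hq : v.q ≠ 0 := by rintro hq; rw [hk, hp, hq] at hv; norm_num at hv
    have e2 : v.c * (v.c + 2 * v.q) = 0 := by rw [hk, hp] at d1; linarith
    rcases mul_eq_zero.1 e2 with hc | hc
    · exact ex2 B hv hq h2 hk hp hc
    · exact ex3 B hv hq h3 hk hp (by linarith)
  · have hk' : v.k = -2 * v.q := by linarith
    rw [hk'] at d1 d2
    have e3 : (v.c - 3 * v.p - 4 * v.q) * (v.c - v.p) = 0 := by nlinarith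
    have hq : v.q ≠ 0 := by
      rintro hq
      rw [hq, mul_zero, zero_mul] at d2
      rw [hk', hq, d2] at hv; norm_num at hv
    rcases mul_eq_zero.1 e3 with hc | hc
    · have hc' : v.c = 3 * v.p + 4 * v.q := by linarith
      rw [hc'] at d2
      have e4 : (v.p + 2 * v.q) * (v.p + 4 * v.q) = 0 := by nlinarith
      rcases mul_eq_zero.1 e4 with h | h
      · exact (ex1 B hv hq h1 hk' (by linarith) (by linarith)).elim
      · right
        rw [s_img B 0, rf]
        exact scal (-v.q) (neg_ne_zero.2 hq) (by simp; linarith) (by simp; linarith)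
          (by simp) (by simp; linarith)
    · have hc' : v.c = v.p := by linarith
      rw [hc'] at d2
      have e4 : v.p * (v.p + 2 * v.q) = 0 := by nlinarith
      rcases mul_eq_zero.1 e4 with h | h
      · left
        exact yes0 hv hq hk' h (by linarith)
      · exact (ex1 B hv hq h1 hk' (by linarith) (by linarith)).elim

theorem apol2 (h0 : ∃! p, p ∈ {z | E v z = 0} ∩ Cir 0) (h1 : ∃! p, p ∈ {z | E v z = 0} ∩ Cir 1)
    (h3 : ∃! p, p ∈ {z | E v z = 0} ∩ Cir 3) :
    {z | E v z = 0} = Cir 2 ∨ {z | E v z = 0} = s 2 '' Cir 2 := by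
  have d0 := disc0 h0
  have d1 := disc1 h1
  have d3 := disc3 h3
  have e1 : (v.c - v.k) * (v.k + 2 * v.q + v.c) = 0 := by linarith
  rcases mul_eq_zero.1 e1 with hc | hc
  · have hc' : v.c = v.k := by linarith
    rw [hc'] at d1 d3
    have e2 : (v.k - v.p) * ((v.k - v.p) - 2 * (3 * v.k - 2 * v.p + 2 * v.q)) = 0 := by nlinarith
    rcases mul_eq_zero.1 e2 with h | h
    · have hp : v.p = v.k := by linarith
      rw [hp] at d3
      have e3 : v.k * (v.k + 2 * v.q) = 0 := by nlinarith
      rcases mul_eq_zero.1 e3 with hk | hk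
      · have hp' : v.p = 0 := by linarith
        have hq : v.q ≠ 0 := by rintro hq; rw [hk, hp', hq] at hv; norm_num at hv
        exact Or.inl (yes2 hv hq hk hp' (by linarith))
      · have hk' : v.k = -2 * v.q := by linarith
        have hq : v.q ≠ 0 := by
          rintro hq
          rw [hc', hp, hk', hq] at hv; norm_num at hv
        exact (ex1 B hv hq h1 hk' (by linarith) (by linarith)).elim
    · have hp : 3 * v.p = 5 * v.k + 4 * v.q := by linarith
      have h9 : 9 * v.p ^ 2 = (5 * v.k + 4 * v.q) ^ 2 := by rw [← hp]; ring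
      have e3 : (7 * v.k + 8 * v.q) * (v.k + 2 * v.q) = 0 := by rw [d3] at h9; linarith
      rcases mul_eq_zero.1 e3 with hk | hk
      · have hk' : v.k = -(8 / 7) * v.q := by linarith
        have hp' : v.p = -(4 / 7) * v.q := by linarith
        have hq : v.q ≠ 0 := by
          rintro hq
          rw [hc', hp', hk', hq] at hv; norm_num at hv
        right
        rw [s_img B 2, rf]
        exact scal (v.q / 7 * (-1)) (mul_ne_zero (div_ne_zero hq (by norm_num)) (by norm_num))
          (by show v.k = v.q / 7 * (-1) * 8; linarith) (by show v.p = v.q / 7 * (-1) * 4; linarith)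
          (by show v.q = v.q / 7 * (-1) * (-7); linarith)
          (by show v.c = v.q / 7 * (-1) * 8; linarith)
      · have hk' : v.k = -2 * v.q := by linarith
        have hp' : v.p = -2 * v.q := by linarith
        have hq : v.q ≠ 0 := by
          rintro hq
          rw [hc', hp', hk', hq] at hv; norm_num at hv
        exact (ex1 B hv hq h1 hk' (by linarith) (by linarith)).elim
  · exfalso
    have hp : v.p = 0 := by
      rw [hc, mul_zero] at d0
      exact pow_eq_zero_iff (two_ne_zero) |>.1 d0
    have e2 : v.k * (v.k + 2 * v.q) = 0 := by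
      have hc' : v.c = -v.k - 2 * v.q := by linarith
      rw [hp, hc'] at d1; nlinarith
    rcases mul_eq_zero.1 e2 with hk | hk
    · have hq : v.q ≠ 0 := by rintro hq; rw [hk, hp, hq] at hv; norm_num at hv
      exact ex3 B hv hq h3 hk hp (by linarith)
    · have hc' : v.c = 0 := by linarith
      have hq : v.q ≠ 0 := by rintro hq; rw [hc', hp, hq] at hv; norm_num at hv
      exact ex0 B hv hq h0 (by linarith) hp hc'

theorem apol3 (h0 : ∃! p, p ∈ {z | E v z = 0} ∩ Cir 0) (h1 : ∃! p, p ∈ {z | E v z = 0} ∩ Cir 1)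
    (h2 : ∃! p, p ∈ {z | E v z = 0} ∩ Cir 2) :
    {z | E v z = 0} = Cir 3 ∨ {z | E v z = 0} = s 3 '' Cir 3 := by
  have d0 := disc0 h0
  have d1 := disc1 h1
  have d2 := disc2 h2
  have e1 : v.c * (v.c + 2 * v.q) = 0 := by linarith
  rcases mul_eq_zero.1 e1 with hc | hc
  · exfalso
    have hp : v.p = 0 := by
      rw [hc, mul_zero] at d2
      exact pow_eq_zero_iff (two_ne_zero) |>.1 d2
    have hq : v.q ≠ 0 := by rintro hq; rw [hc, hp, hq] at hv; norm_num at hv
    have e2 : v.k * (v.k + 2 * v.q) = 0 := by rw [hc, hp] at d1; nlinarith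
    rcases mul_eq_zero.1 e2 with hk | hk
    · exact ex2 B hv hq h2 hk hp hc
    · exact ex0 B hv hq h0 (by linarith) hp hc
  · have hc' : v.c = -2 * v.q := by linarith
    rw [hc'] at d1 d2
    have hq : v.q ≠ 0 := by
      rintro hq
      rw [hq, mul_zero, mul_zero] at d2
      rw [hc', hq, d2] at hv; norm_num at hv
    have e3 : (v.k - v.p) * (-v.k + 3 * v.p + 4 * v.q) = 0 := by nlinarith
    rcases mul_eq_zero.1 e3 with h | h
    · have hk' : v.k = v.p := by linarith
      rw [hk'] at d2
      have e4 : v.p * (v.p + 2 * v.q) = 0 := by nlinarith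
      rcases mul_eq_zero.1 e4 with h | h
      · exact Or.inl (yes3 hv hq (by linarith) h hc')
      · exact (ex1 B hv hq h1 (by linarith) (by linarith) (by linarith)).elim
    · have hk' : v.k = 3 * v.p + 4 * v.q := by linarith
      rw [hk'] at d2
      have e4 : (v.p + 2 * v.q) * (v.p + 4 * v.q) = 0 := by nlinarith
      rcases mul_eq_zero.1 e4 with h | h
      · exact (ex1 B hv hq h1 (by linarith) (by linarith) (by linarith)).elim
      · right
        rw [s_img B 3, rf]
        exact scal (-v.q) (neg_ne_zero.2 hq) (by simp; linarith) (by simp; linarith)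
          (by simp) (by simp; linarith)

end

theorem apol (B : BF) (C : CF) {V : Set (OnePoint ℂ)} (hV : IsCirc V) (i j k l : Fin 4)
    (h1 : i ≠ j) (h2 : i ≠ k) (h3 : i ≠ l) (h4 : j ≠ k) (h5 : j ≠ l) (h6 : k ≠ l)
    (hi : ∃! p, p ∈ V ∩ Cir i) (hj : ∃! p, p ∈ V ∩ Cir j) (hk : ∃! p, p ∈ V ∩ Cir k) :
    V = Cir l ∨ V = s l '' Cir l := by
  obtain ⟨v, hv, rfl⟩ := C.circ_vec V hV
  have key : ∀ m : Fin 4, m ≠ l → ∃! p, p ∈ {z | E v z = 0} ∩ Cir m := by
    intro m hm
    have : m = i ∨ m = j ∨ m = k := by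
      revert h1 h2 h3 h4 h5 h6 hm
      clear hi hj hk hV
      revert i j k l m
      decide
    rcases this with rfl | rfl | rfl
    · exact hi
    · exact hj
    · exact hk
  clear hi hj hk h1 h2 h3 h4 h5 h6 hV
  match l, key with
  | 0, key => exact apol0 B hv (key 1 (by decide)) (key 2 (by decide)) (key 3 (by decide))
  | 1, key => exact apol1 B hv (key 0 (by decide)) (key 2 (by decide)) (key 3 (by decide))
  | 2, key => exact apol2 B hv (key 0 (by decide)) (key 1 (by decide)) (key 3 (by decide))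
  | 3, key => exact apol3 B hv (key 0 (by decide)) (key 1 (by decide)) (key 2 (by decide))

end Pool.Agent.TH18.J2840
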