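import Pool.Agent.TH18.Ideal

/-! Finite presentation of the ideals `IL`: base change, extension, and the converse. -/

set_option autoImplicit false

namespace Pool.Agent.TH18

open Pool.Agent.W326.DU (IL ZG)
open Pool.Agent.W490.DU (of_sub_mem_IL IL_le)
open Pool.Agent.W571.DU

/-- the evaluation map of a family of ring elements -/
noncomputable def evl {R : Type} [Ring R] {n : ℕ} (b : Fin n → R) : (Fin n → R) →ₗ[R] R :=
  Fintype.linearCombination R b

theorem evl_apply {R : Type} [Ring R] {n : ℕ} (b a : Fin n → R) : evl b a = ∑ i, a i * b i := by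
  simp [evl, Fintype.linearCombination_apply]

theorem range_evl {R : Type} [Ring R] {n : ℕ} (b : Fin n → R) :
    LinearMap.range (evl b) = Submodule.span R (Set.range b) :=
  Fintype.range_linearCombination R b

/-- extraction of a finite presentation of a left ideal -/
theorem exists_pres {R : Type} [Ring R] (I : Submodule R R) (h : Module.FinitePresentation R I) :
    ∃ (n : ℕ) (b : Fin n → R), Submodule.span R (Set.range b) = I ∧ (LinearMap.ker (evl b)).FG := by
  obtain ⟨n, f, hf⟩ := Module.Finite.exists_fin' R I
  have hk := Module.FinitePresentation.fg_ker f hf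
  let b : Fin n → R := fun i => (f (Pi.single i 1) : R)
  have hb : ∀ a, evl b a = (f a : R) := by
    intro a
    have h1 : f a = ∑ i, a i • f (Pi.single i 1) := by
      conv_lhs => rw [pi_eq_sum_univ' a]
      rw [map_sum]
      refine Finset.sum_congr rfl fun i _ => ?_
      rw [← map_smul]
    rw [h1, evl_apply, Submodule.coe_sum]
    rfl
  refine ⟨n, b, ?_, ?_⟩
  · rw [← range_evl]
    ext x
    constructor
    · rintro ⟨a, rfl⟩
      rw [hb]; exact (f a).2
    · intro hx
      obtain ⟨a, ha⟩ := hf ⟨x, hx⟩
      exact ⟨a, by rw [hb, ha]⟩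
  · have : LinearMap.ker (evl b) = LinearMap.ker f := by
      ext a
      rw [LinearMap.mem_ker, LinearMap.mem_ker, hb]
      exact ⟨fun h => Subtype.ext h, fun h => by rw [h]; rfl⟩
    rw [this]; exact hk

/-- constructing a finite presentation of a left ideal -/
theorem pres_of {R : Type} [Ring R] {M : Type} [AddCommGroup M] [Module R M]
    [Module.FinitePresentation R M] (f : M →ₗ[R] R) (I : Submodule R R)
    (h : LinearMap.range f = I) (hk : (LinearMap.ker f).FG) : Module.FinitePresentation R I := by
  subst h
  refine Module.finitePresentation_of_surjective f.rangeRestrict f.surjective_rangeRestrict ?_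
  rw [LinearMap.ker_rangeRestrict]
  exact hk

section bc
variable {H G : Type} [Group H] [Group G] (ι : H →* G) (hι : Function.Injective ι)

theorem pi_mul_push (g : G) (x : ZG G) (y : ZG H) :
    BC.pi ℤ ι hι g (x * push ι y) = BC.pi ℤ ι hι g x * y := by
  induction y using MonoidAlgebra.induction_on with
  | of h => rw [push_of]; exact BC.pi_mul ℤ ι hι g x h
  | add a b ha hb => rw [map_add, mul_add, map_add, ha, hb, mul_add]
  | smul r a ha => rw [map_zsmul, mul_smul_comm, map_zsmul, ha, mul_smul_comm]

/-- **Base change.** -/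
theorem fp_base (hι : Function.Injective ι) (S : Set H)
    (h : Module.FinitePresentation (ZG H) (IL ℤ S)) :
    Module.FinitePresentation (ZG G) (IL ℤ (ι '' S)) := by
  classical
  obtain ⟨n, b, hb, hk⟩ := exists_pres _ h
  refine pres_of (evl (fun i => push ι (b i))) _ ?_ ?_
  · rw [range_evl]
    apply le_antisymm
    · rw [Submodule.span_le]
      rintro _ ⟨i, rfl⟩
      apply push_IL
      rw [← hb]
      exact Submodule.subset_span ⟨i, rfl⟩
    · refine Submodule.span_le.2 ?_
      rintro _ ⟨_, ⟨s, hs, rfl⟩, rfl⟩
      have h1 : MonoidAlgebra.of ℤ H s - 1 ∈ Submodule.span (ZG H) (Set.range b) := by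
        rw [hb]; exact Submodule.subset_span ⟨s, hs, rfl⟩
      have h2 : MonoidAlgebra.of ℤ G (ι s) - 1 = push ι (MonoidAlgebra.of ℤ H s - 1) := by
        rw [map_sub, map_one, push_of]
      show MonoidAlgebra.of ℤ G (ι s) - 1 ∈ _
      rw [h2]
      rw [← range_evl] at h1
      obtain ⟨a, ha⟩ := h1
      rw [← ha, evl_apply, map_sum]
      refine Submodule.sum_mem _ fun i _ => ?_
      rw [map_mul]
      exact Submodule.smul_mem _ _ (Submodule.subset_span ⟨i, rfl⟩)
  · obtain ⟨T, hT⟩ := hk
    let j : (Fin n → ZG H) → (Fin n → ZG G) := fun a i => push ι (a i)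
    refine ⟨T.image j, le_antisymm ?_ ?_⟩
    · rw [Submodule.span_le]
      intro x hx
      rw [Finset.coe_image] at hx
      obtain ⟨r, hr, rfl⟩ := hx
      have h1 : r ∈ LinearMap.ker (evl b) := by rw [← hT]; exact Submodule.subset_span hr
      rw [LinearMap.mem_ker, evl_apply] at h1
      show evl _ (j r) = 0
      rw [evl_apply]
      simp only [j, ← map_mul, ← map_sum, h1, map_zero]
    · intro a ha
      rw [LinearMap.mem_ker, evl_apply] at ha
      have hmem : ∀ r ∈ LinearMap.ker (evl b), j r ∈ Submodule.span (ZG G) (T.image j : Set _) := by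
        intro r hr
        rw [← hT] at hr
        induction hr using Submodule.span_induction with
        | mem r hr => exact Submodule.subset_span (by rw [Finset.coe_image]; exact ⟨r, hr, rfl⟩)
        | zero =>
          have : j 0 = 0 := by ext i; simp [j]
          rw [this]; exact zero_mem _
        | add x y _ _ hx hy =>
          have : j (x + y) = j x + j y := by ext i; simp [j]
          rw [this]; exact add_mem hx hy
        | smul c x _ hx =>
          have : j (c • x) = push ι c • j x := by
            funext i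
            show push ι (c * x i) = push ι c * push ι (x i)
            rw [map_mul]
          rw [this]; exact Submodule.smul_mem _ _ hx
      -- decompose
      have hpi : ∀ g : G, (fun i => BC.pi ℤ ι hι g (a i)) ∈ LinearMap.ker (evl b) := by
        intro g
        rw [LinearMap.mem_ker, evl_apply]
        have h1 := congrArg (BC.pi ℤ ι hι g) ha
        rw [map_sum, map_zero] at h1
        simp only [pi_mul_push] at h1
        exact h1
      let Q : Finset (G ⧸ ι.range) := Finset.univ.biUnion
        (fun i => (a i).coeff.support.image (fun a : G => (QuotientGroup.mk a : G ⧸ ι.range)))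
      have hdec : ∀ i, a i = ∑ q ∈ Q, MonoidAlgebra.of ℤ G q.out * push ι (BC.pi ℤ ι hι q.out (a i)) := by
        intro i
        have h1 := BC.decomp ℤ ι hι (a i)
        have h2 : ∑ q ∈ (a i).coeff.support.image (fun a : G => (QuotientGroup.mk a : G ⧸ ι.range)),
            MonoidAlgebra.of ℤ G q.out * push ι (BC.pi ℤ ι hι q.out (a i)) =
            ∑ q ∈ Q, MonoidAlgebra.of ℤ G q.out * push ι (BC.pi ℤ ι hι q.out (a i)) := by
          apply Finset.sum_subset
          · intro q hq
            exact Finset.mem_biUnion.2 ⟨i, Finset.mem_univ _, hq⟩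
          · intro q _ hq
            have h3 : BC.pi ℤ ι hι q.out (a i) = 0 := by
              apply MonoidAlgebra.ext
              ext x
              rw [BC.pi_coeff]
              show (a i).coeff (q.out * ι x) = 0
              by_contra hne
              apply hq
              rw [Finset.mem_image]
              refine ⟨q.out * ι x, Finsupp.mem_support_iff.2 hne, ?_⟩
              conv_rhs => rw [← QuotientGroup.out_eq' q]
              rw [QuotientGroup.eq]
              exact ⟨x⁻¹, by rw [map_inv]; group⟩
            rw [h3, map_zero, mul_zero]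
        rw [← h2]
        exact h1
      have h4 : a = ∑ q ∈ Q, MonoidAlgebra.of ℤ G q.out • j (fun i => BC.pi ℤ ι hι q.out (a i)) := by
        funext i
        rw [Finset.sum_apply]
        exact hdec i
      rw [h4]
      exact Submodule.sum_mem _ fun q _ => Submodule.smul_mem _ _ (hmem _ (hpi _))

end bc

section ext
variable {G : Type} [Group G]

theorem comm_sub {a b : ZG G} (h : a * b = b * a) : (a - 1) * (b - 1) = (b - 1) * (a - 1) := by
  have h1 : Commute a b := h
  exact (h1.sub_left (Commute.one_left _)).sub_right (Commute.one_right _)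

/-- **Extension.** -/
theorem fp_ext (B : Set G) {k : ℕ} (t : Fin k → G) (S : Fin k → Finset G)
    (hS : ∀ i, ∀ s ∈ S i, s ∈ Subgroup.closure B ∧ t i * s = s * t i)
    (star : ∀ c : Fin k → ZG G, ∑ i, c i * (MonoidAlgebra.of ℤ G (t i) - 1) ∈ IL ℤ B →
      ∀ i, c i ∈ IL ℤ (S i : Set G))
    (h : Module.FinitePresentation (ZG G) (IL ℤ B)) :
    Module.FinitePresentation (ZG G) (IL ℤ (B ∪ Set.range t)) := by
  classical
  obtain ⟨n, b, hb, hk⟩ := exists_pres _ h
  let tt : Fin k → ZG G := fun i => MonoidAlgebra.of ℤ G (t i) - 1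
  let f : ((Fin n → ZG G) × (Fin k → ZG G)) →ₗ[ZG G] ZG G := LinearMap.coprod (evl b) (evl tt)
  have hf : ∀ x, f x = evl b x.1 + evl tt x.2 := fun x => rfl
  refine pres_of f _ ?_ ?_
  · rw [LinearMap.range_coprod, range_evl, range_evl, hb]
    apply le_antisymm
    · apply sup_le
      · exact IL_le ℤ (fun x hx => Subgroup.subset_closure (Or.inl hx))
      · rw [Submodule.span_le]
        rintro _ ⟨i, rfl⟩
        exact Submodule.subset_span ⟨t i, Or.inr ⟨i, rfl⟩, rfl⟩
    · refine Submodule.span_le.2 ?_
      rintro _ ⟨x, hx | ⟨i, rfl⟩, rfl⟩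
      · exact Submodule.mem_sup_left (Submodule.subset_span ⟨x, hx, rfl⟩)
      · exact Submodule.mem_sup_right (Submodule.subset_span ⟨i, rfl⟩)
  · -- kernel
    have hex : ∀ (i : Fin k) (s : G), ∃ a : Fin n → ZG G, s ∈ S i →
        evl b a = - ((MonoidAlgebra.of ℤ G s - 1) * tt i) := by
      intro i s
      by_cases hs : s ∈ S i
      · have h1 : - ((MonoidAlgebra.of ℤ G s - 1) * tt i) ∈ Submodule.span (ZG G) (Set.range b) := by
          rw [hb, comm_sub (b := MonoidAlgebra.of ℤ G (t i))]
          · exact neg_mem (mul_of_sub_mem B _ s (hS i s hs).1)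
          · rw [← map_mul, ← map_mul, (hS i s hs).2]
        rw [← range_evl] at h1
        obtain ⟨a, ha⟩ := h1
        exact ⟨a, fun _ => ha⟩
      · exact ⟨0, fun h => absurd h hs⟩
    choose al hal using hex
    obtain ⟨T, hT⟩ := hk
    let X1 : Finset ((Fin n → ZG G) × (Fin k → ZG G)) := Finset.univ.biUnion
      (fun i => (S i).image (fun s => (al i s, Pi.single i (MonoidAlgebra.of ℤ G s - 1))))
    let X2 : Finset ((Fin n → ZG G) × (Fin k → ZG G)) := T.image (fun r => (r, 0))
    refine ⟨X1 ∪ X2, le_antisymm ?_ ?_⟩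
    · rw [Submodule.span_le]
      intro x hx
      show f x = 0
      rw [Finset.coe_union] at hx
      rcases hx with hx | hx
      · obtain ⟨i, _, hx⟩ := Finset.mem_biUnion.1 hx
        obtain ⟨s, hs, rfl⟩ := Finset.mem_image.1 hx
        rw [hf, hal i s hs, evl_apply]
        rw [Finset.sum_eq_single i]
        · dsimp only
          rw [Pi.single_eq_same, neg_add_cancel]
        · intro j _ hj
          dsimp only
          rw [Pi.single_eq_of_ne hj, zero_mul]
        · intro h; exact absurd (Finset.mem_univ _) h
      · obtain ⟨r, hr, rfl⟩ := Finset.mem_image.1 hx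
        have h1 : r ∈ LinearMap.ker (evl b) := by rw [← hT]; exact Submodule.subset_span hr
        rw [hf, map_zero, add_zero]
        exact h1
    · rintro ⟨a, c⟩ hx
      have hx0 : evl b a + evl tt c = 0 := hx
      have hc : ∀ i, c i ∈ IL ℤ (S i : Set G) := by
        apply star
        have h1 : ∑ i, c i * (MonoidAlgebra.of ℤ G (t i) - 1) = - evl b a := by
          rw [eq_neg_iff_add_eq_zero, add_comm, ← hx0, evl_apply tt]
        rw [h1, ← hb, ← range_evl]
        exact neg_mem ⟨a, rfl⟩
      have hsp : Submodule.span (ZG G) ((X1 ∪ X2 : Finset _) : Set ((Fin n → ZG G) × (Fin k → ZG G)))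
          ≤ LinearMap.ker f := by
        rw [Submodule.span_le]
        intro x hx
        show f x = 0
        rw [Finset.coe_union] at hx
        rcases hx with hx | hx
        · obtain ⟨i, _, hx⟩ := Finset.mem_biUnion.1 hx
          obtain ⟨s, hs, rfl⟩ := Finset.mem_image.1 hx
          rw [hf, hal i s hs, evl_apply]
          rw [Finset.sum_eq_single i]
          · dsimp only
            rw [Pi.single_eq_same, neg_add_cancel]
          · intro j _ hj
            dsimp only
            rw [Pi.single_eq_of_ne hj, zero_mul]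
          · intro h; exact absurd (Finset.mem_univ _) h
        · obtain ⟨r, hr, rfl⟩ := Finset.mem_image.1 hx
          have h1 : r ∈ LinearMap.ker (evl b) := by rw [← hT]; exact Submodule.subset_span hr
          rw [hf, map_zero, add_zero]
          exact h1
      -- lift each coordinate
      have hl : ∀ i, ∃ a' : Fin n → ZG G, (a', Pi.single i (c i)) ∈
          Submodule.span (ZG G) ((X1 ∪ X2 : Finset _) : Set ((Fin n → ZG G) × (Fin k → ZG G))) := by
        intro i
        have hi := hc i
        generalize c i = y at hi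
        unfold IL at hi
        induction hi using Submodule.span_induction with
        | mem y hy =>
          obtain ⟨s, hs, rfl⟩ := hy
          refine ⟨al i s, Submodule.subset_span ?_⟩
          rw [Finset.coe_union]
          left
          exact Finset.mem_biUnion.2 ⟨i, Finset.mem_univ _, Finset.mem_image.2 ⟨s, hs, rfl⟩⟩
        | zero => exact ⟨0, by rw [Pi.single_zero]; exact zero_mem _⟩
        | add x y _ _ hx hy =>
          obtain ⟨a1, h1⟩ := hx
          obtain ⟨a2, h2⟩ := hy
          refine ⟨a1 + a2, ?_⟩
          have := add_mem h1 h2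
          rwa [Prod.mk_add_mk, ← Pi.single_add] at this
        | smul d x _ hx =>
          obtain ⟨a1, h1⟩ := hx
          refine ⟨d • a1, ?_⟩
          have := Submodule.smul_mem _ d h1
          rwa [Prod.smul_mk, ← Pi.single_smul] at this
      choose a' ha' using hl
      have h1 : (∑ i, a' i, c) ∈
          Submodule.span (ZG G) ((X1 ∪ X2 : Finset _) : Set ((Fin n → ZG G) × (Fin k → ZG G))) := by
        have h2 := Submodule.sum_mem _ (fun i (_ : i ∈ Finset.univ) => ha' i)
        have h3 : ∑ i, (a' i, (Pi.single i (c i) : Fin k → ZG G)) = (∑ i, a' i, c) := by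
          apply Prod.ext
          · rw [Prod.fst_sum]
          · rw [Prod.snd_sum]
            exact Finset.univ_sum_single c
        rwa [h3] at h2
      have h2 : (a - ∑ i, a' i) ∈ LinearMap.ker (evl b) := by
        have h3 := hsp h1
        rw [LinearMap.mem_ker, hf] at h3
        rw [LinearMap.mem_ker, map_sub]
        have h4 : evl b a + evl tt c = evl b (∑ i, a' i) + evl tt c := by rw [hx0]; exact h3.symm
        rw [add_right_cancel h4, sub_self]
      have h3 : ((a - ∑ i, a' i, 0) : (Fin n → ZG G) × (Fin k → ZG G)) ∈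
          Submodule.span (ZG G) ((X1 ∪ X2 : Finset _) : Set ((Fin n → ZG G) × (Fin k → ZG G))) := by
        rw [← hT] at h2
        generalize (a - ∑ i, a' i) = y at h2
        induction h2 using Submodule.span_induction with
        | mem y hy =>
          apply Submodule.subset_span
          rw [Finset.coe_union]
          right
          exact Finset.mem_image.2 ⟨y, hy, rfl⟩
        | zero => exact zero_mem _
        | add x y _ _ hx hy =>
          have := add_mem hx hy
          rwa [Prod.mk_add_mk, add_zero] at this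
        | smul d x _ hx =>
          have := Submodule.smul_mem _ d hx
          rwa [Prod.smul_mk, smul_zero] at this
      have h4 := add_mem h3 h1
      rwa [Prod.mk_add_mk, sub_add_cancel, zero_add] at h4

/-- **Converse.** -/
theorem fg_of_fp (B : Finset G) (t : G) (S : Set G)
    (hS : ∀ s ∈ S, s ∈ Subgroup.closure (B : Set G) ∧ t * s = s * t)
    (star : ∀ c : ZG G, c * (MonoidAlgebra.of ℤ G t - 1) ∈ IL ℤ (B : Set G) → c ∈ IL ℤ S)
    (h : Module.FinitePresentation (ZG G) (IL ℤ ((B : Set G) ∪ {t}))) :
    ∃ S0 : Finset G, (S0 : Set G) ⊆ S ∧ S ⊆ Subgroup.closure (S0 : Set G) := by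
  classical
  let bb : B → ZG G := fun i => MonoidAlgebra.of ℤ G i.1 - 1
  let tt : ZG G := MonoidAlgebra.of ℤ G t - 1
  let f : ((B → ZG G) × ZG G) →ₗ[ZG G] ZG G :=
    LinearMap.coprod (Fintype.linearCombination (ZG G) bb) (LinearMap.toSpanSingleton _ _ tt)
  have hf : ∀ x, f x = ∑ i, x.1 i * bb i + x.2 * tt := by
    intro x
    show Fintype.linearCombination (ZG G) bb x.1 + _ = _
    rw [Fintype.linearCombination_apply]
    rfl
  have hB : ∀ y, y ∈ IL ℤ (B : Set G) ↔ ∃ a : B → ZG G, ∑ i, a i * bb i = y := by
    intro y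
    have h1 : IL ℤ (B : Set G) = LinearMap.range (Fintype.linearCombination (ZG G) bb) := by
      rw [Fintype.range_linearCombination]
      unfold IL
      congr 1
      ext z
      constructor
      · rintro ⟨s, hs, rfl⟩; exact ⟨⟨s, hs⟩, rfl⟩
      · rintro ⟨s, rfl⟩; exact ⟨s.1, s.2, rfl⟩
    rw [h1]
    constructor
    · rintro ⟨a, rfl⟩; exact ⟨a, by rw [Fintype.linearCombination_apply]; rfl⟩
    · rintro ⟨a, rfl⟩; exact ⟨a, by rw [Fintype.linearCombination_apply]; rfl⟩
  have hr : LinearMap.range f = IL ℤ ((B : Set G) ∪ {t}) := by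
    apply le_antisymm
    · rintro _ ⟨x, rfl⟩
      rw [hf]
      apply add_mem
      · refine Submodule.sum_mem _ fun i _ => ?_
        exact Submodule.smul_mem _ _ (Submodule.subset_span ⟨i.1, Or.inl i.2, rfl⟩)
      · exact Submodule.smul_mem _ _ (Submodule.subset_span ⟨t, Or.inr rfl, rfl⟩)
    · refine Submodule.span_le.2 ?_
      rintro _ ⟨x, hx | hx, rfl⟩
      · obtain ⟨a, ha⟩ := (hB (MonoidAlgebra.of ℤ G x - 1)).1 (Submodule.subset_span ⟨x, hx, rfl⟩)
        refine ⟨(a, 0), ?_⟩
        rw [hf]
        show ∑ i, a i * bb i + 0 * tt = _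
        rw [zero_mul, add_zero, ha]
      · have hx' : x = t := hx
        subst hx'
        refine ⟨(0, 1), ?_⟩
        rw [hf]
        show ∑ i, (0 : B → ZG G) i * bb i + 1 * tt = _
        simp [tt]
  have hker : (LinearMap.ker f).FG := by
    have h1 : Module.FinitePresentation (ZG G) (LinearMap.range f) := by rw [hr]; exact h
    have h2 := Module.FinitePresentation.fg_ker f.rangeRestrict f.surjective_rangeRestrict
    rwa [LinearMap.ker_rangeRestrict] at h2
  obtain ⟨T, hT⟩ := hker
  have hTS : ∀ x ∈ LinearMap.ker f, x.2 ∈ IL ℤ S := by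
    intro x hx
    rw [LinearMap.mem_ker, hf] at hx
    apply star
    rw [eq_neg_of_add_eq_zero_right hx]
    exact neg_mem ((hB _).2 ⟨x.1, rfl⟩)
  have hfin : ∀ x : (B → ZG G) × ZG G, ∃ T' : Finset G, (T' : Set G) ⊆ S ∧
      (x ∈ T → x.2 ∈ IL ℤ (T' : Set G)) := by
    intro x
    by_cases hx : x ∈ T
    · obtain ⟨T', h1, h2⟩ := IL_finite S x.2 (hTS x (by rw [← hT]; exact Submodule.subset_span hx))
      exact ⟨T', h1, fun _ => h2⟩
    · exact ⟨∅, by simp, fun h => absurd h hx⟩
  choose F hF1 hF2 using hfin
  refine ⟨T.biUnion F, ?_, ?_⟩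
  · intro x hx
    obtain ⟨y, _, hy⟩ := Finset.mem_biUnion.1 (Finset.mem_coe.1 hx)
    exact hF1 y hy
  · intro s hs
    apply mem_closure_of_sub
    have h1 : - ((MonoidAlgebra.of ℤ G s - 1) * tt) ∈ IL ℤ (B : Set G) := by
      rw [comm_sub (b := MonoidAlgebra.of ℤ G t)]
      · exact neg_mem (mul_of_sub_mem _ _ s (hS s hs).1)
      · rw [← map_mul, ← map_mul, (hS s hs).2]
    obtain ⟨a, ha⟩ := (hB _).1 h1
    have h2 : (a, MonoidAlgebra.of ℤ G s - 1) ∈ LinearMap.ker f := by
      rw [LinearMap.mem_ker, hf]
      show ∑ i, a i * bb i + (MonoidAlgebra.of ℤ G s - 1) * tt = 0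
      rw [ha, neg_add_cancel]
    rw [← hT] at h2
    have h3 : ∀ x ∈ Submodule.span (ZG G) (T : Set ((B → ZG G) × ZG G)),
        x.2 ∈ IL ℤ ((T.biUnion F : Finset G) : Set G) := by
      intro x hx
      induction hx using Submodule.span_induction with
      | mem x hx =>
        refine IL_le ℤ (fun z hz => Subgroup.subset_closure ?_) (hF2 x hx)
        exact Finset.mem_coe.2 (Finset.mem_biUnion.2 ⟨x, hx, hz⟩)
      | zero => exact zero_mem _
      | add x y _ _ hx hy => exact add_mem hx hy
      | smul d x _ hx => exact Submodule.smul_mem _ _ hx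
    exact h3 _ h2

end ext

end Pool.Agent.TH18
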