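import Pool.Agent.W379.Raag

/-! First letters of elements of a right-angled Artin group. -/

set_option autoImplicit false

namespace Pool.Agent.TH18

open Pool.Agent.W379 Pool.Agent.W379.RAAG

section
variable {W : Type} {Γ : SimpleGraph W}

/-- a letter -/
def lt1 (Γ : SimpleGraph W) (u : W) (s : Bool) : RAAG Γ := if s then gen Γ u else (gen Γ u)⁻¹

theorem lt1_not (u : W) (s : Bool) : lt1 Γ u (!s) = (lt1 Γ u s)⁻¹ := by
  cases s <;> simp [lt1]

open Classical in
/-- the set of possible first letters -/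
noncomputable def Fs (a : RAAG Γ) : Set W :=
  {v | ∃ s, (psi Γ v a).left.toWord.head? = some (QuotientGroup.mk 1, s)}

theorem Fs_one : Fs (1 : RAAG Γ) = ∅ := by
  classical
  ext v
  simp [Fs]

theorem psi_left_lt1 (v u : W) (h : u ≠ v) (s : Bool) : (psi Γ v (lt1 Γ u s)).left = 1 := by
  have h1 : (psi Γ v (gen Γ u)).left = 1 := by
    rw [psi_gen_ne Γ v h]; simp
  cases s
  · show (psi Γ v (gen Γ u)⁻¹).left = 1
    rw [map_inv, SemidirectProduct.inv_left, h1]
    simp
  · exact h1

theorem psi_left_mul (v : W) (a x : RAAG Γ) (hx : (psi Γ v x).left = 1) :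
    (psi Γ v (a * x)).left = (psi Γ v a).left := by
  rw [map_mul, SemidirectProduct.mul_left, hx, map_one, mul_one]

theorem mem_Fs_mul (v u : W) (h : u ≠ v) (a : RAAG Γ) (s : Bool) :
    v ∈ Fs (a * lt1 Γ u s) ↔ v ∈ Fs a := by
  classical
  unfold Fs
  rw [Set.mem_ofPred_eq, Set.mem_ofPred_eq, psi_left_mul v a _ (psi_left_lt1 v u h s)]

theorem psi_left_self (u : W) (a : RAAG Γ) (s : Bool) :
    (psi Γ u (a * lt1 Γ u s)).left = (psi Γ u a).left *
      FreeGroup.mk [((psi Γ u a).right • (QuotientGroup.mk 1 : Xk Γ u), s)] := by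
  classical
  cases s
  · show (psi Γ u (a * (gen Γ u)⁻¹)).left = _
    rw [map_mul, map_inv, psi_gen_self, SemidirectProduct.mul_left, ← map_inv,
      SemidirectProduct.left_inl]
    rfl
  · show (psi Γ u (a * (gen Γ u))).left = _
    rw [map_mul, psi_gen_self, SemidirectProduct.mul_left, SemidirectProduct.left_inl, fgAct_of]
    rfl

/-- the link -/
def lk (Γ : SimpleGraph W) (u : W) : Set W := {w | Γ.Adj u w}

theorem incl_Ck (u : W) (c : Ad Γ u) (hc : c ∈ Ck Γ u) : incl Γ _ c ∈ sp Γ (lk Γ u) := by
  change c ∈ sp (Γ.induce ({u}ᶜ : Set W)) (nb Γ u) at hc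
  rw [sp_eq_closure] at hc
  induction hc using Subgroup.closure_induction with
  | mem x hx =>
    obtain ⟨w, hw, rfl⟩ := hx
    rw [incl_gen]
    exact gen_mem_sp hw
  | one => rw [map_one]; exact one_mem _
  | mul x y _ _ hx hy => rw [map_mul]; exact mul_mem hx hy
  | inv x _ hx => rw [map_inv]; exact inv_mem hx

/-- if multiplication by `u^±` creates the first letter `u`, the element lies in the link. -/
theorem mem_link (u : W) (a : RAAG Γ) (s : Bool) (h1 : u ∈ Fs (a * lt1 Γ u s)) (h2 : u ∉ Fs a) :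
    a ∈ sp Γ (lk Γ u) := by
  classical
  obtain ⟨s', hs'⟩ := h1
  rw [psi_left_self] at hs'
  have hne : ∀ s, (psi Γ u a).left.toWord.head? ≠ some (QuotientGroup.mk 1, s) := by
    intro s hs
    exact h2 ⟨s, hs⟩
  generalize hw : (psi Γ u a).left = w at *
  generalize hy : (psi Γ u a).right • (QuotientGroup.mk 1 : Xk Γ u) = y at *
  have key : w = 1 ∧ y = QuotientGroup.mk 1 := by
    obtain ⟨p, q, c, e1, e2, e3⟩ := exists_split_word w (FreeGroup.mk [(y, s)])
    have e4 : (FreeGroup.mk [(y, s)]).toWord = [(y, s)] := by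
      rw [FreeGroup.toWord_mk, FreeGroup.reduce_singleton]
    rw [e4] at e2
    rw [e3] at hs'
    rcases List.eq_nil_or_concat c with rfl | ⟨c', t, rfl⟩
    · simp only [List.append_nil] at e1
      simp only [FreeGroup.invRev_empty, List.nil_append] at e2
      rcases p with _ | ⟨x, p⟩
      · rw [FreeGroup.toWord_eq_nil_iff] at e1
        refine ⟨e1, ?_⟩
        rw [← e2] at hs'
        simp at hs'
        exact hs'.1
      · exfalso
        apply hne s'
        rw [e1]
        simpa using hs'
    · exfalso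
      have hl := congrArg List.length e2
      rw [List.length_append, FreeGroup.invRev_length, List.concat_eq_append, List.length_append,
        List.length_singleton, List.length_singleton] at hl
      have hq : q = [] := by
        apply List.length_eq_zero_iff.1
        omega
      subst hq
      rw [List.append_nil] at hs'
      rcases p with _ | ⟨x, p⟩
      · simp at hs'
      · apply hne s'
        rw [e1]
        simpa using hs'
  obtain ⟨k1, k2⟩ := key
  have h3 : psi Γ u a = SemidirectProduct.inr (psi Γ u a).right := by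
    apply SemidirectProduct.ext
    · rw [hw, k1]; simp
    · simp
  have h4 : a = incl Γ _ (psi Γ u a).right := by
    rw [← psiInv_inr, ← h3, psiInv_psi]
  have h5 : (psi Γ u a).right ∈ Ck Γ u := by
    have h6 := hy.trans k2
    rw [MulAction.Quotient.smul_mk, smul_eq_mul, mul_one] at h6
    have h7 := QuotientGroup.eq.1 h6.symm
    simpa using h7
  rw [h4]
  exact incl_Ck u _ h5

theorem psi_left_sp (v : W) (S : Set W) (hv : v ∉ S) (a : RAAG Γ) (ha : a ∈ sp Γ S) :
    (psi Γ v a).left = 1 := by
  rw [sp_eq_closure] at ha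
  induction ha using Subgroup.closure_induction with
  | mem x hx =>
    obtain ⟨w, hw, rfl⟩ := hx
    have : w ≠ v := fun h => hv (h ▸ hw)
    exact psi_left_lt1 v w this true
  | one => rw [map_one]; rfl
  | mul x y _ _ hx hy => rw [psi_left_mul v x y hy, hx]
  | inv x _ hx =>
    rw [map_inv, SemidirectProduct.inv_left, hx]
    simp

theorem Fs_sp (S : Set W) (a : RAAG Γ) (ha : a ∈ sp Γ S) : Fs a ⊆ S := by
  classical
  intro v hv
  by_contra hvS
  obtain ⟨s, hs⟩ := hv
  rw [psi_left_sp v S hvS a ha] at hs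
  simp at hs

/-- the product of a word -/
def pr (Γ : SimpleGraph W) (l : List (W × Bool)) : RAAG Γ := (l.map (fun p => lt1 Γ p.1 p.2)).prod

theorem pr_append (l l' : List (W × Bool)) : pr Γ (l ++ l') = pr Γ l * pr Γ l' := by
  simp [pr]

theorem exists_pr (a : RAAG Γ) : ∃ l, pr Γ l = a := by
  have ha : a ∈ Subgroup.closure (Set.range (gen Γ)) := by rw [closure_gen]; trivial
  induction ha using Subgroup.closure_induction with
  | mem x hx =>
    obtain ⟨w, rfl⟩ := hx
    exact ⟨[(w, true)], by simp [pr, lt1]⟩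
  | one => exact ⟨[], rfl⟩
  | mul x y _ _ hx hy =>
    obtain ⟨l, rfl⟩ := hx
    obtain ⟨l', rfl⟩ := hy
    exact ⟨l ++ l', pr_append _ _⟩
  | inv x _ hx =>
    obtain ⟨l, rfl⟩ := hx
    refine ⟨(l.map (fun p => (p.1, !p.2))).reverse, ?_⟩
    unfold pr
    rw [List.map_reverse, List.map_map, List.prod_inv_reverse, List.map_map]
    congr 2
    apply List.map_congr_left
    intro p _
    exact lt1_not _ _

theorem rho_lt1_mem (S : Set W) (u : W) (h : u ∈ S) (s : Bool) : rho Γ S (lt1 Γ u s) = lt1 Γ u s := by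
  cases s
  · show rho Γ S (gen Γ u)⁻¹ = (gen Γ u)⁻¹
    rw [map_inv, rho_gen_mem S h]
  · exact rho_gen_mem S h

theorem rho_lt1_not_mem (S : Set W) (u : W) (h : u ∉ S) (s : Bool) : rho Γ S (lt1 Γ u s) = 1 := by
  cases s
  · show rho Γ S (gen Γ u)⁻¹ = 1
    rw [map_inv, rho_gen_not_mem S h, inv_one]
  · exact rho_gen_not_mem S h

open Classical in
theorem rho_pr (S : Set W) (l : List (W × Bool)) :
    rho Γ S (pr Γ l) = pr Γ (l.filter (fun p => p.1 ∈ S)) := by
  induction l with
  | nil => simp [pr]
  | cons p l ih =>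
    have h1 : pr Γ (p :: l) = lt1 Γ p.1 p.2 * pr Γ l := by simp [pr]
    rw [h1, map_mul, ih]
    by_cases hp : p.1 ∈ S
    · rw [rho_lt1_mem S _ hp, List.filter_cons_of_pos (by simpa using hp)]
      simp [pr]
    · rw [rho_lt1_not_mem S _ hp, List.filter_cons_of_neg (by simpa using hp), one_mul]

/-- being a clique -/
def IsCl (Γ : SimpleGraph W) (S : Set W) : Prop := ∀ x ∈ S, ∀ y ∈ S, x ≠ y → Γ.Adj x y

theorem Fs_cl (a : RAAG Γ) : IsCl Γ (Fs a) := by
  obtain ⟨l, rfl⟩ := exists_pr a
  induction l using List.reverseRecOn with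
  | nil =>
    have : pr Γ [] = 1 := rfl
    rw [this, Fs_one]
    intro x hx
    exact absurd hx (Set.notMem_empty _)
  | append_singleton l p ih =>
    obtain ⟨u, s⟩ := p
    have h1 : pr Γ (l ++ [(u, s)]) = pr Γ l * lt1 Γ u s := by
      rw [pr_append]; simp [pr]
    rw [h1]
    have hsub : ∀ x, x ∈ Fs (pr Γ l * lt1 Γ u s) → x ≠ u → x ∈ Fs (pr Γ l) := by
      intro x hx hxu
      exact (mem_Fs_mul x u (Ne.symm hxu) _ s).1 hx
    intro x hx y hy hxy
    by_cases hu : u ∈ Fs (pr Γ l)
    · have hx' : x ∈ Fs (pr Γ l) := by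
        by_cases h : x = u
        · rw [h]; exact hu
        · exact hsub x hx h
      have hy' : y ∈ Fs (pr Γ l) := by
        by_cases h : y = u
        · rw [h]; exact hu
        · exact hsub y hy h
      exact ih x hx' y hy' hxy
    · by_cases hxu : x = u
      · subst hxu
        have h2 := mem_link x _ s hx hu
        have h3 := Fs_sp _ _ h2 (hsub y hy (Ne.symm hxy))
        exact h3
      · by_cases hyu : y = u
        · subst hyu
          have h2 := mem_link y _ s hy hu
          have h3 := Fs_sp _ _ h2 (hsub x hx hxu)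
          exact SimpleGraph.Adj.symm h3
        · exact ih x (hsub x hx hxu) y (hsub y hy hyu) hxy

theorem mem_Fs_lt1 (u : W) (s : Bool) : u ∈ Fs (lt1 Γ u s) := by
  classical
  refine ⟨s, ?_⟩
  have h := psi_left_self (Γ := Γ) u 1 s
  rw [one_mul] at h
  rw [h, map_one]
  simp [FreeGroup.toWord_mk]

theorem mul_lt1_not (a : RAAG Γ) (u : W) (s : Bool) : a * lt1 Γ u s * lt1 Γ u (!s) = a := by
  rw [lt1_not]; group

theorem Fs_nonempty_aux : ∀ (n : ℕ) (l : List (W × Bool)), l.length ≤ n →
    Fs (pr Γ l) = ∅ → pr Γ l = 1 := by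
  classical
  intro n
  induction n with
  | zero =>
    intro l hl _
    have : l = [] := List.length_eq_zero_iff.1 (by omega)
    subst this
    rfl
  | succ n ih =>
    intro l hl hF
    rcases List.eq_nil_or_concat l with rfl | ⟨l', ⟨u, s⟩, rfl⟩
    · rfl
    · rw [List.concat_eq_append] at *
      have hl' : l'.length ≤ n := by simpa using hl
      have h1 : pr Γ (l' ++ [(u, s)]) = pr Γ l' * lt1 Γ u s := by
        rw [pr_append]; simp [pr]
      rw [h1] at hF ⊢
      by_cases hu : u ∈ Fs (pr Γ l')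
      · have h2 : pr Γ l' * lt1 Γ u s ∈ sp Γ (lk Γ u) := by
          apply mem_link u _ (!s)
          · rw [mul_lt1_not]; exact hu
          · rw [hF]; exact Set.notMem_empty _
        have h3 := (mem_sp_iff _ _).1 h2
        rw [map_mul, rho_lt1_not_mem (lk Γ u) u (fun h => Γ.loopless.irrefl u h), mul_one,
          rho_pr] at h3
        rw [← h3]
        apply ih
        · exact (List.length_filter_le _ _).trans hl'
        · rw [h3, hF]
      · exfalso
        have h2 : Fs (pr Γ l') = ∅ := by
          ext v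
          simp only [Set.mem_empty_iff_false, iff_false]
          intro hv
          have hvu : u ≠ v := fun h => hu (h ▸ hv)
          have := (mem_Fs_mul v u hvu _ s).2 hv
          rw [hF] at this
          exact this
        have h3 := ih l' hl' h2
        rw [h3, one_mul] at hF
        have h4 := mem_Fs_lt1 (Γ := Γ) u s
        rw [hF] at h4
        exact h4

theorem Fs_nonempty (a : RAAG Γ) (ha : a ≠ 1) : (Fs a).Nonempty := by
  obtain ⟨l, rfl⟩ := exists_pr a
  rw [Set.nonempty_iff_ne_empty]
  intro h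
  exact ha (Fs_nonempty_aux l.length l le_rfl h)

end

end Pool.Agent.TH18
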