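import Pool.Agent.TH18.FPExt
import Pool.Agent.W304.DU.RG

/-! The augmentation ideal of a free group is free. -/

set_option autoImplicit false

namespace Pool.Agent.TH18

open Pool.Agent.W326.DU (IL ZG)
open Pool.Agent.W304.DU.RG (A affine D D_mul_sub of_smul_of_smul)

/-- **Fox calculus.** -/
theorem fox {X : Type} [Fintype X] (c : X → ZG (FreeGroup X))
    (h : ∑ e, c e * (MonoidAlgebra.of ℤ (FreeGroup X) (FreeGroup.of e) - 1) = 0) (e : X) :
    c e = 0 := by
  classical
  let Q := ZG (FreeGroup X)
  let f : X → Equiv.Perm Q := fun w =>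
    if w = e then Equiv.addRight (1 : Q) * Pool.Agent.W304.DU.RG.A ℤ Q (FreeGroup.of w)
    else Pool.Agent.W304.DU.RG.A ℤ Q (FreeGroup.of w)
  let Ψ : FreeGroup X →* Equiv.Perm Q := FreeGroup.lift f
  have hΨ : ∀ w, Ψ (FreeGroup.of w) = f w := fun w => FreeGroup.lift_apply_of
  have haff := affine (R := ℤ) Ψ (Set.range FreeGroup.of) (FreeGroup.closure_range_of X) (by
    rintro _ ⟨w, rfl⟩ x
    rw [hΨ]
    by_cases hw : w = e
    · simp only [f, if_pos hw]
      show MonoidAlgebra.of ℤ (FreeGroup X) _ • x + 1 = MonoidAlgebra.of ℤ (FreeGroup X) _ • x +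
        (MonoidAlgebra.of ℤ (FreeGroup X) _ • (0 : Q) + 1)
      rw [smul_zero, zero_add]
    · simp only [f, if_neg hw]
      show MonoidAlgebra.of ℤ (FreeGroup X) _ • x = MonoidAlgebra.of ℤ (FreeGroup X) _ • x +
        (MonoidAlgebra.of ℤ (FreeGroup X) _ • (0 : Q))
      rw [smul_zero, add_zero])
  let δ : FreeGroup X → Q := fun g => Ψ g 0
  have hδ : ∀ g h, δ (g * h) = δ g + MonoidAlgebra.of ℤ (FreeGroup X) g • δ h := by
    intro g h
    show Ψ (g * h) 0 = Ψ g 0 + MonoidAlgebra.of ℤ (FreeGroup X) g • Ψ h 0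
    rw [map_mul, Equiv.Perm.mul_apply, haff g (Ψ h 0), add_comm]
  have hδw : ∀ w, δ (FreeGroup.of w) = if w = e then 1 else 0 := by
    intro w
    show Ψ (FreeGroup.of w) 0 = _
    rw [hΨ]
    by_cases hw : w = e
    · simp only [f, if_pos hw]
      show MonoidAlgebra.of ℤ (FreeGroup X) _ • (0 : Q) + 1 = _
      rw [smul_zero, zero_add]
    · simp only [f, if_neg hw]
      show MonoidAlgebra.of ℤ (FreeGroup X) _ • (0 : Q) = 0
      exact smul_zero _
  have h1 := congrArg (D δ) h
  rw [map_sum, map_zero] at h1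
  simp only [D_mul_sub δ hδ, hδw] at h1
  simpa using h1

/-- the augmentation ideal of a free group of finite rank is finitely presented -/
theorem free_fp {X : Type} [Fintype X] :
    Module.FinitePresentation (ZG (FreeGroup X)) (IL ℤ (Set.univ : Set (FreeGroup X))) := by
  classical
  let f : (X → ZG (FreeGroup X)) →ₗ[ZG (FreeGroup X)] ZG (FreeGroup X) :=
    Fintype.linearCombination _ (fun e => MonoidAlgebra.of ℤ (FreeGroup X) (FreeGroup.of e) - 1)
  refine pres_of f _ ?_ ?_
  · show LinearMap.range (Fintype.linearCombination _ _) = _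
    rw [Fintype.range_linearCombination]
    have h1 : IL ℤ (Set.univ : Set (FreeGroup X)) = IL ℤ (Set.range FreeGroup.of) := by
      apply IL_eq_of_closure
      rw [FreeGroup.closure_range_of]
      exact Subgroup.closure_univ
    rw [h1]
    unfold IL
    rw [← Set.range_comp]
    rfl
  · have : LinearMap.ker f = ⊥ := by
      rw [Submodule.eq_bot_iff]
      intro c hc
      funext e
      apply fox c _ e
      have h1 : f c = 0 := hc
      have h2 : f c = ∑ e, c e * (MonoidAlgebra.of ℤ (FreeGroup X) (FreeGroup.of e) - 1) := by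
        show Fintype.linearCombination _ _ c = _
        rw [Fintype.linearCombination_apply]
        rfl
      rw [← h2, h1]
    rw [this]
    exact Submodule.fg_bot

end Pool.Agent.TH18
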