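import Pool.Agent.TH18.Kos

/-! Height filtration on the Koszul complex. -/

set_option autoImplicit false

namespace Pool.Agent.TH18

open Pool.Agent.W326.DU (IL ZG Reg Im rm IsAlt2 IsAlt3)

/-- group elements in the group ring -/
noncomputable abbrev oA (a : A) : ZG A := MonoidAlgebra.of ℤ A a

theorem coeff_mul_oA (x : ZG A) (b a : A) : (x * oA b).coeff a = x.coeff (a * b⁻¹) := by
  rw [oA, MonoidAlgebra.of_apply, MonoidAlgebra.coeff_mul_single_apply, mul_one]

/-- height bounded above -/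
def Hle (N : ℤ) (x : ZG A) : Prop := ∀ a, x.coeff a ≠ 0 → ht a ≤ N
/-- height bounded below -/
def Hge (m : ℤ) (x : ZG A) : Prop := ∀ a, x.coeff a ≠ 0 → m ≤ ht a

open Classical in
/-- projection to height `n` -/
noncomputable def pr' (n : ℤ) : ZG A →+ ZG A where
  toFun x := .ofCoeff (x.coeff.filter (fun a => ht a = n))
  map_zero' := by
    rw [MonoidAlgebra.coeff_zero, Finsupp.filter_zero]; rfl
  map_add' x y := by
    apply MonoidAlgebra.ext
    rw [MonoidAlgebra.coeff_add, MonoidAlgebra.coeff_ofCoeff, MonoidAlgebra.coeff_ofCoeff,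
      MonoidAlgebra.coeff_ofCoeff, MonoidAlgebra.coeff_add, Finsupp.filter_add]

open Classical in
theorem coeff_pr (n : ℤ) (x : ZG A) (a : A) :
    (pr' n x).coeff a = if ht a = n then x.coeff a else 0 := by
  show (MonoidAlgebra.ofCoeff (x.coeff.filter (fun a => ht a = n)) : ZG A).coeff a = _
  rw [MonoidAlgebra.coeff_ofCoeff, Finsupp.filter_apply]

theorem Hle.add {N : ℤ} {x y : ZG A} (hx : Hle N x) (hy : Hle N y) : Hle N (x + y) := by
  intro a ha
  rw [MonoidAlgebra.coeff_add, Finsupp.add_apply] at ha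
  by_cases h : x.coeff a = 0
  · exact hy a (fun h2 => ha (by rw [h, h2, add_zero]))
  · exact hx a h

theorem Hle.neg {N : ℤ} {x : ZG A} (hx : Hle N x) : Hle N (-x) := by
  intro a ha
  apply hx
  intro h
  apply ha
  show (-x).coeff a = 0
  have : (-x).coeff = - x.coeff := rfl
  rw [this, Finsupp.neg_apply, h, neg_zero]

theorem Hle.sub {N : ℤ} {x y : ZG A} (hx : Hle N x) (hy : Hle N y) : Hle N (x - y) := by
  rw [sub_eq_add_neg]; exact hx.add hy.neg

theorem Hle.zero (N : ℤ) : Hle N 0 := fun _ ha => absurd rfl ha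

theorem Hle.sum {ι : Type} {N : ℤ} (s : Finset ι) (f : ι → ZG A) (h : ∀ i ∈ s, Hle N (f i)) :
    Hle N (∑ i ∈ s, f i) := by
  classical
  induction s using Finset.induction_on with
  | empty => exact Hle.zero N
  | insert i s hi ih =>
    rw [Finset.sum_insert hi]
    exact (h i (Finset.mem_insert_self _ _)).add (ih fun j hj => h j (Finset.mem_insert_of_mem hj))

theorem Hle.mono {N N' : ℤ} (hN : N ≤ N') {x : ZG A} (hx : Hle N x) : Hle N' x :=
  fun a ha => (hx a ha).trans hN

theorem Hle.mul {N : ℤ} {x : ZG A} (hx : Hle N x) (b : A) : Hle (N + ht b) (x * oA b) := by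
  intro a ha
  rw [coeff_mul_oA] at ha
  have := hx _ ha
  rw [ht_mul, ht_inv] at this
  omega

theorem Hge.add {N : ℤ} {x y : ZG A} (hx : Hge N x) (hy : Hge N y) : Hge N (x + y) := by
  intro a ha
  rw [MonoidAlgebra.coeff_add, Finsupp.add_apply] at ha
  by_cases h : x.coeff a = 0
  · exact hy a (fun h2 => ha (by rw [h, h2, add_zero]))
  · exact hx a h

theorem Hge.neg {N : ℤ} {x : ZG A} (hx : Hge N x) : Hge N (-x) := by
  intro a ha
  apply hx
  intro h
  apply ha
  show (-x).coeff a = 0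
  have : (-x).coeff = - x.coeff := rfl
  rw [this, Finsupp.neg_apply, h, neg_zero]

theorem Hge.sub {N : ℤ} {x y : ZG A} (hx : Hge N x) (hy : Hge N y) : Hge N (x - y) := by
  rw [sub_eq_add_neg]; exact hx.add hy.neg

theorem Hge.zero (N : ℤ) : Hge N 0 := fun _ ha => absurd rfl ha

theorem Hge.sum {ι : Type} {N : ℤ} (s : Finset ι) (f : ι → ZG A) (h : ∀ i ∈ s, Hge N (f i)) :
    Hge N (∑ i ∈ s, f i) := by
  classical
  induction s using Finset.induction_on with
  | empty => exact Hge.zero N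
  | insert i s hi ih =>
    rw [Finset.sum_insert hi]
    exact (h i (Finset.mem_insert_self _ _)).add (ih fun j hj => h j (Finset.mem_insert_of_mem hj))

theorem Hge.mono {N N' : ℤ} (hN : N' ≤ N) {x : ZG A} (hx : Hge N x) : Hge N' x :=
  fun a ha => hN.trans (hx a ha)

theorem Hge.mul {N : ℤ} {x : ZG A} (hx : Hge N x) (b : A) : Hge (N + ht b) (x * oA b) := by
  intro a ha
  rw [coeff_mul_oA] at ha
  have := hx _ ha
  rw [ht_mul, ht_inv] at this
  omega

/-- every element has bounded height -/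
theorem exists_bound (x : ZG A) : ∃ n : ℕ, Hle n x ∧ Hge (-(n : ℤ)) x := by
  classical
  refine ⟨∑ a ∈ x.coeff.support, (ht a).natAbs, fun a ha => ?_, fun a ha => ?_⟩
  · have h1 : (ht a).natAbs ≤ ∑ a ∈ x.coeff.support, (ht a).natAbs :=
      Finset.single_le_sum (f := fun a => (ht a).natAbs) (fun _ _ => Nat.zero_le _)
        (Finsupp.mem_support_iff.2 ha)
    have h2 : ((ht a).natAbs : ℤ) ≤ ((∑ a ∈ x.coeff.support, (ht a).natAbs : ℕ) : ℤ) := by
      exact_mod_cast h1
    omega
  · have h1 : (ht a).natAbs ≤ ∑ a ∈ x.coeff.support, (ht a).natAbs :=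
      Finset.single_le_sum (f := fun a => (ht a).natAbs) (fun _ _ => Nat.zero_le _)
        (Finsupp.mem_support_iff.2 ha)
    have h2 : ((ht a).natAbs : ℤ) ≤ ((∑ a ∈ x.coeff.support, (ht a).natAbs : ℕ) : ℤ) := by
      exact_mod_cast h1
    omega

theorem pr_zero_of_le {N n : ℤ} (h : N < n) {x : ZG A} (hx : Hle N x) : pr' n x = 0 := by
  classical
  apply MonoidAlgebra.ext
  ext a
  rw [coeff_pr]
  split_ifs with h1
  · by_contra h2
    have := hx a h2
    omega
  · rfl

theorem pr_zero_of_ge {m n : ℤ} (h : n < m) {x : ZG A} (hx : Hge m x) : pr' n x = 0 := by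
  classical
  apply MonoidAlgebra.ext
  ext a
  rw [coeff_pr]
  split_ifs with h1
  · by_contra h2
    have := hx a h2
    omega
  · rfl

theorem pr_mul (n : ℤ) (x : ZG A) (b : A) : pr' (n + ht b) (x * oA b) = pr' n x * oA b := by
  classical
  apply MonoidAlgebra.ext
  ext a
  rw [coeff_pr, coeff_mul_oA, coeff_mul_oA, coeff_pr, ht_mul, ht_inv]
  by_cases h : ht a = n + ht b
  · rw [if_pos h, if_pos (by omega)]
  · rw [if_neg h, if_neg (by omega)]

theorem Hle_sub_pr {N : ℤ} {x : ZG A} (hx : Hle N x) : Hle (N - 1) (x - pr' N x) := by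
  classical
  intro a ha
  have h1 : (x - pr' N x).coeff a = x.coeff a - (pr' N x).coeff a := rfl
  rw [h1, coeff_pr] at ha
  by_cases h : ht a = N
  · rw [if_pos h, sub_self] at ha; exact absurd rfl ha
  · rw [if_neg h, sub_zero] at ha
    have := hx a ha
    omega

theorem Hge_sub_pr_le {N m : ℤ} {x : ZG A} (hx : Hge m x) : Hge m (x - pr' N x) := by
  classical
  intro a ha
  have h1 : (x - pr' N x).coeff a = x.coeff a - (pr' N x).coeff a := rfl
  rw [h1, coeff_pr] at ha
  by_cases h : ht a = N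
  · rw [if_pos h, sub_self] at ha; exact absurd rfl ha
  · rw [if_neg h, sub_zero] at ha
    exact hx a ha

theorem Hge_sub_pr {N : ℤ} {x : ZG A} (hx : Hge N x) : Hge (N + 1) (x - pr' N x) := by
  classical
  intro a ha
  have h1 : (x - pr' N x).coeff a = x.coeff a - (pr' N x).coeff a := rfl
  rw [h1, coeff_pr] at ha
  by_cases h : ht a = N
  · rw [if_pos h, sub_self] at ha; exact absurd rfl ha
  · rw [if_neg h, sub_zero] at ha
    have := hx a ha
    omega

theorem Hle_sub_pr_le {N m : ℤ} {x : ZG A} (hx : Hle m x) : Hle m (x - pr' N x) := by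
  classical
  intro a ha
  have h1 : (x - pr' N x).coeff a = x.coeff a - (pr' N x).coeff a := rfl
  rw [h1, coeff_pr] at ha
  by_cases h : ht a = N
  · rw [if_pos h, sub_self] at ha; exact absurd rfl ha
  · rw [if_neg h, sub_zero] at ha
    exact hx a ha

/-- homogeneous elements -/
def Mh (n : ℤ) : AddSubgroup (ZG A) where
  carrier := {x | Hle n x ∧ Hge n x}
  zero_mem' := ⟨Hle.zero n, Hge.zero n⟩
  add_mem' := fun hx hy => ⟨hx.1.add hy.1, hx.2.add hy.2⟩
  neg_mem' := fun hx => ⟨hx.1.neg, hx.2.neg⟩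

theorem pr_mem (n : ℤ) (x : ZG A) : pr' n x ∈ Mh n := by
  classical
  constructor
  · intro a ha
    rw [coeff_pr] at ha
    by_contra h
    rw [if_neg (by omega)] at ha
    exact ha rfl
  · intro a ha
    rw [coeff_pr] at ha
    by_contra h
    rw [if_neg (by omega)] at ha
    exact ha rfl

theorem mul_mem_Mh {n k : ℤ} {x : ZG A} (hx : x ∈ Mh n) (b : A) (h : n + ht b = k) :
    x * oA b ∈ Mh k := by
  subst h
  exact ⟨hx.1.mul b, hx.2.mul b⟩

end Pool.Agent.TH18
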