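import Pool.Agent.W326.DU.Aug
import Pool.Agent.W490.DU.Grp
import Pool.Agent.W571.DU.BC

/-! Left ideals of integral group rings generated by elements `s - 1`. -/

set_option autoImplicit false

namespace Pool.Agent.TH18

open Pool.Agent.W326.DU (IL ZG)
open Pool.Agent.W490.DU (of_sub_mem_IL IL_le)

section push
variable {P G : Type} [Group P] [Group G] (p : P →* G)

/-- the induced map of group rings -/
noncomputable def push : ZG P →+* ZG G := MonoidAlgebra.mapDomainRingHom ℤ p

theorem push_of (x : P) : push p (MonoidAlgebra.of ℤ P x) = MonoidAlgebra.of ℤ G (p x) := by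
  simp [push, MonoidAlgebra.of_apply]

theorem push_IL (S : Set P) (x : ZG P) (hx : x ∈ IL ℤ S) : push p x ∈ IL ℤ (p '' S) := by
  unfold IL at hx
  induction hx using Submodule.span_induction with
  | mem x hx =>
    obtain ⟨s, hs, rfl⟩ := hx
    rw [map_sub, map_one, push_of]
    exact Submodule.subset_span ⟨p s, ⟨s, hs, rfl⟩, rfl⟩
  | zero => rw [map_zero]; exact Submodule.zero_mem _
  | add x y _ _ hx hy => rw [map_add]; exact Submodule.add_mem _ hx hy
  | smul b x _ hx => rw [smul_eq_mul, map_mul]; exact Submodule.smul_mem _ _ hx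

open Classical in
/-- a section of `p` on its range -/
noncomputable def sec (x : G) : P := if h : ∃ y, p y = x then h.choose else 1

theorem p_sec (y : P) : p (sec p (p y)) = p y := by
  classical
  have h : ∃ z, p z = p y := ⟨y, rfl⟩
  unfold sec
  rw [dif_pos h]
  exact h.choose_spec

/-- additive section -/
noncomputable def tau : ZG G →+ ZG P :=
  { toFun := MonoidAlgebra.mapDomain (sec p)
    map_zero' := by simp
    map_add' := MonoidAlgebra.mapDomain_add _ }

theorem tau_of (x : G) : tau p (MonoidAlgebra.of ℤ G x) = MonoidAlgebra.of ℤ P (sec p x) := by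
  show MonoidAlgebra.mapDomain (sec p) (MonoidAlgebra.single x 1) = MonoidAlgebra.single _ 1
  rw [MonoidAlgebra.mapDomain_single]

theorem sub_tau (x : ZG P) : x - tau p (push p x) ∈ IL ℤ (p.ker : Set P) := by
  induction x using MonoidAlgebra.induction_on with
  | of y =>
    rw [push_of, tau_of]
    have h1 : MonoidAlgebra.of ℤ P y - MonoidAlgebra.of ℤ P (sec p (p y)) =
        MonoidAlgebra.of ℤ P (sec p (p y)) •
          (MonoidAlgebra.of ℤ P ((sec p (p y))⁻¹ * y) - 1) := by
      rw [smul_eq_mul, mul_sub, ← map_mul, mul_inv_cancel_left, mul_one]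
    rw [h1]
    apply Submodule.smul_mem
    apply Submodule.subset_span
    refine ⟨_, ?_, rfl⟩
    show p _ = 1
    rw [map_mul, map_inv, p_sec, inv_mul_cancel]
  | add a b ha hb =>
    have : a + b - tau p (push p (a + b)) =
        (a - tau p (push p a)) + (b - tau p (push p b)) := by
      rw [map_add, map_add]; abel
    rw [this]; exact add_mem ha hb
  | smul r a ha =>
    have : r • a - tau p (push p (r • a)) = r • (a - tau p (push p a)) := by
      rw [map_zsmul, map_zsmul, smul_sub]
    rw [this]; exact zsmul_mem ha r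

theorem ker_push (x : ZG P) (hx : push p x = 0) : x ∈ IL ℤ (p.ker : Set P) := by
  have := sub_tau p x
  rwa [hx, map_zero, sub_zero] at this

theorem push_surj (hp : Function.Surjective p) : Function.Surjective (push p) := by
  intro y
  induction y using MonoidAlgebra.induction_on with
  | of y => obtain ⟨x, rfl⟩ := hp y; exact ⟨_, push_of p x⟩
  | add a b ha hb =>
    obtain ⟨x, rfl⟩ := ha
    obtain ⟨y, rfl⟩ := hb
    exact ⟨x + y, map_add _ _ _⟩
  | smul r a ha =>
    obtain ⟨x, rfl⟩ := ha
    exact ⟨r • x, map_zsmul _ _ _⟩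

/-- lifting membership along a surjection -/
theorem lift_IL (hp : Function.Surjective p) (L : Set G) (L' : Set P)
    (h1 : ∀ l ∈ L, ∃ l' ∈ L', p l' = l) (h2 : (p.ker : Set P) ⊆ Subgroup.closure L')
    (c : ZG P) (hc : push p c ∈ IL ℤ L) : c ∈ IL ℤ L' := by
  have key : ∀ y ∈ IL ℤ L, ∃ c' ∈ IL ℤ L', push p c' = y := by
    intro y hy
    unfold IL at hy
    induction hy using Submodule.span_induction with
    | mem x hx =>
      obtain ⟨s, hs, rfl⟩ := hx
      obtain ⟨s', hs', rfl⟩ := h1 s hs
      refine ⟨MonoidAlgebra.of ℤ P s' - 1, Submodule.subset_span ⟨s', hs', rfl⟩, ?_⟩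
      rw [map_sub, map_one, push_of]
    | zero => exact ⟨0, Submodule.zero_mem _, map_zero _⟩
    | add x y _ _ hx hy =>
      obtain ⟨a, ha, rfl⟩ := hx
      obtain ⟨b, hb, rfl⟩ := hy
      exact ⟨a + b, Submodule.add_mem _ ha hb, map_add _ _ _⟩
    | smul b x _ hx =>
      obtain ⟨a, ha, rfl⟩ := hx
      obtain ⟨b', rfl⟩ := push_surj p hp b
      exact ⟨b' • a, Submodule.smul_mem _ _ ha, by rw [smul_eq_mul, map_mul, smul_eq_mul]⟩
  obtain ⟨c', hc', he⟩ := key _ hc
  have h3 : push p (c - c') = 0 := by rw [map_sub, he, sub_self]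
  have h4 := IL_le ℤ h2 (ker_push p _ h3)
  have h5 := add_mem h4 hc'
  rwa [sub_add_cancel] at h5

end push

section closure
variable {G : Type} [Group G]

/-- `s - 1 ∈ IL S` implies `s` in the subgroup generated by `S` -/
theorem mem_closure_of_sub (S : Set G) (x : G) (hx : MonoidAlgebra.of ℤ G x - 1 ∈ IL ℤ S) :
    x ∈ Subgroup.closure S := by
  classical
  let f : MonoidAlgebra ℤ G →+ ((G ⧸ Subgroup.closure S) →₀ ℤ) :=
    (Finsupp.mapDomain.addMonoidHom (QuotientGroup.mk : G → G ⧸ Subgroup.closure S)).comp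
      MonoidAlgebra.coeffAddEquiv.toAddMonoidHom
  have hf : ∀ (a : G) (r : ℤ), f (MonoidAlgebra.single a r) = Finsupp.single (QuotientGroup.mk a) r := by
    intro a r
    show Finsupp.mapDomain _ (MonoidAlgebra.single a r : MonoidAlgebra ℤ G).coeff = _
    rw [MonoidAlgebra.coeff_single, Finsupp.mapDomain_single]
  have hmul : ∀ (y : MonoidAlgebra ℤ G) (s : G), s ∈ Subgroup.closure S →
      f (y * (MonoidAlgebra.of ℤ G s - 1)) = 0 := by
    intro y s hs
    induction y using MonoidAlgebra.induction_on with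
    | of a =>
      rw [mul_sub, mul_one, ← map_mul, map_sub, MonoidAlgebra.of_apply, MonoidAlgebra.of_apply, hf, hf]
      have : (QuotientGroup.mk (a * s) : G ⧸ Subgroup.closure S) = QuotientGroup.mk a := by
        rw [QuotientGroup.eq]
        have : (a * s)⁻¹ * a = s⁻¹ := by group
        rw [this]; exact inv_mem hs
      rw [this, sub_self]
    | add a b ha hb => rw [add_mul, map_add, ha, hb, add_zero]
    | smul r a ha => rw [smul_mul_assoc, map_zsmul, ha, smul_zero]
  have hIL : ∀ y ∈ IL ℤ S, ∀ a : MonoidAlgebra ℤ G, f (a * y) = 0 := by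
    intro y hy
    unfold IL at hy
    induction hy using Submodule.span_induction with
    | mem y hy =>
      obtain ⟨s, hs, rfl⟩ := hy
      intro a
      exact hmul a s (Subgroup.subset_closure hs)
    | zero => intro a; rw [mul_zero, map_zero]
    | add x y _ _ hx hy => intro a; rw [mul_add, map_add, hx, hy, add_zero]
    | smul b x _ hx => intro a; rw [smul_eq_mul, ← mul_assoc]; exact hx _
  have h1 := hIL _ hx 1
  rw [one_mul, map_sub, sub_eq_zero, MonoidAlgebra.of_apply, MonoidAlgebra.one_def, hf, hf] at h1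
  have h2 := Finsupp.single_left_injective (one_ne_zero : (1 : ℤ) ≠ 0) h1
  have h3 := QuotientGroup.eq.1 h2.symm
  simpa using h3

/-- finite character -/
theorem IL_finite (S : Set G) (x : ZG G) (hx : x ∈ IL ℤ S) :
    ∃ T : Finset G, (T : Set G) ⊆ S ∧ x ∈ IL ℤ (T : Set G) := by
  classical
  unfold IL at hx
  induction hx using Submodule.span_induction with
  | mem x hx =>
    obtain ⟨s, hs, rfl⟩ := hx
    exact ⟨{s}, by simpa using hs, Submodule.subset_span ⟨s, by simp, rfl⟩⟩
  | zero => exact ⟨∅, by simp, Submodule.zero_mem _⟩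
  | add x y _ _ hx hy =>
    obtain ⟨T, hT, hx⟩ := hx
    obtain ⟨T', hT', hy⟩ := hy
    refine ⟨T ∪ T', by simp [hT, hT'], Submodule.add_mem _ ?_ ?_⟩
    · exact IL_le ℤ (fun z hz => Subgroup.subset_closure (by simp; left; exact_mod_cast hz)) hx
    · exact IL_le ℤ (fun z hz => Subgroup.subset_closure (by simp; right; exact_mod_cast hz)) hy
  | smul b x _ hx =>
    obtain ⟨T, hT, hx⟩ := hx
    exact ⟨T, hT, Submodule.smul_mem _ _ hx⟩

theorem IL_eq_of_closure (S T : Set G) (h : Subgroup.closure S = Subgroup.closure T) :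
    IL ℤ S = IL ℤ T := by
  apply le_antisymm
  · exact IL_le ℤ (fun x hx => h ▸ Subgroup.subset_closure hx)
  · exact IL_le ℤ (fun x hx => h.symm ▸ Subgroup.subset_closure hx)

theorem mul_of_sub_mem (S : Set G) (a : ZG G) (s : G) (hs : s ∈ Subgroup.closure S) :
    a * (MonoidAlgebra.of ℤ G s - 1) ∈ IL ℤ S :=
  Submodule.smul_mem _ a (of_sub_mem_IL ℤ hs)

end closure

end Pool.Agent.TH18
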