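import Pool.Agent.TH18.Surj
import Pool.Agent.TH18.Ideal
import Pool.Agent.W304.DU.EX
import Pool.Agent.W304.DU.RG
import Pool.Agent.W326.DU.Sub

/-! Exactness of the Koszul type complex of the right-angled Artin group. -/

set_option autoImplicit false

namespace Pool.Agent.TH18

open Pool.Agent.W326.DU (IL ZG Reg Im rm IsAlt2 IsAlt3 StarP rels gen)
open Pool.Agent.W490.DU (of_sub_mem_IL IL_le comm_sub_one)
open Pool.Agent.W379 (raagRels)

theorem rels_eq : raagRels Gr = rels ad := rfl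

theorem gen_eq (v : V) : (gen ad v : Pool.Agent.W326.DU.RAAG ad) = (g v : A) := rfl

/-- right multiplication by `g v - 1` -/
noncomputable def Rr (v : V) : ZG A →+ ZG A := rm ℤ (MonoidAlgebra.of ℤ A (g v) - 1)

theorem Rr_apply (v : V) (x : ZG A) : Rr v x = x * MonoidAlgebra.of ℤ A (g v) - x := by
  show x * (MonoidAlgebra.of ℤ A (g v) - 1) = _
  rw [mul_sub, mul_one]

theorem mem_Im_iff' (S : Set V) (x : ZG A) : x ∈ Im Rr S ↔ x ∈ IL ℤ (g '' S) := by
  constructor
  · intro h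
    have hle : Im Rr S ≤ (IL ℤ (g '' S)).toAddSubgroup := by
      refine iSup_le fun v => iSup_le fun hv => ?_
      rintro _ ⟨z, rfl⟩
      change z * (MonoidAlgebra.of ℤ A (g v) - 1) ∈ IL ℤ (g '' S)
      exact Submodule.smul_mem _ z (Submodule.subset_span ⟨g v, ⟨v, hv, rfl⟩, rfl⟩)
    exact hle h
  · intro h
    refine Submodule.span_induction (p := fun x _ => x ∈ Im Rr S) ?_ ?_ ?_ ?_ h
    · rintro _ ⟨_, ⟨v, hv, rfl⟩, rfl⟩
      have h1 := Pool.Agent.W304.DU.range_mem_Im Rr S v hv 1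
      have h2 : Rr v 1 = MonoidAlgebra.of ℤ A (g v) - 1 := by
        rw [Rr_apply, one_mul]
      rw [h2] at h1
      exact h1
    · exact zero_mem _
    · intro x y _ _ hx hy
      exact add_mem hx hy
    · intro a x _ hx
      have hle : (Im Rr S).map (AddMonoidHom.mulLeft a) ≤ Im Rr S := by
        unfold Im
        rw [AddSubgroup.map_iSup]
        refine iSup_le fun v => ?_
        rw [AddSubgroup.map_iSup]
        refine iSup_le fun hv => ?_
        refine le_trans ?_ (le_iSup_of_le v (le_iSup_of_le hv le_rfl))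
        rintro _ ⟨_, ⟨z, rfl⟩, rfl⟩
        refine ⟨a * z, ?_⟩
        change (a * z) * (MonoidAlgebra.of ℤ A (g v) - 1)
          = a * (z * (MonoidAlgebra.of ℤ A (g v) - 1))
        rw [mul_assoc]
      exact hle ⟨x, hx, rfl⟩

theorem reg : Reg ad Rr := by
  constructor
  · intro a b hab x
    change x * (MonoidAlgebra.of ℤ A (g b) - 1) * (MonoidAlgebra.of ℤ A (g a) - 1)
      = x * (MonoidAlgebra.of ℤ A (g a) - 1) * (MonoidAlgebra.of ℤ A (g b) - 1)
    have hc : MonoidAlgebra.of ℤ A (g b) * MonoidAlgebra.of ℤ A (g a)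
        = MonoidAlgebra.of ℤ A (g a) * MonoidAlgebra.of ℤ A (g b) := by
      rw [← map_mul, ← map_mul, (g_comm hab).eq]
    rw [mul_assoc, mul_assoc, comm_sub_one hc]
  · intro S v hv x hx
    rw [mem_Im_iff'] at hx ⊢
    let W' : Type := {w : V // w ∈ S ∨ w = v}
    let ad' : W' → W' → Prop := fun a b => ad a.1 b.1
    obtain ⟨F, hF, hFi⟩ := Pool.Agent.W326.DU.sub_th V W' ad ad' (fun w => w.1)
      Subtype.val_injective (fun a b => Iff.rfl)
    let ι : Pool.Agent.W326.DU.RAAG ad' →* A := F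
    have hι : Function.Injective ι := hFi
    have hιg : ∀ w : W', ι (gen ad' w) = g w.1 := by
      intro w
      change F (gen ad' w) = _
      rw [hF]
      exact gen_eq _
    let v' : W' := ⟨v, Or.inr rfl⟩
    have hst := Pool.Agent.W571.DU.BC.th ℤ (Pool.Agent.W326.DU.RAAG ad') A ι hι _ _ _
      (Pool.Agent.W304.DU.RG.th ℤ W' ad' (fun a b h => ad_symm _ _ h) (fun a h => ad_irrefl _ h) v')
    have e1 : ι '' (gen ad' '' {w | w ≠ v'}) = g '' S := by
      ext x
      constructor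
      · rintro ⟨_, ⟨w, hw, rfl⟩, rfl⟩
        refine ⟨w.1, ?_, (hιg w).symm⟩
        rcases w.2 with h | h
        · exact h
        · exact absurd (Subtype.ext h) hw
      · rintro ⟨w, hw, rfl⟩
        refine ⟨_, ⟨⟨w, Or.inl hw⟩, ?_, rfl⟩, hιg _⟩
        intro h
        have : w = v := congrArg Subtype.val h
        exact hv (this ▸ hw)
    have e2 : ι '' (gen ad' '' {w | ad' w v'}) = g '' {w | w ∈ S ∧ ad w v} := by
      ext x
      constructor
      · rintro ⟨_, ⟨w, hw, rfl⟩, rfl⟩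
        have hw' : ad w.1 v := hw
        refine ⟨w.1, ⟨?_, hw'⟩, (hιg w).symm⟩
        rcases w.2 with h | h
        · exact h
        · rw [h] at hw'
          exact absurd hw' (ad_irrefl v)
      · rintro ⟨w, ⟨hw, hwv⟩, rfl⟩
        exact ⟨_, ⟨⟨w, Or.inl hw⟩, hwv, rfl⟩, hιg _⟩
    rw [e1, e2, hιg] at hst
    exact hst x hx

/-- exactness in degree one -/
theorem kos1 (x : V → ZG A) (h : ∑ v, Rr v (x v) = 0) :
    ∃ y, IsAlt2 ad Set.univ y ∧ ∀ b, x b = ∑ a, Rr a (y a b) := by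
  obtain ⟨y, hy, h2⟩ := (Pool.Agent.W304.DU.th V (ZG A) ad Rr ad_symm ad_irrefl ad_K4 reg
    Finset.univ).1 x (fun v hv => absurd (Finset.mem_univ v) hv) h
  rw [Finset.coe_univ] at hy
  exact ⟨y, hy, h2⟩

/-- exactness in degree two -/
theorem kos2 (y : V → V → ZG A) (hy : IsAlt2 ad Set.univ y) (h : ∀ b, ∑ a, Rr a (y a b) = 0) :
    ∃ z, IsAlt3 ad Set.univ z ∧ ∀ b c, y b c = ∑ a, Rr a (z a b c) := by
  obtain ⟨z, hz, h2⟩ := (Pool.Agent.W304.DU.th V (ZG A) ad Rr ad_symm ad_irrefl ad_K4 reg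
    Finset.univ).2.1 y (by rw [Finset.coe_univ]; exact hy) h
  rw [Finset.coe_univ] at hz
  exact ⟨z, hz, h2⟩

theorem closure_g : Subgroup.closure (Set.range g) = ⊤ :=
  Pool.Agent.W379.RAAG.closure_gen (Γ := Gr)

/-- exactness in degree zero -/
theorem kos0 (x : ZG A) (h : Pool.Agent.W326.DU.augm A x = 0) : ∃ w : V → ZG A, ∑ v, Rr v (w v) = x := by
  have h1 := Pool.Agent.W326.DU.aug_th A (Set.range g) closure_g x h
  rw [← Set.image_univ, ← mem_Im_iff'] at h1
  obtain ⟨y, _, hy⟩ := Pool.Agent.W304.DU.mem_Im Rr Set.univ x h1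
  exact ⟨y, hy.symm⟩

end Pool.Agent.TH18
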