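import Pool.Agent.TH18.Ideal

/-! Projective resolutions: from modules over the group ring to `Rep`, and back. -/

set_option autoImplicit false

namespace Pool.Agent.TH18

open CategoryTheory
open Pool.Agent.W326.DU (IL ZG augm aug_th)

/-! ### resolutions over a ring -/

section ring
variable {R : Type} [Ring R]

/-- `Z` has a projective resolution whose first `n` terms are finitely generated. -/
def HasRes (R : Type) [Ring R] (n : ℕ) (Z : Type) [AddCommGroup Z] [Module R Z] : Prop :=
  ∃ (X : ℕ → ModuleCat.{0} R) (d : ∀ n, X (n + 1) →ₗ[R] X n) (e : X 0 →ₗ[R] Z),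
    (∀ n, Module.Projective R (X n)) ∧ Function.Surjective e ∧
    (∀ x, e x = 0 ↔ ∃ y, d 0 y = x) ∧ (∀ n x, d n x = 0 ↔ ∃ y, d (n + 1) y = x) ∧
    ∀ k < n, Module.Finite R (X k)

/-- iterated syzygies -/
noncomputable def Zs (Z : ModuleCat.{0} R) : ℕ → ModuleCat.{0} R
  | 0 => Z
  | n + 1 => ModuleCat.of R (LinearMap.ker (Finsupp.linearCombination R (id : Zs Z n → Zs Z n)))

theorem lc_surj (Z : Type) [AddCommGroup Z] [Module R Z] :
    Function.Surjective (Finsupp.linearCombination R (id : Z → Z)) := fun z =>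
  ⟨Finsupp.single z 1, by rw [Finsupp.linearCombination_single, one_smul]; rfl⟩

theorem hasRes_zero (Z : Type) [AddCommGroup Z] [Module R Z] : HasRes R 0 Z := by
  let Z' : ModuleCat.{0} R := ModuleCat.of R Z
  refine ⟨fun n => ModuleCat.of R (Zs Z' n →₀ R), fun n => ?_,
    Finsupp.linearCombination R (id : Z → Z), ?_, lc_surj Z, ?_, ?_, ?_⟩
  · exact (LinearMap.ker (Finsupp.linearCombination R (id : Zs Z' n → Zs Z' n))).subtype ∘ₗ
      Finsupp.linearCombination R (id : Zs Z' (n + 1) → Zs Z' (n + 1))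
  · intro n
    show Module.Projective R (Zs Z' n →₀ R)
    infer_instance
  · intro x
    constructor
    · intro hx
      obtain ⟨y, hy⟩ := lc_surj (R := R) (Zs Z' 1) ⟨x, hx⟩
      exact ⟨y, congrArg Subtype.val hy⟩
    · rintro ⟨y, rfl⟩
      exact (Finsupp.linearCombination R (id : Zs Z' 1 → Zs Z' 1) y).2
  · intro n x
    constructor
    · intro hx
      have hx' : Finsupp.linearCombination R (id : Zs Z' (n + 1) → Zs Z' (n + 1)) x = 0 :=
        Subtype.ext hx
      obtain ⟨y, hy⟩ := lc_surj (R := R) (Zs Z' (n + 2)) ⟨x, hx'⟩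
      exact ⟨y, congrArg Subtype.val hy⟩
    · rintro ⟨y, rfl⟩
      have h1 := (Finsupp.linearCombination R (id : Zs Z' (n + 2) → Zs Z' (n + 2)) y).2
      have h2 : Finsupp.linearCombination R (id : Zs Z' (n + 1) → Zs Z' (n + 1))
        (Finsupp.linearCombination R (id : Zs Z' (n + 2) → Zs Z' (n + 2)) y).1 = 0 := h1
      exact congrArg Subtype.val h2
  · intro k hk
    exact absurd hk (Nat.not_lt_zero _)

theorem hasRes_cons {n : ℕ} {P Z : Type} [AddCommGroup P] [Module R P] [AddCommGroup Z] [Module R Z]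
    [Module.Projective R P] [Module.Finite R P] (p : P →ₗ[R] Z) (hp : Function.Surjective p)
    (h : HasRes R n (LinearMap.ker p)) : HasRes R (n + 1) Z := by
  obtain ⟨X, d, e, h1, h2, h3, h4, h5⟩ := h
  let X' : ℕ → ModuleCat.{0} R := fun k => match k with
    | 0 => ModuleCat.of R P
    | k + 1 => X k
  let d' : ∀ n, X' (n + 1) →ₗ[R] X' n := fun k => match k with
    | 0 => (LinearMap.ker p).subtype ∘ₗ e
    | k + 1 => d k
  refine ⟨X', d', p, ?_, hp, ?_, ?_, ?_⟩
  · intro k
    cases k with
    | zero => show Module.Projective R P; infer_instance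
    | succ k => exact h1 k
  · intro x
    constructor
    · intro hx
      obtain ⟨y, hy⟩ := h2 ⟨x, hx⟩
      exact ⟨y, congrArg Subtype.val hy⟩
    · rintro ⟨y, rfl⟩
      exact (e y).2
  · intro k
    cases k with
    | zero =>
      intro x
      rw [show d' (0 + 1) = d 0 from rfl]
      rw [← h3]
      constructor
      · intro hx; exact Subtype.ext hx
      · intro hx
        show ((e x : LinearMap.ker p) : P) = 0
        rw [hx]; rfl
    | succ k => exact h4 k
  · intro k hk
    cases k with
    | zero => show Module.Finite R P; infer_instance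
    | succ k => exact h5 k (by omega)

theorem hasRes_one {Z : Type} [AddCommGroup Z] [Module R Z] [Module.Finite R Z] :
    HasRes R 1 Z := by
  obtain ⟨n, f, hf⟩ := Module.Finite.exists_fin' R Z
  exact hasRes_cons f hf (hasRes_zero _)

theorem hasRes_two {Z : Type} [AddCommGroup Z] [Module R Z] [h : Module.FinitePresentation R Z] :
    HasRes R 2 Z := by
  obtain ⟨n, f, hf⟩ := Module.Finite.exists_fin' R Z
  have hk := Module.FinitePresentation.fg_ker f hf
  have : Module.Finite R (LinearMap.ker f) := Module.Finite.of_fg hk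
  exact hasRes_cons f hf hasRes_one

/-- step of a chain -/
theorem hasRes_step {n : ℕ} {P Q Z : Type} [AddCommGroup P] [Module R P] [AddCommGroup Q]
    [Module R Q] [AddCommGroup Z] [Module R Z]
    [Module.Projective R P] [Module.Finite R P] (d : P →ₗ[R] Q) (d' : Q →ₗ[R] Z)
    (hd : ∀ x, d' x = 0 ↔ ∃ y, d y = x)
    (h : HasRes R n (LinearMap.ker d)) : HasRes R (n + 1) (LinearMap.ker d') := by
  let p : P →ₗ[R] LinearMap.ker d' := d.codRestrict _ (fun c => (hd _).2 ⟨c, rfl⟩)
  have hp : Function.Surjective p := by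
    rintro ⟨x, hx⟩
    obtain ⟨y, hy⟩ := (hd x).1 hx
    exact ⟨y, Subtype.ext hy⟩
  apply hasRes_cons p hp
  have : LinearMap.ker p = LinearMap.ker d := LinearMap.ker_codRestrict _ _ _
  rw [this]; exact h

/-- **Schanuel.** -/
theorem schanuel {P0 P1 P2 T Q0 : Type} [AddCommGroup P0] [Module R P0] [AddCommGroup P1]
    [Module R P1] [AddCommGroup P2] [Module R P2] [AddCommGroup T] [Module R T]
    [AddCommGroup Q0] [Module R Q0]
    [Module.Projective R P0] [Module.Finite R P0] [Module.Projective R P1] [Module.Finite R P1]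
    [Module.Finite R P2] [Module.Projective R Q0] [Module.Finite R Q0]
    (ε : P0 →ₗ[R] T) (d0 : P1 →ₗ[R] P0) (d1 : P2 →ₗ[R] P1) (η : Q0 →ₗ[R] T)
    (hε : Function.Surjective ε) (hη : Function.Surjective η)
    (h0 : ∀ x, ε x = 0 ↔ ∃ y, d0 y = x) (h1 : ∀ x, d0 x = 0 ↔ ∃ y, d1 y = x) :
    Module.FinitePresentation R (LinearMap.ker η) := by
  have f0 : Module.FinitePresentation R P0 := Module.finitePresentation_of_projective _ _
  have f1 : Module.FinitePresentation R P1 := Module.finitePresentation_of_projective _ _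
  have f2 : Module.FinitePresentation R Q0 := Module.finitePresentation_of_projective _ _
  -- the first syzygy
  have k0 : Module.FinitePresentation R (LinearMap.ker ε) := by
    let p : P1 →ₗ[R] LinearMap.ker ε := d0.codRestrict _ (fun c => (h0 _).2 ⟨c, rfl⟩)
    have hp : Function.Surjective p := by
      rintro ⟨x, hx⟩
      obtain ⟨y, hy⟩ := (h0 x).1 hx
      exact ⟨y, Subtype.ext hy⟩
    refine Module.finitePresentation_of_surjective p hp ?_
    have e1 : LinearMap.ker p = LinearMap.range d1 := by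
      have e0 : LinearMap.ker p = LinearMap.ker d0 := LinearMap.ker_codRestrict _ _ _
      rw [e0]
      ext x
      rw [LinearMap.mem_ker, h1]
      rfl
    rw [e1]
    have := (Module.Finite.fg_top : (⊤ : Submodule R P2).FG).map d1
    rwa [Submodule.map_top] at this
  -- the pullback
  let X : Submodule R (P0 × Q0) := LinearMap.ker (ε ∘ₗ LinearMap.fst R P0 Q0 - η ∘ₗ LinearMap.snd R P0 Q0)
  have hX : ∀ x : P0 × Q0, x ∈ X ↔ ε x.1 = η x.2 := by
    intro x
    show ε x.1 - η x.2 = 0 ↔ _
    exact sub_eq_zero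
  let pq : X →ₗ[R] Q0 := LinearMap.snd R P0 Q0 ∘ₗ X.subtype
  let pp : X →ₗ[R] P0 := LinearMap.fst R P0 Q0 ∘ₗ X.subtype
  have spq : Function.Surjective pq := by
    intro y
    obtain ⟨x, hx⟩ := hε (η y)
    exact ⟨⟨(x, y), (hX _).2 hx⟩, rfl⟩
  have spp : Function.Surjective pp := by
    intro x
    obtain ⟨y, hy⟩ := hη (ε x)
    exact ⟨⟨(x, y), (hX _).2 hy.symm⟩, rfl⟩
  have kq : Module.FinitePresentation R (LinearMap.ker pq) := by
    let j : LinearMap.ker ε →ₗ[R] X := (LinearMap.inl R P0 Q0 ∘ₗ (LinearMap.ker ε).subtype).codRestrict X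
      (by
        rintro ⟨x, hx⟩
        rw [hX]
        show ε x = η 0
        rw [map_zero]; exact hx)
    let j' : LinearMap.ker ε →ₗ[R] LinearMap.ker pq := j.codRestrict _ (by
      rintro ⟨x, hx⟩
      rfl)
    have hj : Function.Bijective j' := by
      constructor
      · rintro ⟨x, hx⟩ ⟨y, hy⟩ hxy
        have h2 := congrArg (fun z : LinearMap.ker pq => (z : X).1.1) hxy
        exact Subtype.ext h2
      · rintro ⟨⟨⟨x, y⟩, hxy⟩, hy⟩
        have hy' : y = 0 := hy
        subst hy'
        have h2 := (hX _).1 hxy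
        have h3 : ε x = 0 := by
          rw [show ε x = η 0 from h2, map_zero]
        exact ⟨⟨x, h3⟩, rfl⟩
    let eq : LinearMap.ker ε ≃ₗ[R] LinearMap.ker pq := LinearEquiv.ofBijective j' hj
    exact (LinearEquiv.finitePresentation_iff (M := LinearMap.ker ε) (N := LinearMap.ker pq) eq).1 k0
  have fX : Module.FinitePresentation R X := Module.finitePresentation_of_ker pq spq
  let i : LinearMap.ker η →ₗ[R] X := (LinearMap.inr R P0 Q0 ∘ₗ (LinearMap.ker η).subtype).codRestrict X
    (by
      rintro ⟨x, hx⟩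
      rw [hX]
      show ε 0 = η x
      rw [map_zero]; exact hx.symm)
  refine Module.finitePresentation_of_projective_of_exact i pp ?_ spp ?_
  · rintro ⟨x, hx⟩ ⟨y, hy⟩ hxy
    have h2 := congrArg (fun z : X => z.1.2) hxy
    exact Subtype.ext h2
  · rintro ⟨⟨x, y⟩, hxy⟩
    constructor
    · intro hx
      have hx' : x = 0 := hx
      subst hx'
      have h2 := (hX _).1 hxy
      have h3 : η y = 0 := by
        rw [← show ε 0 = η y from h2, map_zero]
      exact ⟨⟨y, h3⟩, rfl⟩
    · rintro ⟨⟨z, hz⟩, hz2⟩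
      have h2 := congrArg (fun z : X => z.1.1) hz2
      exact h2.symm

end ring

/-! ### the trivial module -/

section triv
variable (G : Type) [Group G]

/-- the augmentation -/
noncomputable def augR : ZG G →+* ℤ := (MonoidAlgebra.lift ℤ ℤ G (1 : G →* ℤ)).toRingHom

theorem augR_of (g : G) : augR G (MonoidAlgebra.of ℤ G g) = 1 := by
  simp [augR]

/-- the trivial module -/
def Tr (_ : Type) : Type := ℤ

instance : AddCommGroup (Tr G) := inferInstanceAs (AddCommGroup ℤ)
noncomputable instance : Module (ZG G) (Tr G) := Module.compHom ℤ (augR G)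

theorem Tr_smul (c : ZG G) (z : Tr G) : c • z = (show Tr G from augR G c * (show ℤ from z)) := rfl

/-- the augmentation as a linear map -/
noncomputable def augL : ZG G →ₗ[ZG G] Tr G where
  toFun x := (show ℤ from augR G x)
  map_add' x y := map_add (augR G) x y
  map_smul' c x := map_mul (augR G) c x

theorem ker_augL : LinearMap.ker (augL G) = IL ℤ (Set.univ : Set G) := by
  apply le_antisymm
  · intro x hx
    exact aug_th G Set.univ Subgroup.closure_univ x hx
  · refine Submodule.span_le.2 ?_
    rintro _ ⟨g, _, rfl⟩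
    show augR G (MonoidAlgebra.of ℤ G g - 1) = 0
    rw [map_sub, augR_of, map_one, sub_self]

theorem augL_surj : Function.Surjective (augL G) := by
  intro z
  refine ⟨(show ℤ from z) • 1, ?_⟩
  show augR G ((show ℤ from z) • 1) = z
  rw [map_zsmul, map_one, zsmul_eq_mul, mul_one]; rfl

end triv

/-! ### `Rep` -/

section rep
variable {k G : Type} [CommRing k] [Group G]

theorem rep_exact_iff (S : ShortComplex (Rep.{0} k G)) :
    S.Exact ↔ ∀ x : S.X₂, S.g.hom x = 0 → ∃ y : S.X₁, S.f.hom y = x := by
  rw [← ShortComplex.exact_map_iff_of_faithful S (forget₂ (Rep.{0} k G) (ModuleCat.{0} k)),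
    ShortComplex.moduleCat_exact_iff]
  rfl

/-- building a projective resolution in `Rep` -/
theorem build (X : ℕ → Rep.{0} k G) (d : ∀ n, X (n + 1) ⟶ X n) (sq : ∀ n, d (n + 1) ≫ d n = 0)
    (e : X 0 ⟶ Rep.trivial k G k) (hproj : ∀ n, Projective (X n)) (hde : d 0 ≫ e = 0)
    (he : Function.Surjective e.hom)
    (h0 : ∀ v : X 0, e.hom v = 0 → ∃ w, (d 0).hom w = v)
    (h1 : ∀ n (v : X (n + 1)), (d n).hom v = 0 → ∃ w, (d (n + 1)).hom w = v) :
    ∃ P : ProjectiveResolution (Rep.trivial k G k), P.complex = ChainComplex.of X d sq := by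
  have hd : ∀ n, (ChainComplex.of X d sq).d (n + 1) n = d n := fun n => ChainComplex.of_d _ _ _
  let π : ChainComplex.of X d sq ⟶ (ChainComplex.single₀ (Rep.{0} k G)).obj (Rep.trivial k G k) :=
    ((ChainComplex.of X d sq).toSingle₀Equiv _).symm ⟨e, by rw [hd]; exact hde⟩
  have hπ : π.f 0 = e := by
    exact congrArg Subtype.val (((ChainComplex.of X d sq).toSingle₀Equiv _).apply_symm_apply
      ⟨e, by rw [hd]; exact hde⟩)
  refine ⟨{ complex := ChainComplex.of X d sq
            projective := fun n => hproj n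
            π := π
            quasiIso := ⟨fun m => ?_⟩ }, rfl⟩
  cases m with
  | zero =>
    rw [ChainComplex.quasiIsoAt₀_iff, ShortComplex.quasiIso_iff_of_zeros' _ rfl rfl rfl]
    constructor
    · apply (forget₂ _ (ModuleCat k)).reflects_exact_of_faithful
      rw [ShortComplex.moduleCat_exact_iff]
      intro x hx
      have hx' : e.hom x = 0 := by
        rw [← hπ]
        exact hx
      obtain ⟨y, hy⟩ := h0 x hx'
      refine ⟨y, ?_⟩
      rw [← hy]
      have h2 := hd 0
      change ((ChainComplex.of X d sq).d 1 0).hom y = _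
      rw [h2]
    · rw [Rep.epi_iff_surjective]
      intro x
      obtain ⟨y, hy⟩ := he x
      exact ⟨y, hy⟩
  | succ m =>
    rw [quasiIsoAt_iff_exactAt' (hL := ChainComplex.exactAt_succ_single_obj ..),
        HomologicalComplex.exactAt_iff' _ (m + 2) (m + 1) m (by simp) (by simp)]
    apply (forget₂ _ (ModuleCat k)).reflects_exact_of_faithful
    rw [ShortComplex.moduleCat_exact_iff]
    intro x hx
    have hx' : (d m).hom x = 0 := by
      rw [← hd m]
      exact hx
    obtain ⟨y, hy⟩ := h1 m x hx'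
    refine ⟨y, ?_⟩
    rw [← hy]
    have h2 := hd (m + 1)
    change ((ChainComplex.of X d sq).d (m + 2) (m + 1)).hom y = _
    rw [h2]

end rep

/-! ### finite generation -/

section fg
variable {G : Type} [Group G]

/-- finite generation in `Rep` -/
def FGR (X : Rep.{0} ℤ G) : Prop :=
  ∃ s : Finset X.V, ∀ x : X.V, x ∈ Submodule.span ℤ
    (Set.range (fun p : G × s => X.ρ p.1 (p.2 : X.V)))

/-- `FP_n` in the form of the problem -/
def FPc (G : Type) [Group G] (n : ℕ) : Prop :=
  ∃ R : ProjectiveResolution (Rep.trivial ℤ G ℤ), ∀ k ≤ n, FGR (R.complex.X k)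

end fg

end Pool.Agent.TH18
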