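import Pool.Agent.TH18.Data
import Pool.Agent.W326.DU.Stm

/-! Simplicial acyclicity with arbitrary coefficients. -/

set_option autoImplicit false

namespace Pool.Agent.TH18

open Pool.Agent.W326.DU (IsAlt2 IsAlt3)

/-- the adjacency relation -/
def ad (a b : V) : Prop := adb a b = true

instance : DecidableRel ad := fun a b => inferInstanceAs (Decidable (adb a b = true))

theorem ad_symm (a b : V) (h : ad a b) : ad b a := adb_symm a b h
theorem ad_irrefl (a : V) : ¬ ad a a := by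
  intro h
  have := adb_irrefl a
  rw [show adb a a = true from h] at this
  exact Bool.noConfusion this

theorem ad_K4 (a b c d : V) (h1 : ad a b) (h2 : ad a c) (h3 : ad a d) (h4 : ad b c) (h5 : ad b d) :
    ¬ ad c d := by
  intro h6
  have e1 := col_ne _ _ h1
  have e2 := col_ne _ _ h2
  have e3 := col_ne _ _ h3
  have e4 := col_ne _ _ h4
  have e5 := col_ne _ _ h5
  have e6 := col_ne _ _ h6
  generalize col a = x at *
  generalize col b = y at *
  generalize col c = z at *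
  generalize col d = w at *
  revert x y z w
  decide

section
variable {N : Type} [AddCommGroup N]

theorem ext2 {F G : V → V → N} (hF : IsAlt2 ad Set.univ F) (hG : IsAlt2 ad Set.univ G)
    (h : ∀ i, F (e1 i) (e2 i) = G (e1 i) (e2 i)) : ∀ a b, F a b = G a b := by
  have key : ∀ a b, a < b → F a b = G a b := by
    intro a b hab
    by_cases hd : ad a b
    · have := ix_e a b hab hd
      have h1 := h (ix a b)
      rw [this.1, this.2] at h1
      exact h1
    · rw [hF.2 a b (fun h => hd h.2.2), hG.2 a b (fun h => hd h.2.2)]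
  intro a b
  rcases lt_trichotomy a b with h1 | h1 | h1
  · exact key a b h1
  · subst h1
    rw [hF.2 a a (fun h => ad_irrefl a h.2.2), hG.2 a a (fun h => ad_irrefl a h.2.2)]
  · rw [hF.1 a b, hG.1 a b, key b a h1]

theorem ext3 {F G : V → V → V → N} (hF : IsAlt3 ad Set.univ F) (hG : IsAlt3 ad Set.univ G)
    (h : ∀ j, F (t1 j) (t2 j) (t3 j) = G (t1 j) (t2 j) (t3 j)) : ∀ a b c, F a b c = G a b c := by
  have key : ∀ a b c, a < b → b < c → F a b c = G a b c := by
    intro a b c hab hbc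
    by_cases hd : ad a b ∧ ad b c ∧ ad a c
    · obtain ⟨j, h1, h2, h3⟩ := t_surj a b hab hd.1 c hbc hd.2.1 hd.2.2
      have h4 := h j
      rw [h1, h2, h3] at h4
      exact h4
    · rw [hF.2.2 a b c (fun h => hd h.2.2.2), hG.2.2 a b c (fun h => hd h.2.2.2)]
  have z1 : ∀ a b, F a a b = G a a b := fun a b => by
    rw [hF.2.2 a a b (fun h => ad_irrefl a h.2.2.2.1), hG.2.2 a a b (fun h => ad_irrefl a h.2.2.2.1)]
  have z2 : ∀ a b, F a b b = G a b b := fun a b => by
    rw [hF.2.2 a b b (fun h => ad_irrefl b h.2.2.2.2.1),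
      hG.2.2 a b b (fun h => ad_irrefl b h.2.2.2.2.1)]
  have z3 : ∀ a b, F a b a = G a b a := fun a b => by
    rw [hF.2.2 a b a (fun h => ad_irrefl a h.2.2.2.2.2),
      hG.2.2 a b a (fun h => ad_irrefl a h.2.2.2.2.2)]
  intro a b c
  rcases lt_trichotomy a b with h1 | h1 | h1
  · rcases lt_trichotomy b c with h2 | h2 | h2
    · exact key a b c h1 h2
    · subst h2; exact z2 _ _
    · rcases lt_trichotomy a c with h3 | h3 | h3
      · rw [hF.2.1 a b c, hG.2.1 a b c, key a c b h3 h2]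
      · subst h3; exact z3 _ _
      · rw [hF.2.1 a b c, hG.2.1 a b c, hF.1 a c b, hG.1 a c b, key c a b h3 h1]
  · subst h1; exact z1 _ _
  · rcases lt_trichotomy b c with h2 | h2 | h2
    · rcases lt_trichotomy a c with h3 | h3 | h3
      · rw [hF.1 a b c, hG.1 a b c, key b a c h1 h3]
      · subst h3; exact z3 _ _
      · rw [hF.1 a b c, hG.1 a b c, hF.2.1 b a c, hG.2.1 b a c, key b c a h2 h3]
    · subst h2; exact z2 _ _
    · rw [hF.1 a b c, hG.1 a b c, hF.2.1 b a c, hG.2.1 b a c, hF.1 b c a, hG.1 b c a,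
        key c b a h2 h1]

/-- sign of a pair with respect to an edge -/
def sg2 (i : Fin 80) (a b : V) : ℤ :=
  (if e1 i = a ∧ e2 i = b then 1 else 0) - (if e1 i = b ∧ e2 i = a then 1 else 0)

/-- sign of a triple with respect to a triangle -/
def sg3 (j : Fin 60) (a b c : V) : ℤ :=
  (if t1 j = a ∧ t2 j = b ∧ t3 j = c then 1 else 0)
  - (if t1 j = b ∧ t2 j = a ∧ t3 j = c then 1 else 0)
  + (if t1 j = b ∧ t2 j = c ∧ t3 j = a then 1 else 0)
  - (if t1 j = c ∧ t2 j = b ∧ t3 j = a then 1 else 0)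
  + (if t1 j = c ∧ t2 j = a ∧ t3 j = b then 1 else 0)
  - (if t1 j = a ∧ t2 j = c ∧ t3 j = b then 1 else 0)

/-- alternating function of an edge function -/
def al2 (u : Fin 80 → N) (a b : V) : N := ∑ i, sg2 i a b • u i
/-- alternating function of a triangle function -/
def al3 (t : Fin 60 → N) (a b c : V) : N := ∑ j, sg3 j a b c • t j

theorem al2_alt (u : Fin 80 → N) : IsAlt2 ad Set.univ (al2 u) := by
  constructor
  · intro a b
    unfold al2
    rw [← Finset.sum_neg_distrib]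
    refine Finset.sum_congr rfl fun i _ => ?_
    rw [← neg_smul]
    congr 1
    unfold sg2
    ring
  · intro a b h
    have hd : ¬ ad a b := fun h1 => h ⟨trivial, trivial, h1⟩
    unfold al2
    refine Finset.sum_eq_zero fun i _ => ?_
    have h1 : ¬ (e1 i = a ∧ e2 i = b) := by
      rintro ⟨rfl, rfl⟩; exact hd (e_ad i)
    have h2 : ¬ (e1 i = b ∧ e2 i = a) := by
      rintro ⟨rfl, rfl⟩; exact hd (ad_symm _ _ (e_ad i))
    unfold sg2
    rw [if_neg h1, if_neg h2, sub_self, zero_smul]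

theorem al3_alt (t : Fin 60 → N) : IsAlt3 ad Set.univ (al3 t) := by
  refine ⟨?_, ?_, ?_⟩
  · intro a b c
    unfold al3
    rw [← Finset.sum_neg_distrib]
    refine Finset.sum_congr rfl fun i _ => ?_
    rw [← neg_smul]
    congr 1
    unfold sg3
    ring
  · intro a b c
    unfold al3
    rw [← Finset.sum_neg_distrib]
    refine Finset.sum_congr rfl fun i _ => ?_
    rw [← neg_smul]
    congr 1
    unfold sg3
    ring
  · intro a b c h
    have hd : ¬ (ad a b ∧ ad b c ∧ ad a c) := fun h1 => h ⟨trivial, trivial, trivial, h1⟩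
    unfold al3
    refine Finset.sum_eq_zero fun j _ => ?_
    obtain ⟨x1, x2, x3⟩ := t_ad j
    have h1 : ¬ (t1 j = a ∧ t2 j = b ∧ t3 j = c) := by
      rintro ⟨rfl, rfl, rfl⟩; exact hd ⟨x1, x2, x3⟩
    have h2 : ¬ (t1 j = b ∧ t2 j = a ∧ t3 j = c) := by
      rintro ⟨rfl, rfl, rfl⟩; exact hd ⟨ad_symm _ _ x1, x3, x2⟩
    have h3 : ¬ (t1 j = b ∧ t2 j = c ∧ t3 j = a) := by
      rintro ⟨rfl, rfl, rfl⟩; exact hd ⟨ad_symm _ _ x3, x1, ad_symm _ _ x2⟩
    have h4 : ¬ (t1 j = c ∧ t2 j = b ∧ t3 j = a) := by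
      rintro ⟨rfl, rfl, rfl⟩; exact hd ⟨ad_symm _ _ x2, ad_symm _ _ x1, ad_symm _ _ x3⟩
    have h5 : ¬ (t1 j = c ∧ t2 j = a ∧ t3 j = b) := by
      rintro ⟨rfl, rfl, rfl⟩; exact hd ⟨x2, ad_symm _ _ x3, ad_symm _ _ x1⟩
    have h6 : ¬ (t1 j = a ∧ t2 j = c ∧ t3 j = b) := by
      rintro ⟨rfl, rfl, rfl⟩; exact hd ⟨x3, ad_symm _ _ x2, x1⟩
    unfold sg3
    rw [if_neg h1, if_neg h2, if_neg h3, if_neg h4, if_neg h5, if_neg h6]
    simp

theorem e_inj (i k : Fin 80) (h1 : e1 i = e1 k) (h2 : e2 i = e2 k) : i = k := by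
  rw [← e_ix i, ← e_ix k, h1, h2]

theorem al2_e (u : Fin 80 → N) (i : Fin 80) : al2 u (e1 i) (e2 i) = u i := by
  unfold al2
  rw [Finset.sum_eq_single i]
  · unfold sg2
    rw [if_pos ⟨rfl, rfl⟩, if_neg, sub_zero, one_smul]
    rintro ⟨h1, _⟩
    exact absurd h1 (e_lt i).ne
  · intro k _ hk
    unfold sg2
    rw [if_neg, if_neg, sub_self, zero_smul]
    · rintro ⟨h1, h2⟩
      have a1 := e_lt k
      have a2 := e_lt i
      rw [h1, h2] at a1
      exact absurd a1 (not_lt.2 a2.le)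
    · rintro ⟨h1, h2⟩
      exact hk (e_inj _ _ h1 h2)
  · intro h; exact absurd (Finset.mem_univ _) h

theorem al3_t (t : Fin 60 → N) (j : Fin 60) : al3 t (t1 j) (t2 j) (t3 j) = t j := by
  have lt := t_lt
  unfold al3
  rw [Finset.sum_eq_single j]
  · unfold sg3
    obtain ⟨a1, a2⟩ := lt j
    rw [if_pos ⟨rfl, rfl, rfl⟩, if_neg, if_neg, if_neg, if_neg, if_neg]
    · simp
    · rintro ⟨_, h2, _⟩; exact a2.ne h2
    · rintro ⟨h1, _, _⟩; exact (a1.trans a2).ne h1
    · rintro ⟨h1, _, _⟩; exact (a1.trans a2).ne h1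
    · rintro ⟨h1, _, _⟩; exact a1.ne h1
    · rintro ⟨h1, _, _⟩; exact a1.ne h1
  · intro k _ hk
    unfold sg3
    obtain ⟨a1, a2⟩ := lt j
    obtain ⟨b1, b2⟩ := lt k
    rw [if_neg, if_neg, if_neg, if_neg, if_neg, if_neg]
    · simp
    · rintro ⟨h1, h2, h3⟩
      rw [h2, h3] at b2
      exact absurd b2 (not_lt.2 a2.le)
    · rintro ⟨h1, h2, h3⟩
      rw [h1, h2] at b1
      exact absurd b1 (not_lt.2 (a1.trans a2).le)
    · rintro ⟨h1, h2, h3⟩
      rw [h1, h2] at b1
      exact absurd b1 (not_lt.2 a2.le)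
    · rintro ⟨h1, h2, h3⟩
      rw [h2, h3] at b2
      exact absurd b2 (not_lt.2 (a1.trans a2).le)
    · rintro ⟨h1, h2, h3⟩
      rw [h1, h2] at b1
      exact absurd b1 (not_lt.2 a1.le)
    · rintro ⟨h1, h2, h3⟩
      exact hk (t_inj _ _ h1 h2 h3)
  · intro h; exact absurd (Finset.mem_univ _) h

theorem exp2 {F : V → V → N} (hF : IsAlt2 ad Set.univ F) (a b : V) :
    F a b = al2 (fun i => F (e1 i) (e2 i)) a b :=
  ext2 hF (al2_alt _) (fun i => (al2_e (fun i => F (e1 i) (e2 i)) i).symm) a b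

theorem exp3 {F : V → V → V → N} (hF : IsAlt3 ad Set.univ F) (a b c : V) :
    F a b c = al3 (fun j => F (t1 j) (t2 j) (t3 j)) a b c :=
  ext3 hF (al3_alt _) (fun j => (al3_t (fun j => F (t1 j) (t2 j) (t3 j)) j).symm) a b c

theorem sum_sg2 (i : Fin 80) (b : V) : ∑ a, sg2 i a b = D1 b i := by
  unfold sg2 D1
  rw [Finset.sum_sub_distrib]
  congr 1
  · simp [ite_and]
  · simp only [ite_and]
    split_ifs <;> simp

theorem sum_al2 (u : Fin 80 → N) (b : V) : ∑ a, al2 u a b = ∑ i, D1 b i • u i := by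
  unfold al2
  rw [Finset.sum_comm]
  refine Finset.sum_congr rfl fun i _ => ?_
  rw [← Finset.sum_smul, sum_sg2]

theorem sum_sg3 (j : Fin 60) (b c : V) : ∑ a, sg3 j a b c = ∑ i, sg2 i b c * D2 i j := by
  obtain ⟨x1, x2, x3⟩ := t_ad j
  obtain ⟨l1, l2⟩ := t_lt j
  have y1 := ix_e _ _ l1 x1
  have y2 := ix_e _ _ l2 x2
  have y3 := ix_e _ _ (l1.trans l2) x3
  have h1 : ∑ i, sg2 i b c * D2 i j = sg2 (ix (t2 j) (t3 j)) b c - sg2 (ix (t1 j) (t3 j)) b c
      + sg2 (ix (t1 j) (t2 j)) b c := by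
    unfold D2
    simp only [mul_add, mul_sub, mul_ite, mul_one, mul_zero, Finset.sum_add_distrib,
      Finset.sum_sub_distrib, Finset.sum_ite_eq, Finset.mem_univ, if_true]
  rw [h1]
  unfold sg2
  rw [y1.1, y1.2, y2.1, y2.2, y3.1, y3.2]
  have g1 : ∑ a : V, (if t1 j = a ∧ t2 j = b ∧ t3 j = c then (1 : ℤ) else 0) =
      if t2 j = b ∧ t3 j = c then 1 else 0 := by
    simp only [ite_and]
    rw [Finset.sum_ite_eq]
    simp
  have g2 : ∑ a : V, (if t1 j = b ∧ t2 j = a ∧ t3 j = c then (1 : ℤ) else 0) =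
      if t1 j = b ∧ t3 j = c then 1 else 0 := by
    have : ∀ a : V, (if t1 j = b ∧ t2 j = a ∧ t3 j = c then (1 : ℤ) else 0) =
        if t2 j = a then (if t1 j = b ∧ t3 j = c then 1 else 0) else 0 := by
      intro a; split_ifs <;> simp_all
    simp only [this]
    rw [Finset.sum_ite_eq]
    simp
  have g3 : ∑ a : V, (if t1 j = b ∧ t2 j = c ∧ t3 j = a then (1 : ℤ) else 0) =
      if t1 j = b ∧ t2 j = c then 1 else 0 := by
    have : ∀ a : V, (if t1 j = b ∧ t2 j = c ∧ t3 j = a then (1 : ℤ) else 0) =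
        if t3 j = a then (if t1 j = b ∧ t2 j = c then 1 else 0) else 0 := by
      intro a; split_ifs <;> simp_all
    simp only [this]
    rw [Finset.sum_ite_eq]
    simp
  have g4 : ∑ a : V, (if t1 j = c ∧ t2 j = b ∧ t3 j = a then (1 : ℤ) else 0) =
      if t1 j = c ∧ t2 j = b then 1 else 0 := by
    have : ∀ a : V, (if t1 j = c ∧ t2 j = b ∧ t3 j = a then (1 : ℤ) else 0) =
        if t3 j = a then (if t1 j = c ∧ t2 j = b then 1 else 0) else 0 := by
      intro a; split_ifs <;> simp_all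
    simp only [this]
    rw [Finset.sum_ite_eq]
    simp
  have g5 : ∑ a : V, (if t1 j = c ∧ t2 j = a ∧ t3 j = b then (1 : ℤ) else 0) =
      if t1 j = c ∧ t3 j = b then 1 else 0 := by
    have : ∀ a : V, (if t1 j = c ∧ t2 j = a ∧ t3 j = b then (1 : ℤ) else 0) =
        if t2 j = a then (if t1 j = c ∧ t3 j = b then 1 else 0) else 0 := by
      intro a; split_ifs <;> simp_all
    simp only [this]
    rw [Finset.sum_ite_eq]
    simp
  have g6 : ∑ a : V, (if t1 j = a ∧ t2 j = c ∧ t3 j = b then (1 : ℤ) else 0) =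
      if t2 j = c ∧ t3 j = b then 1 else 0 := by
    simp only [ite_and]
    rw [Finset.sum_ite_eq]
    simp
  unfold sg3
  rw [Finset.sum_sub_distrib, Finset.sum_add_distrib, Finset.sum_sub_distrib,
    Finset.sum_add_distrib, Finset.sum_sub_distrib, g1, g2, g3, g4, g5, g6]
  ring

theorem sum_al3 (t : Fin 60 → N) (b c : V) :
    ∑ a, al3 t a b c = ∑ i, sg2 i b c • ∑ j, D2 i j • t j := by
  unfold al3
  rw [Finset.sum_comm]
  have : ∀ j, ∑ a, sg3 j a b c • t j = ∑ i, sg2 i b c • (D2 i j • t j) := by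
    intro j
    rw [← Finset.sum_smul, sum_sg3, Finset.sum_smul]
    refine Finset.sum_congr rfl fun i _ => ?_
    rw [mul_smul]
  rw [Finset.sum_congr rfl fun j _ => this j, Finset.sum_comm]
  refine Finset.sum_congr rfl fun i _ => ?_
  rw [Finset.smul_sum]

/-- **L1** -/
theorem L1 (W : V → N) (hW : ∑ v, W v = 0) :
    ∃ U, IsAlt2 ad Set.univ U ∧ ∀ b, W b = ∑ a, U a b := by
  refine ⟨al2 (fun i => ∑ v, S0 i v • W v), al2_alt _, fun b => ?_⟩
  rw [sum_al2]
  have h1 : ∑ i, D1 b i • ∑ v, S0 i v • W v = ∑ v, (∑ i, D1 b i * S0 i v) • W v := by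
    simp only [Finset.smul_sum, Finset.sum_smul]
    rw [Finset.sum_comm]
    refine Finset.sum_congr rfl fun v _ => Finset.sum_congr rfl fun i _ => ?_
    rw [mul_smul]
  rw [h1]
  simp only [m0, sub_smul, Finset.sum_sub_distrib, ite_smul, one_smul, zero_smul,
    Finset.sum_ite_eq, Finset.mem_univ, if_true]
  split_ifs
  · rw [hW, sub_zero]
  · simp

/-- **L2** -/
theorem L2 (U : V → V → N) (hU : IsAlt2 ad Set.univ U) (hc : ∀ b, ∑ a, U a b = 0) :
    ∃ T, IsAlt3 ad Set.univ T ∧ ∀ b c, U b c = ∑ a, T a b c := by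
  obtain ⟨u, hu⟩ : ∃ u : Fin 80 → N, u = fun i => U (e1 i) (e2 i) := ⟨_, rfl⟩
  have hUu : ∀ a b, U a b = al2 u a b := fun a b => by rw [hu]; exact exp2 hU a b
  have hc' : ∀ b, ∑ i, D1 b i • u i = 0 := fun b => by
    rw [← sum_al2, ← hc b]
    exact Finset.sum_congr rfl fun a _ => (hUu a b).symm
  refine ⟨al3 (fun j => ∑ k, S1 j k • u k), al3_alt _, fun b c => ?_⟩
  rw [hUu, sum_al3]
  unfold al2
  refine Finset.sum_congr rfl fun i _ => ?_
  congr 1
  have h1 : ∀ x : Fin 60 → N, ∑ j, D2 i j • x j = ss 0 i • x (qq 0 i) + ss 1 i • x (qq 1 i)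
      + ss 2 i • x (qq 2 i) := by
    intro x
    simp only [D2_eq, add_smul, ite_smul, zero_smul, Finset.sum_add_distrib, Finset.sum_ite_eq,
      Finset.mem_univ, if_true]
  rw [h1]
  have h2 : ∑ k, (S0 i (e2 k) - S0 i (e1 k)) • u k = 0 := by
    have h3 : ∀ k, S0 i (e2 k) - S0 i (e1 k) = ∑ b, S0 i b * D1 b k := by
      intro k
      unfold D1
      simp only [mul_sub, mul_ite, mul_one, mul_zero, Finset.sum_sub_distrib, Finset.sum_ite_eq,
        Finset.mem_univ, if_true]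
    have h4 : ∑ k, (S0 i (e2 k) - S0 i (e1 k)) • u k = ∑ b, S0 i b • ∑ k, D1 b k • u k := by
      simp only [h3, Finset.smul_sum, Finset.sum_smul]
      rw [Finset.sum_comm]
      refine Finset.sum_congr rfl fun v _ => Finset.sum_congr rfl fun k _ => ?_
      rw [mul_smul]
    rw [h4]
    exact Finset.sum_eq_zero fun b _ => by rw [hc', smul_zero]
  have h5 : ∑ k, (if i = k then (1 : ℤ) else 0) • u k = u i := by
    simp
  rw [← h5]
  simp only [← m1, add_smul, Finset.sum_add_distrib]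
  rw [h2, add_zero]
  simp only [Finset.smul_sum, mul_smul]

/-- **L3** -/
theorem L3 (T : V → V → V → N) (hT : IsAlt3 ad Set.univ T) (hc : ∀ b c, ∑ a, T a b c = 0) :
    ∀ a b c, T a b c = 0 := by
  obtain ⟨t, ht⟩ : ∃ t : Fin 60 → N, t = fun j => T (t1 j) (t2 j) (t3 j) := ⟨_, rfl⟩
  have hTt : ∀ a b c, T a b c = al3 t a b c := fun a b c => by rw [ht]; exact exp3 hT a b c
  have hc' : ∀ i, ∑ j, D2 i j • t j = 0 := by
    intro i
    have h1 := hc (e1 i) (e2 i)
    simp only [hTt] at h1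
    rw [sum_al3] at h1
    have h2 := al2_e (fun i => ∑ j, D2 i j • t j) i
    unfold al2 at h2
    rw [h1] at h2
    exact h2.symm
  have h3 : ∀ j, t j = 0 := by
    intro j
    have h5 : ∑ k, (if j = k then (1 : ℤ) else 0) • t k = t j := by simp
    rw [← h5]
    have h6 : ∀ k, (if j = k then (1 : ℤ) else 0) = ∑ i, S1 j i * D2 i k := by
      intro k
      rw [← m2]
      unfold D2
      simp only [mul_add, mul_sub, mul_ite, mul_one, mul_zero, Finset.sum_add_distrib,
        Finset.sum_sub_distrib, Finset.sum_ite_eq, Finset.mem_univ, if_true]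
    have h7 : ∑ k, (if j = k then (1 : ℤ) else 0) • t k = ∑ i, S1 j i • ∑ k, D2 i k • t k := by
      simp only [h6, Finset.smul_sum, Finset.sum_smul]
      rw [Finset.sum_comm]
      refine Finset.sum_congr rfl fun v _ => Finset.sum_congr rfl fun k _ => ?_
      rw [mul_smul]
    rw [h7]
    exact Finset.sum_eq_zero fun i _ => by rw [hc', smul_zero]
  intro a b c
  rw [hTt]
  unfold al3
  exact Finset.sum_eq_zero fun j _ => by rw [h3, smul_zero]

end

end Pool.Agent.TH18
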