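import Pool.Agent.TH18.First
import Pool.Agent.TH18.Simp

/-! The kernel of the free group onto the height-zero subgroup is not normally finitely generated. -/

set_option autoImplicit false

namespace Pool.Agent.TH18

open scoped commutatorElement
open Pool.Agent.W379 (RAAG raagRels)
open Pool.Agent.W379.RAAG (lift_gen gen_comm closure_gen sp gen_mem_sp)

/-- the graph -/
def Gr : SimpleGraph V where
  Adj a b := ad a b
  symm := ⟨fun a b h => ad_symm a b h⟩
  loopless := ⟨fun a h => ad_irrefl a h⟩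

/-- the right-angled Artin group -/
abbrev A : Type := RAAG Gr

/-- generators -/
def g (v : V) : A := RAAG.gen Gr v

theorem g_mem_sp {S : Set V} {v : V} (h : v ∈ S) : g v ∈ sp Gr S := gen_mem_sp h

theorem g_comm {v w : V} (h : ad v w) : Commute (g v) (g w) := gen_comm (Γ := Gr) h

/-- the height -/
def htm : A →* Multiplicative ℤ :=
  RAAG.lift (fun _ => Multiplicative.ofAdd (1 : ℤ)) (fun _ _ _ => Commute.all _ _)

/-- the height, as an integer -/
def ht (a : A) : ℤ := (htm a).toAdd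

theorem ht_mul (a b : A) : ht (a * b) = ht a + ht b := by unfold ht; rw [map_mul]; rfl
theorem ht_one : ht 1 = 0 := by unfold ht; rw [map_one]; rfl
theorem ht_inv (a : A) : ht a⁻¹ = - ht a := by unfold ht; rw [map_inv]; rfl
theorem ht_g (v : V) : ht (g v) = 1 := by
  unfold ht g htm
  rw [lift_gen]; rfl
theorem ht_pow (a : A) (n : ℕ) : ht (a ^ n) = n * ht a := by
  unfold ht; rw [map_pow]; simp

/-- the height-zero subgroup -/
abbrev H : Type := ↥(htm.ker)

theorem ht_H (h : H) : ht (h : A) = 0 := by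
  have : htm (h : A) = 1 := h.2
  unfold ht; rw [this]; rfl

/-! ### the chosen first letter -/

open Classical in
/-- a chosen first letter -/
noncomputable def bb (a : A) : V := if h : (Fs a).Nonempty then h.some else 0

theorem bb_mem (a : A) (h : a ≠ 1) : bb a ∈ Fs a := by
  classical
  have := Fs_nonempty a h
  unfold bb
  rw [dif_pos this]
  exact this.some_mem

theorem ae_of (x y : V) (h : x ≠ y → ad x y) : ae x y = true := by
  unfold ae
  by_cases hxy : x = y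
  · simp [hxy]
  · rw [show adb x y = true from h hxy]; rfl

/-- two elements with first letters in a common clique -/
theorem ae_cl (S : Set V) (hS : IsCl Gr S) (x y : V) (hx : x ∈ S) (hy : y ∈ S) : ae x y = true :=
  ae_of x y (fun h => hS x hx y hy h)

theorem dl_inv : ∀ (a b : V) (p : Fin 5), dl b a (dl a b p) = p := by decide +kernel

/-- the permutation attached to a generator -/
noncomputable def Tu (u : V) : Equiv.Perm (A × Fin 5) where
  toFun x := (x.1 * (g u)⁻¹, dl (bb x.1) (bb (x.1 * (g u)⁻¹)) x.2)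
  invFun x := (x.1 * g u, dl (bb x.1) (bb (x.1 * g u)) x.2)
  left_inv x := by
    obtain ⟨a, p⟩ := x
    dsimp only
    rw [inv_mul_cancel_right, dl_inv]
  right_inv x := by
    obtain ⟨a, p⟩ := x
    dsimp only
    rw [mul_inv_cancel_right, dl_inv]

theorem Tu_apply (u : V) (a : A) (p : Fin 5) :
    Tu u (a, p) = (a * (g u)⁻¹, dl (bb a) (bb (a * (g u)⁻¹)) p) := rfl

theorem Tu_inv (u : V) (a : A) (p : Fin 5) :
    (Tu u)⁻¹ (a, p) = (a * g u, dl (bb a) (bb (a * g u)) p) := rfl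

/-- the action of the free group -/
noncomputable def Th : FreeGroup V →* Equiv.Perm (A × Fin 5) := FreeGroup.lift Tu

theorem Th_of (u : V) : Th (FreeGroup.of u) = Tu u := FreeGroup.lift_apply_of

/-- the projection -/
abbrev ph : FreeGroup V →* A := PresentedGroup.mk (raagRels Gr)

theorem ph_of (u : V) : ph (FreeGroup.of u) = g u := rfl

theorem Th_fst (r : FreeGroup V) : ∀ x, (Th r x).1 = x.1 * (ph r)⁻¹ := by
  induction r using FreeGroup.induction_on with
  | C1 => intro x; rw [map_one, map_one, inv_one, mul_one]; rfl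
  | of u => intro x; rw [Th_of, ph_of]; rfl
  | inv_of u _ =>
    intro x
    rw [map_inv, map_inv, Th_of, ph_of, inv_inv]; rfl
  | mul a b ha hb =>
    intro x
    rw [map_mul, map_mul, Equiv.Perm.mul_apply, ha, hb, mul_inv_rev, mul_assoc]

theorem mem_Fs_g (v u : V) (h : u ≠ v) (a : A) : v ∈ Fs (a * g u) ↔ v ∈ Fs a :=
  mem_Fs_mul v u h a true

/-- all first letters of the corners of a square lie in a common clique -/
theorem square (u v : V) (huv : ad u v) (a : A) : ∃ S, IsCl Gr S ∧ Fs a ⊆ S ∧ Fs (a * g u) ⊆ S ∧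
    Fs (a * g v) ⊆ S ∧ Fs (a * g v * g u) ⊆ S := by
  have hne : u ≠ v := fun h => ad_irrefl v (h ▸ huv)
  have hc : ∀ a : A, a * g v * g u = a * g u * g v := fun a => by
    rw [mul_assoc, mul_assoc, (g_comm huv).eq]
  have m1 : ∀ b : A, v ∈ Fs (b * g u) ↔ v ∈ Fs b := fun b => mem_Fs_g v u hne b
  have m2 : ∀ b : A, u ∈ Fs (b * g v) ↔ u ∈ Fs b := fun b => mem_Fs_g u v (Ne.symm hne) b
  have m3 : ∀ (b : A) (w : V), w ≠ u → w ≠ v → ((w ∈ Fs (b * g u) ↔ w ∈ Fs b) ∧
    (w ∈ Fs (b * g v) ↔ w ∈ Fs b)) := fun b w h1 h2 =>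
      ⟨mem_Fs_g w u (Ne.symm h1) b, mem_Fs_g w v (Ne.symm h2) b⟩
  -- a general inclusion
  have inc : ∀ b c : A, (u ∈ Fs b → u ∈ Fs c) → (v ∈ Fs b → v ∈ Fs c) →
      (∀ w, w ≠ u → w ≠ v → w ∈ Fs b → w ∈ Fs c) → Fs b ⊆ Fs c := by
    intro b c h1 h2 h3 w hw
    by_cases hwu : w = u
    · subst hwu; exact h1 hw
    · by_cases hwv : w = v
      · subst hwv; exact h2 hw
      · exact h3 w hwu hwv hw
  have n1 := m1 a
  have n2 := m1 (a * g v)
  have n3 := m2 a
  have n4 : u ∈ Fs (a * g v * g u) ↔ u ∈ Fs (a * g u) := by rw [hc]; exact m2 _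
  have q1 : ∀ w, w ≠ u → w ≠ v → (w ∈ Fs (a * g u) ↔ w ∈ Fs a) := fun w h1 h2 => (m3 a w h1 h2).1
  have q2 : ∀ w, w ≠ u → w ≠ v → (w ∈ Fs (a * g v) ↔ w ∈ Fs a) := fun w h1 h2 => (m3 a w h1 h2).2
  have q3 : ∀ w, w ≠ u → w ≠ v → (w ∈ Fs (a * g v * g u) ↔ w ∈ Fs a) := fun w h1 h2 =>
    ((m3 (a * g v) w h1 h2).1).trans (q2 w h1 h2)
  by_cases hu : u ∈ Fs a
  · by_cases hv : v ∈ Fs a
    · refine ⟨Fs a, Fs_cl _, le_rfl, inc _ _ (fun _ => hu) (fun _ => hv) ?_,
        inc _ _ (fun _ => hu) (fun _ => hv) ?_, inc _ _ (fun _ => hu) (fun _ => hv) ?_⟩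
      · intro w h1 h2 h; exact (q1 w h1 h2).1 h
      · intro w h1 h2 h; exact (q2 w h1 h2).1 h
      · intro w h1 h2 h; exact (q3 w h1 h2).1 h
    · refine ⟨Fs (a * g v), Fs_cl _, inc _ _ ?_ ?_ ?_, inc _ _ ?_ ?_ ?_, le_rfl, inc _ _ ?_ ?_ ?_⟩
      · intro _; exact n3.2 hu
      · intro h; exact absurd h hv
      · intro w h1 h2 h; exact (q2 w h1 h2).2 h
      · intro _; exact n3.2 hu
      · intro h; exact absurd (n1.1 h) hv
      · intro w h1 h2 h; exact (q2 w h1 h2).2 ((q1 w h1 h2).1 h)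
      · intro _; exact n3.2 hu
      · intro h; exact n2.1 h
      · intro w h1 h2 h; exact (q2 w h1 h2).2 ((q3 w h1 h2).1 h)
  · by_cases hv : v ∈ Fs a
    · refine ⟨Fs (a * g u), Fs_cl _, inc _ _ ?_ ?_ ?_, le_rfl, inc _ _ ?_ ?_ ?_, inc _ _ ?_ ?_ ?_⟩
      · intro h; exact absurd h hu
      · intro _; exact n1.2 hv
      · intro w h1 h2 h; exact (q1 w h1 h2).2 h
      · intro h; exact absurd (n3.1 h) hu
      · intro _; exact n1.2 hv
      · intro w h1 h2 h; exact (q1 w h1 h2).2 ((q2 w h1 h2).1 h)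
      · intro h; exact n4.1 h
      · intro _; exact n1.2 hv
      · intro w h1 h2 h; exact (q1 w h1 h2).2 ((q3 w h1 h2).1 h)
    · refine ⟨Fs (a * g v * g u), Fs_cl _, inc _ _ ?_ ?_ ?_, inc _ _ ?_ ?_ ?_, inc _ _ ?_ ?_ ?_, le_rfl⟩
      · intro h; exact absurd h hu
      · intro h; exact absurd h hv
      · intro w h1 h2 h; exact (q3 w h1 h2).2 h
      · intro h; exact n4.2 h
      · intro h; exact absurd (n1.1 h) hv
      · intro w h1 h2 h; exact (q3 w h1 h2).2 ((q1 w h1 h2).1 h)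
      · intro h; exact absurd (n3.1 h) hu
      · intro h; exact n2.2 h
      · intro w h1 h2 h; exact (q3 w h1 h2).2 ((q2 w h1 h2).1 h)

theorem ne_one_of_ht (a : A) (h : ht a < 0) : a ≠ 1 := by
  rintro rfl
  rw [ht_one] at h
  exact lt_irrefl _ h

theorem comm_trivial (u v : V) (huv : ad u v) (a : A) (ha : ht a ≤ -3) (p : Fin 5) :
    Th ⁅FreeGroup.of u, FreeGroup.of v⁆ (a, p) = (a, p) := by
  obtain ⟨S, hS, s0, s1, s2, s3⟩ := square u v huv a
  have hg := ht_g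
  have b0 : bb a ∈ S := s0 (bb_mem _ (ne_one_of_ht _ (by omega)))
  have b1 : bb (a * g u) ∈ S := s1 (bb_mem _ (ne_one_of_ht _ (by rw [ht_mul, hg]; omega)))
  have b2 : bb (a * g v) ∈ S := s2 (bb_mem _ (ne_one_of_ht _ (by rw [ht_mul, hg]; omega)))
  have b3 : bb (a * g v * g u) ∈ S :=
    s3 (bb_mem _ (ne_one_of_ht _ (by rw [ht_mul, ht_mul, hg, hg]; omega)))
  rw [commutatorElement_def, map_mul, map_mul, map_mul, map_inv, map_inv, Th_of, Th_of,
    Equiv.Perm.mul_apply, Equiv.Perm.mul_apply, Equiv.Perm.mul_apply, Tu_inv, Tu_inv, Tu_apply,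
    Tu_apply]
  have e1 : a * g v * g u * (g v)⁻¹ = a * g u := by
    rw [mul_assoc a, (g_comm huv).symm.eq, ← mul_assoc, mul_inv_cancel_right]
  rw [e1, mul_inv_cancel_right]
  have c : ∀ x y : V, x ∈ S → y ∈ S → ae x y = true := fun x y => ae_cl S hS x y
  rw [dl_comp _ _ (c _ _ b0 b2) _ (c _ _ b2 b3) (c _ _ b0 b3),
    dl_comp _ _ (c _ _ b0 b3) _ (c _ _ b3 b1) (c _ _ b0 b1),
    dl_comp _ _ (c _ _ b0 b1) _ (c _ _ b1 b0) (c _ _ b0 b0), dl_self]

/-- elements acting trivially far down -/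
def Kf : Subgroup (FreeGroup V) where
  carrier := {r | ∃ n : ℕ, ∀ a : A, ht a ≤ -(n : ℤ) → ∀ p, Th r (a, p) = (a, p)}
  one_mem' := ⟨0, fun a _ p => by rw [map_one]; rfl⟩
  mul_mem' := by
    rintro r s ⟨n, hn⟩ ⟨m, hm⟩
    refine ⟨max n m, fun a ha p => ?_⟩
    rw [map_mul, Equiv.Perm.mul_apply, hm a (by push_cast at ha; omega),
      hn a (by push_cast at ha; omega)]
  inv_mem' := by
    rintro r ⟨n, hn⟩
    refine ⟨n, fun a ha p => ?_⟩
    rw [map_inv, Equiv.Perm.inv_eq_iff_eq, hn a ha p]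

instance : Kf.Normal := ⟨by
  rintro r ⟨n, hn⟩ s
  refine ⟨n + (ht (ph s)).natAbs, fun a ha p => ?_⟩
  have h1 : Th s⁻¹ (a, p) = ((Th s⁻¹ (a, p)).1, (Th s⁻¹ (a, p)).2) := rfl
  rw [map_mul, map_mul, Equiv.Perm.mul_apply, Equiv.Perm.mul_apply, h1, hn, ← h1,
    ← Equiv.Perm.mul_apply, ← map_mul, mul_inv_cancel, map_one]
  · rfl
  · rw [Th_fst, ht_mul, map_inv, inv_inv]
    dsimp only
    push_cast at ha
    have := le_abs_self (ht (ph s))
    omega⟩

theorem ker_le_Kf (r : FreeGroup V) (hr : ph r = 1) : r ∈ Kf := by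
  have h1 : r ∈ Subgroup.normalClosure (raagRels Gr) := (QuotientGroup.eq_one_iff _).1 hr
  have h2 : Subgroup.normalClosure (raagRels Gr) ≤ Kf := by
    apply Subgroup.normalClosure_le_normal
    rintro _ ⟨u, v, huv, rfl⟩
    exact ⟨3, fun a ha p => comm_trivial u v huv a (by exact_mod_cast ha) p⟩
  exact h2 h1

/-! ### generators of the height-zero subgroup -/

/-- the index set of generators -/
abbrev E : Type := V × V

/-- the map on free groups -/
def ka : FreeGroup E →* FreeGroup V :=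
  FreeGroup.lift (fun e => (FreeGroup.of e.1)⁻¹ * FreeGroup.of e.2)

theorem ka_of (v w : V) : ka (FreeGroup.of (v, w)) = (FreeGroup.of v)⁻¹ * FreeGroup.of w :=
  FreeGroup.lift_apply_of

/-- the map onto `H` -/
def qH : FreeGroup E →* H :=
  FreeGroup.lift (fun e => ⟨(g e.1)⁻¹ * g e.2, by
    have h : ht ((g e.1)⁻¹ * g e.2) = 0 := by rw [ht_mul, ht_inv, ht_g, ht_g]; ring
    exact h⟩)

theorem qH_coe (r : FreeGroup E) : ((qH r : H) : A) = ph (ka r) := by
  have : (Subgroup.subtype _).comp qH = ph.comp ka := by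
    apply FreeGroup.ext_hom
    intro e
    show ((qH (FreeGroup.of e) : H) : A) = ph (ka (FreeGroup.of e))
    unfold qH ka
    rw [FreeGroup.lift_apply_of, FreeGroup.lift_apply_of, map_mul, map_inv]
    rfl
  exact DFunLike.congr_fun this r

theorem qH_eq_one (r : FreeGroup E) : qH r = 1 ↔ ph (ka r) = 1 := by
  rw [← qH_coe]
  exact ⟨fun h => by rw [h]; rfl, fun h => Subtype.ext h⟩

/-- elements acting trivially at height `-n` -/
def Kn (n : ℤ) : Subgroup (FreeGroup E) where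
  carrier := {r | ∀ a : A, ht a = n → ∀ p, Th (ka r) (a, p) = (a, p)}
  one_mem' := fun a _ p => by rw [map_one, map_one]; rfl
  mul_mem' := by
    intro r s hn hm a ha p
    rw [map_mul, map_mul, Equiv.Perm.mul_apply, hm a ha, hn a ha]
  inv_mem' := by
    intro r hn a ha p
    rw [map_inv, map_inv, Equiv.Perm.inv_eq_iff_eq, hn a ha p]

instance (n : ℤ) : (Kn n).Normal := ⟨by
  intro r hn s a ha p
  have h1 : Th (ka s⁻¹) (a, p) = ((Th (ka s⁻¹) (a, p)).1, (Th (ka s⁻¹) (a, p)).2) := rfl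
  rw [map_mul, map_mul, map_mul, map_mul, Equiv.Perm.mul_apply, Equiv.Perm.mul_apply, h1, hn, ← h1,
    ← Equiv.Perm.mul_apply, ← map_mul, ← map_mul, mul_inv_cancel, map_one, map_one]
  · rfl
  · rw [Th_fst, ht_mul]
    dsimp only
    rw [ht_inv, ← qH_coe, ht_H, ha]; ring⟩

/-! ### the edge move -/

theorem Fs_pair (v w : V) (a : A) (ha : a ∈ sp Gr ({v, w} : Set V)) (h : ht a < 0) :
    bb a = v ∨ bb a = w := Fs_sp _ a ha (bb_mem a (ne_one_of_ht a h))

theorem ae_pair (v w : V) (h : ad v w) (x y : V) (hx : x = v ∨ x = w) (hy : y = v ∨ y = w) :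
    ae x y = true := by
  apply ae_of
  intro hxy
  rcases hx with rfl | rfl <;> rcases hy with rfl | rfl
  · exact absurd rfl hxy
  · exact h
  · exact ad_symm _ _ h
  · exact absurd rfl hxy

theorem edge_step (v w : V) (h : ad v w) (n : ℤ) (hn : n < 0) (k : ℕ) :
    ∀ (a : A) (_ : a ∈ sp Gr ({v, w} : Set V)) (_ : ht a = n) (p : Fin 5),
    Th (ka (FreeGroup.of (v, w) ^ k)) (a, p) =
      (a * ((g w)⁻¹ * g v) ^ k, dl (bb a) (bb (a * ((g w)⁻¹ * g v) ^ k)) p) := by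
  have gv : g v ∈ sp Gr ({v, w} : Set V) := gen_mem_sp (by simp)
  have gw : g w ∈ sp Gr ({v, w} : Set V) := gen_mem_sp (by simp)
  induction k with
  | zero =>
    intro a _ _ p
    rw [pow_zero, pow_zero, mul_one, map_one, map_one, dl_self]; rfl
  | succ k ih =>
    intro a ha hht p
    rw [pow_succ, map_mul, map_mul, Equiv.Perm.mul_apply, ka_of, map_mul, map_inv, Th_of, Th_of,
      Equiv.Perm.mul_apply, Tu_apply, Tu_inv, ih]
    · have e1 : a * (g w)⁻¹ * g v * ((g w)⁻¹ * g v) ^ k = a * ((g w)⁻¹ * g v) ^ (k + 1) := by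
        rw [pow_succ']; simp only [mul_assoc]
      rw [e1]
      have m1 : a * (g w)⁻¹ ∈ sp Gr ({v, w} : Set V) := mul_mem ha (inv_mem gw)
      have m2 : a * (g w)⁻¹ * g v ∈ sp Gr ({v, w} : Set V) := mul_mem m1 gv
      have m3 : a * ((g w)⁻¹ * g v) ^ (k + 1) ∈ sp Gr ({v, w} : Set V) :=
        mul_mem ha (pow_mem (mul_mem (inv_mem gw) gv) _)
      have c0 := Fs_pair v w a ha (by omega)
      have c1 := Fs_pair v w _ m1 (by rw [ht_mul, ht_inv, ht_g]; omega)
      have c2 := Fs_pair v w _ m2 (by rw [ht_mul, ht_mul, ht_inv, ht_g, ht_g]; omega)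
      have c3 := Fs_pair v w _ m3 (by
        rw [ht_mul, ht_pow, ht_mul, ht_inv, ht_g, ht_g, neg_add_cancel, mul_zero]; omega)
      have c : ∀ x y : V, (x = v ∨ x = w) → (y = v ∨ y = w) → ae x y = true := ae_pair v w h
      rw [dl_comp _ _ (c _ _ c0 c1) _ (c _ _ c1 c2) (c _ _ c0 c2),
        dl_comp _ _ (c _ _ c0 c2) _ (c _ _ c2 c3) (c _ _ c0 c3)]
    · exact mul_mem (mul_mem ha (inv_mem gw)) gv
    · rw [ht_mul, ht_mul, ht_inv, ht_g, ht_g, hht]; ring

theorem bb_pow (v : V) (n : ℕ) (hn : 0 < n) : bb (((g v)⁻¹) ^ n) = v := by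
  have h1 : ((g v)⁻¹) ^ n ∈ sp Gr ({v} : Set V) := pow_mem (inv_mem (g_mem_sp (by simp))) _
  have h2 : ht (((g v)⁻¹) ^ n) < 0 := by
    rw [ht_pow, ht_inv, ht_g]
    have : (0 : ℤ) < n := by exact_mod_cast hn
    omega
  exact Fs_sp _ _ h1 (bb_mem _ (ne_one_of_ht _ h2))

theorem edge_move (v w : V) (h : ad v w) (n : ℕ) (hn : 0 < n) (p : Fin 5) :
    Th (ka (FreeGroup.of (v, w) ^ n)) (((g v)⁻¹) ^ n, p) = (((g w)⁻¹) ^ n, dl v w p) := by
  have hh : ht (((g v)⁻¹) ^ n) = -(n : ℤ) := by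
    rw [ht_pow, ht_inv, ht_g]; ring
  have h0 : -(n : ℤ) < 0 := by
    have : (0 : ℤ) < n := by exact_mod_cast hn
    omega
  rw [edge_step v w h (-(n : ℤ)) h0 n _ (pow_mem (inv_mem (g_mem_sp (by simp))) _) hh p]
  have e1 : ((g v)⁻¹) ^ n * ((g w)⁻¹ * g v) ^ n = ((g w)⁻¹) ^ n := by
    have hc : Commute (g w)⁻¹ (g v) := (g_comm (ad_symm _ _ h)).inv_left
    rw [hc.mul_pow, (hc.pow_pow n n).eq, ← mul_assoc, inv_pow, inv_mul_cancel, one_mul]
  rw [e1, bb_pow v n hn, bb_pow w n hn]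

theorem edge_coe (v w : V) (h : ad v w) (n : ℕ) :
    ph (ka (FreeGroup.of (v, w) ^ n)) = (g w) ^ n * ((g v)⁻¹) ^ n := by
  have hc : Commute (g v)⁻¹ (g w) := (g_comm h).inv_left
  rw [map_pow, map_pow, ka_of, map_mul, map_inv, ph_of, ph_of, hc.mul_pow, (hc.pow_pow n n).eq]

/-- the long relation -/
def lr (n : ℕ) : FreeGroup E :=
  FreeGroup.of ((6, 0) : E) ^ n * FreeGroup.of ((2, 6) : E) ^ n * FreeGroup.of ((9, 2) : E) ^ n *
    FreeGroup.of ((1, 9) : E) ^ n * FreeGroup.of ((5, 1) : E) ^ n * FreeGroup.of ((0, 5) : E) ^ n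

theorem lr_ker (n : ℕ) : qH (lr n) = 1 := by
  rw [qH_eq_one]
  unfold lr
  simp only [map_mul]
  rw [edge_coe 6 0 (by decide), edge_coe 2 6 (by decide), edge_coe 9 2 (by decide),
    edge_coe 1 9 (by decide), edge_coe 5 1 (by decide), edge_coe 0 5 (by decide)]
  simp only [inv_pow]
  group

theorem lr_act (n : ℕ) (hn : 0 < n) :
    Th (ka (lr n)) (((g 0)⁻¹) ^ n, 0) ≠ (((g 0)⁻¹) ^ n, 0) := by
  unfold lr
  simp only [map_mul, Equiv.Perm.mul_apply]
  rw [edge_move 0 5 (by decide) n hn, edge_move 5 1 (by decide) n hn,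
    edge_move 1 9 (by decide) n hn, edge_move 9 2 (by decide) n hn,
    edge_move 2 6 (by decide) n hn, edge_move 6 0 (by decide) n hn]
  intro h
  have h1 := congrArg Prod.snd h
  revert h1
  dsimp only
  decide +kernel

/-- **The kernel is not normally finitely generated.** -/
theorem not_fp (s : Set (FreeGroup E)) (hs : s.Finite) (h : Subgroup.normalClosure s = qH.ker) :
    False := by
  have h1 : ∀ r ∈ s, ∃ n : ℕ, ∀ a : A, ht a ≤ -(n : ℤ) → ∀ p, Th (ka r) (a, p) = (a, p) := by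
    intro r hr
    have h2 : r ∈ qH.ker := by rw [← h]; exact Subgroup.subset_normalClosure hr
    exact ker_le_Kf _ ((qH_eq_one r).1 h2)
  choose! n hn using h1
  obtain ⟨N, hN⟩ : ∃ N : ℕ, ∀ r ∈ s, n r ≤ N := by
    obtain ⟨N, hN⟩ := (hs.image n).bddAbove
    exact ⟨N, fun r hr => hN ⟨r, hr, rfl⟩⟩
  have h3 : Subgroup.normalClosure s ≤ Kn (-((N + 1 : ℕ) : ℤ)) := by
    apply Subgroup.normalClosure_le_normal
    intro r hr a ha p
    apply hn r hr
    have := hN r hr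
    rw [ha]
    push_cast
    omega
  have h4 : lr (N + 1) ∈ Subgroup.normalClosure s := by rw [h]; exact lr_ker _
  have h5 := h3 h4 (((g 0)⁻¹) ^ (N + 1)) (by rw [ht_pow, ht_inv, ht_g]; ring) 0
  exact lr_act _ (Nat.succ_pos _) h5

end Pool.Agent.TH18
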