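import Pool.Agent.TH18.Steps

/-! Exactness of the slab complex. -/

set_option autoImplicit false

namespace Pool.Agent.TH18

open Pool.Agent.W326.DU (IL ZG Reg Im rm IsAlt2 IsAlt3)

theorem iter {α : Type} (le ge : ℤ → α → Prop) (good : α → Prop) (c : ℤ) (hc : 0 ≤ c)
    (mle : ∀ N N' w, N ≤ N' → le N w → le N' w)
    (top : ∀ N w, c < N → good w → le N w →
      ∃ w', good w' ∧ le (N - 1) w' ∧ ∀ m ≤ N - 1, ge m w → ge m w')
    (bot : ∀ m w, m < 0 → good w → ge m w →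
      ∃ w', good w' ∧ ge (m + 1) w' ∧ ∀ N, m + 1 ≤ N → le N w → le N w')
    (start : ∃ w, good w ∧ ∃ n : ℕ, le n w ∧ ge (-(n : ℤ)) w) :
    ∃ w, good w ∧ le c w ∧ ge 0 w := by
  have stepA : ∀ (k : ℕ) (w : α) (m : ℤ), good w → le (c + k) w → ge m w → m ≤ 0 →
      ∃ w', good w' ∧ le c w' ∧ ge m w' := by
    intro k
    induction k with
    | zero =>
      intro w m h1 h2 h3 _
      exact ⟨w, h1, by simpa using h2, h3⟩
    | succ k ih =>
      intro w m h1 h2 h3 h4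
      obtain ⟨w', g1, g2, g3⟩ := top (c + (k + 1 : ℕ)) w (by push_cast; omega) h1 h2
      have e1 : c + ((k + 1 : ℕ) : ℤ) - 1 = c + k := by push_cast; ring
      rw [e1] at g2 g3
      exact ih w' m g1 g2 (g3 m (by omega) h3) h4
  have stepB : ∀ (k : ℕ) (w : α), good w → le c w → ge (-(k : ℤ)) w →
      ∃ w', good w' ∧ le c w' ∧ ge 0 w' := by
    intro k
    induction k with
    | zero =>
      intro w h1 h2 h3
      exact ⟨w, h1, h2, by simpa using h3⟩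
    | succ k ih =>
      intro w h1 h2 h3
      obtain ⟨w', g1, g2, g3⟩ := bot (-((k + 1 : ℕ) : ℤ)) w (by push_cast; omega) h1 h3
      have e1 : -((k + 1 : ℕ) : ℤ) + 1 = -(k : ℤ) := by push_cast; ring
      rw [e1] at g2 g3
      exact ih w' g1 (g3 c (by omega) h2) g2
  obtain ⟨w, h1, n, h2, h3⟩ := start
  obtain ⟨w', g1, g2, g3⟩ := stepA n w (-(n : ℤ)) h1 (mle _ _ _ (by omega) h2) h3 (by omega)
  exact stepB n w' g1 g2 g3

theorem bound_fin {ι : Type} [Fintype ι] (f : ι → ZG A) :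
    ∃ n : ℕ, (∀ i, Hle n (f i)) ∧ ∀ i, Hge (-(n : ℤ)) (f i) := by
  classical
  choose n h1 h2 using fun i => exists_bound (f i)
  refine ⟨∑ i, n i, fun i => ?_, fun i => ?_⟩
  · have h3 : n i ≤ ∑ i, n i :=
      Finset.single_le_sum (f := n) (fun _ _ => Nat.zero_le _) (Finset.mem_univ i)
    exact (h1 i).mono (by exact_mod_cast h3)
  · have h3 : n i ≤ ∑ i, n i :=
      Finset.single_le_sum (f := n) (fun _ _ => Nat.zero_le _) (Finset.mem_univ i)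
    refine (h2 i).mono ?_
    have : (n i : ℤ) ≤ ((∑ i, n i : ℕ) : ℤ) := by exact_mod_cast h3
    omega

theorem slab0 (x : ZG A) (h0 : Hge 0 x) (h3 : Hle 3 x) (hx : Pool.Agent.W326.DU.augm A x = 0) :
    ∃ w : V → ZG A, b1 w = x ∧ (∀ v, Hle 2 (w v)) ∧ ∀ v, Hge 0 (w v) := by
  refine iter (α := V → ZG A) (fun N w => ∀ v, Hle N (w v)) (fun m w => ∀ v, Hge m (w v))
    (fun w => b1 w = x) 2 (by norm_num) (fun N N' w h1 h2 v => (h2 v).mono h1) ?_ ?_ ?_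
  · intro N w hN hw hle
    obtain ⟨w', g1, g2, g3⟩ := top1 N w hle (by rw [hw]; exact h3.mono (by omega))
    exact ⟨w', g1.trans hw, g2, g3⟩
  · intro m w hm hw hge
    obtain ⟨w', g1, g2, g3⟩ := bot1 m w hge (by rw [hw]; exact h0.mono (by omega))
    exact ⟨w', g1.trans hw, g2, g3⟩
  · obtain ⟨w, hw⟩ := kos0 x hx
    obtain ⟨n, h1, h2⟩ := bound_fin w
    exact ⟨w, hw, n, h1, h2⟩

theorem slab1 (x : V → ZG A) (h0 : ∀ v, Hge 0 (x v)) (h2 : ∀ v, Hle 2 (x v)) (hx : b1 x = 0) :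
    ∃ y : V → V → ZG A, (IsAlt2 ad Set.univ y ∧ ∀ b, b2 y b = x b) ∧ (∀ a b, Hle 1 (y a b)) ∧
      ∀ a b, Hge 0 (y a b) := by
  refine iter (α := V → V → ZG A) (fun N w => ∀ a b, Hle N (w a b)) (fun m w => ∀ a b, Hge m (w a b))
    (fun y => IsAlt2 ad Set.univ y ∧ ∀ b, b2 y b = x b) 1
    (by norm_num) (fun N N' w h1 h2 a b => (h2 a b).mono h1) ?_ ?_ ?_
  · intro N w hN hw hle
    obtain ⟨w', g0, g1, g2, g3⟩ := top2 N w hw.1 hle
      (fun b => by rw [hw.2]; exact (h2 b).mono (by omega))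
    exact ⟨w', ⟨g0, fun b => (g1 b).trans (hw.2 b)⟩, g2, g3⟩
  · intro m w hm hw hge
    obtain ⟨w', g0, g1, g2, g3⟩ := bot2 m w hw.1 hge
      (fun b => by rw [hw.2]; exact (h0 b).mono (by omega))
    exact ⟨w', ⟨g0, fun b => (g1 b).trans (hw.2 b)⟩, g2, g3⟩
  · obtain ⟨y, hy, hy2⟩ := kos1 x hx
    obtain ⟨n, g1, g2⟩ := bound_fin (fun p : V × V => y p.1 p.2)
    exact ⟨y, ⟨hy, fun b => (hy2 b).symm⟩, n, fun a b => g1 (a, b), fun a b => g2 (a, b)⟩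

theorem slab2 (y : V → V → ZG A) (hy : IsAlt2 ad Set.univ y) (h0 : ∀ a b, Hge 0 (y a b))
    (h1 : ∀ a b, Hle 1 (y a b)) (hx : ∀ b, b2 y b = 0) :
    ∃ z : V → V → V → ZG A, (IsAlt3 ad Set.univ z ∧ ∀ b c, b3 z b c = y b c) ∧
      (∀ a b c, Hle 0 (z a b c)) ∧ ∀ a b c, Hge 0 (z a b c) := by
  refine iter (α := V → V → V → ZG A) (fun N w => ∀ a b c, Hle N (w a b c))
    (fun m w => ∀ a b c, Hge m (w a b c))
    (fun z => IsAlt3 ad Set.univ z ∧ ∀ b c, b3 z b c = y b c) 0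
    (by norm_num) (fun N N' w h1 h2 a b c => (h2 a b c).mono h1) ?_ ?_ ?_
  · intro N w hN hw hle
    exact ⟨w, hw, top3 N w hw.1 hle (fun b c => by rw [hw.2]; exact (h1 b c).mono (by omega)),
      fun m _ h => h⟩
  · intro m w hm hw hge
    exact ⟨w, hw, bot3 m w hw.1 hge (fun b c => by rw [hw.2]; exact (h0 b c).mono (by omega)),
      fun m _ h => h⟩
  · obtain ⟨z, hz, hz2⟩ := kos2 y hy hx
    obtain ⟨n, g1, g2⟩ := bound_fin (fun p : V × V × V => z p.1 p.2.1 p.2.2)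
    exact ⟨z, ⟨hz, fun b c => (hz2 b c).symm⟩, n, fun a b c => g1 (a, b, c),
      fun a b c => g2 (a, b, c)⟩

end Pool.Agent.TH18
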