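import Pool.Agent.TH18.Slab
import Pool.Agent.TH18.ResRep

/-! The slab complex as a complex of modules over the group ring of `H`. -/

set_option autoImplicit false

namespace Pool.Agent.TH18

open Pool.Agent.W326.DU (IL ZG Reg Im rm IsAlt2 IsAlt3)

/-- the inclusion -/
abbrev inc : H →* A := Subgroup.subtype htm.ker

noncomputable instance modZH : Module (ZG H) (ZG A) := Module.compHom (ZG A) (push inc)

theorem smul_eq (c : ZG H) (x : ZG A) : c • x = push inc c * x := rfl

theorem coeff_oA_mul (b : A) (x : ZG A) (a : A) : (oA b * x).coeff a = x.coeff (b⁻¹ * a) := by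
  rw [oA, MonoidAlgebra.of_apply, MonoidAlgebra.coeff_single_mul_apply, one_mul]

theorem Hle_smul {N : ℤ} (c : ZG H) (x : ZG A) (hx : Hle N x) : Hle N (c • x) := by
  rw [smul_eq]
  induction c using MonoidAlgebra.induction_on with
  | of h =>
    rw [push_of]
    intro a ha
    rw [show MonoidAlgebra.of ℤ A (inc h) = oA (h : A) from rfl, coeff_oA_mul] at ha
    have := hx _ ha
    rwa [ht_mul, ht_inv, ht_H, neg_zero, zero_add] at this
  | add a b ha hb => rw [map_add, add_mul]; exact ha.add hb
  | smul r a ha =>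
    rw [map_zsmul, smul_mul_assoc]
    intro b hb
    apply ha
    intro h
    apply hb
    show (r • (push inc a * x)).coeff b = 0
    have : (r • (push inc a * x)).coeff = r • (push inc a * x).coeff := rfl
    rw [this, Finsupp.smul_apply, h, smul_zero]

theorem Hge_smul {N : ℤ} (c : ZG H) (x : ZG A) (hx : Hge N x) : Hge N (c • x) := by
  rw [smul_eq]
  induction c using MonoidAlgebra.induction_on with
  | of h =>
    rw [push_of]
    intro a ha
    rw [show MonoidAlgebra.of ℤ A (inc h) = oA (h : A) from rfl, coeff_oA_mul] at ha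
    have := hx _ ha
    rwa [ht_mul, ht_inv, ht_H, neg_zero, zero_add] at this
  | add a b ha hb => rw [map_add, add_mul]; exact ha.add hb
  | smul r a ha =>
    rw [map_zsmul, smul_mul_assoc]
    intro b hb
    apply ha
    intro h
    apply hb
    show (r • (push inc a * x)).coeff b = 0
    have : (r • (push inc a * x)).coeff = r • (push inc a * x).coeff := rfl
    rw [this, Finsupp.smul_apply, h, smul_zero]

/-- elements with heights in `[0, n]` -/
def Mw (n : ℕ) : Submodule (ZG H) (ZG A) where
  carrier := {x | Hle n x ∧ Hge 0 x}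
  zero_mem' := ⟨Hle.zero _, Hge.zero _⟩
  add_mem' := fun hx hy => ⟨hx.1.add hy.1, hx.2.add hy.2⟩
  smul_mem' := fun c _ hx => ⟨Hle_smul c _ hx.1, Hge_smul c _ hx.2⟩

/-! ### projectivity and finite generation -/

theorem inj_k (k : ℕ) : Function.Injective (fun h : H => (h : A) * (g 0) ^ k) := fun _ _ hab =>
  Subtype.ext (mul_right_cancel hab)

/-- components -/
noncomputable def comp (k : ℕ) : ZG A →+ ZG H :=
  MonoidAlgebra.comapDomainAddMonoidHom (fun h : H => (h : A) * (g 0) ^ k) (inj_k k)

theorem comp_coeff (k : ℕ) (x : ZG A) (h : H) : (comp k x).coeff h = x.coeff ((h : A) * (g 0) ^ k) :=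
  rfl

theorem comp_smul (k : ℕ) (c : ZG H) (x : ZG A) : comp k (c • x) = c * comp k x := by
  rw [smul_eq]
  induction c using MonoidAlgebra.induction_on with
  | of h =>
    rw [push_of]
    apply MonoidAlgebra.ext
    ext a
    rw [comp_coeff, show MonoidAlgebra.of ℤ A (inc h) = oA (h : A) from rfl, coeff_oA_mul,
      MonoidAlgebra.of_apply, MonoidAlgebra.coeff_single_mul_apply, one_mul, comp_coeff]
    rw [← mul_assoc]
    rfl
  | add a b ha hb => rw [map_add, add_mul, map_add, ha, hb, add_mul]
  | smul r a ha => rw [map_zsmul, smul_mul_assoc, map_zsmul, ha, smul_mul_assoc]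

open Classical in
theorem push_coeff (y : ZG H) (b : A) :
    (push inc y).coeff b = if h : htm b = 1 then y.coeff ⟨b, h⟩ else 0 := by
  rw [push, MonoidAlgebra.mapDomainRingHom_apply, MonoidAlgebra.coeff_mapDomain]
  split_ifs with h
  · exact Finsupp.mapDomain_apply (f := fun h : H => (h : A)) Subtype.val_injective y.coeff
      (⟨b, h⟩ : H)
  · rw [Finsupp.mapDomain_of_notMem_range]
    rintro ⟨x, rfl⟩
    exact h x.2

theorem htm_eq_one_iff (a : A) : htm a = 1 ↔ ht a = 0 := Iff.rfl

theorem recon (n : ℕ) (x : ZG A) (hx : x ∈ Mw n) :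
    ∑ k : Fin (n + 1), push inc (comp k.1 x) * oA ((g 0) ^ k.1) = x := by
  classical
  apply MonoidAlgebra.ext
  ext a
  rw [MonoidAlgebra.coeff_sum, Finsupp.finsetSum_apply]
  have key : ∀ k : Fin (n + 1), (push inc (comp k.1 x) * oA ((g 0) ^ k.1)).coeff a =
      if ht a = k.1 then x.coeff a else 0 := by
    intro k
    rw [coeff_mul_oA, push_coeff]
    have h1 : ht (a * ((g 0) ^ k.1)⁻¹) = ht a - k.1 := by
      rw [ht_mul, ht_inv, ht_pow, ht_g]; ring
    by_cases h : ht a = k.1
    · have h2 : htm (a * ((g 0) ^ k.1)⁻¹) = 1 := by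
        rw [htm_eq_one_iff, h1, h, sub_self]
      rw [dif_pos h2, if_pos h, comp_coeff]
      congr 1
      show a * ((g 0) ^ k.1)⁻¹ * (g 0) ^ k.1 = a
      rw [inv_mul_cancel_right]
    · rw [dif_neg, if_neg h]
      rw [htm_eq_one_iff, h1]
      intro h2
      exact h (by omega)
  simp only [key]
  by_cases ha : x.coeff a = 0
  · simp [ha]
  · have h1 := hx.1 a ha
    have h2 := hx.2 a ha
    obtain ⟨k, hk⟩ := Int.eq_ofNat_of_zero_le h2
    have hkn : k < n + 1 := by
      have : (k : ℤ) ≤ n := by rw [← hk]; exact h1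
      omega
    rw [Finset.sum_eq_single ⟨k, hkn⟩]
    · rw [if_pos]
      exact hk
    · intro j _ hj
      rw [if_neg]
      intro h3
      apply hj
      apply Fin.ext
      show j.1 = k
      have : (j.1 : ℤ) = k := by rw [← h3, hk]
      exact_mod_cast this
    · intro h; exact absurd (Finset.mem_univ _) h

/-- the splitting -/
noncomputable def sM (n : ℕ) : Mw n →ₗ[ZG H] (Fin (n + 1) → ZG H) where
  toFun x := fun k => comp k.1 x.1
  map_add' x y := by funext k; exact map_add _ _ _
  map_smul' c x := by funext k; exact comp_smul _ _ _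

/-- the retraction -/
noncomputable def rM (n : ℕ) : (Fin (n + 1) → ZG H) →ₗ[ZG H] Mw n where
  toFun c := ⟨∑ k : Fin (n + 1), push inc (c k) * oA ((g 0) ^ k.1), by
    refine Submodule.sum_mem _ fun k _ => ?_
    refine (Mw n).smul_mem (c k) (x := oA ((g 0) ^ k.1)) ⟨?_, ?_⟩
    · intro a ha
      rw [oA, MonoidAlgebra.of_apply, MonoidAlgebra.coeff_single, Finsupp.single_apply_ne_zero] at ha
      rw [ha.1, ht_pow, ht_g]
      have := k.2
      omega
    · intro a ha
      rw [oA, MonoidAlgebra.of_apply, MonoidAlgebra.coeff_single, Finsupp.single_apply_ne_zero] at ha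
      rw [ha.1, ht_pow, ht_g]
      positivity⟩
  map_add' x y := by
    apply Subtype.ext
    show ∑ k : Fin (n + 1), push inc (x k + y k) * oA ((g 0) ^ k.1) =
      ∑ k : Fin (n + 1), push inc (x k) * oA ((g 0) ^ k.1) +
      ∑ k : Fin (n + 1), push inc (y k) * oA ((g 0) ^ k.1)
    rw [← Finset.sum_add_distrib]
    refine Finset.sum_congr rfl fun k _ => ?_
    rw [map_add, add_mul]
  map_smul' c x := by
    apply Subtype.ext
    show ∑ k : Fin (n + 1), push inc (c * x k) * oA ((g 0) ^ k.1) =
      push inc c * ∑ k : Fin (n + 1), push inc (x k) * oA ((g 0) ^ k.1)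
    rw [Finset.mul_sum]
    refine Finset.sum_congr rfl fun k _ => ?_
    rw [map_mul, mul_assoc]

theorem rs (n : ℕ) (x : Mw n) : rM n (sM n x) = x := Subtype.ext (recon n x.1 x.2)

theorem pi_proj (n : ℕ) (ι : Type) [Finite ι] : Module.Projective (ZG H) (ι → Mw n) := by
  refine Module.Projective.of_split ((sM n).compLeft ι) ((rM n).compLeft ι) ?_
  exact LinearMap.ext fun x => funext fun i => rs n (x i)

theorem pi_fin (n : ℕ) (ι : Type) [Finite ι] : Module.Finite (ZG H) (ι → Mw n) := by
  refine Module.Finite.of_surjective ((rM n).compLeft ι) ?_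
  intro x
  refine ⟨(sM n).compLeft ι x, ?_⟩
  funext i
  exact rs n (x i)

theorem mw_proj (n : ℕ) : Module.Projective (ZG H) (Mw n) := by
  refine Module.Projective.of_split (sM n) (rM n) ?_
  exact LinearMap.ext fun x => rs n x

theorem mw_fin (n : ℕ) : Module.Finite (ZG H) (Mw n) :=
  Module.Finite.of_surjective (rM n) (fun x => ⟨sM n x, rs n x⟩)

end Pool.Agent.TH18
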