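import Pool.Agent.TH18.Height

/-! Lowering the top and raising the bottom. -/

set_option autoImplicit false

namespace Pool.Agent.TH18

open Pool.Agent.W326.DU (IL ZG Reg Im rm IsAlt2 IsAlt3)

theorem Rr_eq (v : V) (x : ZG A) : Rr v x = x * oA (g v) - x := Rr_apply v x

/-- boundary operators -/
noncomputable def b1 (w : V → ZG A) : ZG A := ∑ v, Rr v (w v)
/-- boundary operators -/
noncomputable def b2 (w : V → V → ZG A) (b : V) : ZG A := ∑ a, Rr a (w a b)
/-- boundary operators -/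
noncomputable def b3 (w : V → V → V → ZG A) (b c : V) : ZG A := ∑ a, Rr a (w a b c)

theorem dd12 (w : V → V → ZG A) (hw : IsAlt2 ad Set.univ w) : b1 (b2 w) = 0 :=
  Pool.Agent.W304.DU.dd Rr reg ad_irrefl w hw.1 (fun a b h => hw.2 a b (fun h2 => h h2.2.2))

theorem dd23 (w : V → V → V → ZG A) (hw : IsAlt3 ad Set.univ w) (c : V) :
    b2 (b3 w) c = 0 :=
  Pool.Agent.W304.DU.dd Rr reg ad_irrefl (fun a b => w a b c) (fun a b => hw.1 a b c)
    (fun a b h => hw.2.2 a b c (fun h2 => h h2.2.2.2.1))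

theorem b2_alt (w : V → V → V → ZG A) (hw : IsAlt3 ad Set.univ w) :
    IsAlt2 ad Set.univ (b3 w) := by
  constructor
  · intro b c
    unfold b3
    rw [← Finset.sum_neg_distrib]
    refine Finset.sum_congr rfl fun a _ => ?_
    rw [hw.2.1 a b c, map_neg]
  · intro b c h
    unfold b3
    refine Finset.sum_eq_zero fun a _ => ?_
    rw [hw.2.2 a b c (fun h2 => h ⟨trivial, trivial, h2.2.2.2.2.1⟩), map_zero]

/-! ### the top part -/

theorem top_sum (N : ℤ) (w : V → ZG A) (hN : ∀ v, Hle N (w v)) (hd : Hle N (b1 w)) :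
    ∑ v, pr' N (w v) * oA (g v) = 0 := by
  have h1 : pr' (N + 1) (b1 w) = 0 := pr_zero_of_le (by omega) hd
  unfold b1 at h1
  rw [map_sum] at h1
  rw [← h1]
  refine Finset.sum_congr rfl fun v _ => ?_
  rw [Rr_eq, map_sub, pr_zero_of_le (n := N + 1) (by omega) (hN v), sub_zero, ← pr_mul, ht_g]

theorem bot_sum (m : ℤ) (w : V → ZG A) (hm : ∀ v, Hge m (w v)) (hd : Hge (m + 1) (b1 w)) :
    ∑ v, pr' m (w v) = 0 := by
  have h1 : pr' m (b1 w) = 0 := pr_zero_of_ge (by omega) hd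
  unfold b1 at h1
  rw [map_sum] at h1
  have h2 : ∑ v, pr' m (w v) = - ∑ v, pr' m (Rr v (w v)) := by
    rw [← Finset.sum_neg_distrib]
    refine Finset.sum_congr rfl fun v _ => ?_
    have h3 : Hge (m + 1) (w v * oA (g v)) := by
      have := (hm v).mul (g v)
      rwa [ht_g] at this
    rw [Rr_eq, map_sub, pr_zero_of_ge (by omega) h3, zero_sub, neg_neg]
  rw [h2, h1, neg_zero]

theorem oA_mul (a b : A) : oA (a * b) = oA a * oA b := map_mul _ _ _

theorem oA_mul_inv (x : ZG A) (a : A) : x * oA a * oA a⁻¹ = x := by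
  rw [mul_assoc, ← map_mul, mul_inv_cancel, map_one, mul_one]

/-- lowering the top in degree one -/
theorem top1 (N : ℤ) (w : V → ZG A) (hN : ∀ v, Hle N (w v)) (hd : Hle N (b1 w)) :
    ∃ w' : V → ZG A, b1 w' = b1 w ∧ (∀ v, Hle (N - 1) (w' v)) ∧
      ∀ m ≤ N - 1, (∀ v, Hge m (w v)) → ∀ v, Hge m (w' v) := by
  have s1 := top_sum N w hN hd
  let W : V → Mh (N + 1) := fun v => ⟨pr' N (w v) * oA (g v),
    mul_mem_Mh (pr_mem N _) _ (by rw [ht_g])⟩
  have hW : ∑ v, W v = 0 := by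
    apply Subtype.ext
    rw [AddSubgroup.val_finsetSum]
    exact s1
  obtain ⟨U, hU, hU2⟩ := L1 W hW
  let u : V → V → ZG A := fun a b => (U a b : ZG A) * oA (g a * g b)⁻¹
  have hu : ∀ a b, u a b ∈ Mh (N - 1) := fun a b =>
    mul_mem_Mh (U a b).2 _ (by rw [ht_inv, ht_mul, ht_g, ht_g]; ring)
  have ualt : IsAlt2 ad Set.univ u := by
    constructor
    · intro a b
      by_cases h : ad a b
      · show (U a b : ZG A) * oA (g a * g b)⁻¹ = - ((U b a : ZG A) * oA (g b * g a)⁻¹)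
        rw [(g_comm h).eq, hU.1 a b, AddSubgroup.coe_neg, neg_mul]
      · show (U a b : ZG A) * oA (g a * g b)⁻¹ = - ((U b a : ZG A) * oA (g b * g a)⁻¹)
        rw [hU.2 a b (fun h2 => h h2.2.2), hU.2 b a (fun h2 => h (ad_symm _ _ h2.2.2))]
        simp
    · intro a b h
      show (U a b : ZG A) * oA (g a * g b)⁻¹ = 0
      rw [hU.2 a b h]; simp
  have key : ∀ b, b2 u b = pr' N (w b) - ∑ a, u a b := by
    intro b
    unfold b2
    simp only [Rr_eq, Finset.sum_sub_distrib]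
    congr 1
    have h1 : ∀ a, u a b * oA (g a) = (U a b : ZG A) * oA (g b)⁻¹ := by
      intro a
      show (U a b : ZG A) * oA (g a * g b)⁻¹ * oA (g a) = _
      rw [mul_assoc, ← map_mul, mul_inv_rev, inv_mul_cancel_right]
    simp only [h1]
    rw [← Finset.sum_mul]
    have h2 : ∑ a, (U a b : ZG A) = pr' N (w b) * oA (g b) := by
      have h3 := congrArg Subtype.val (hU2 b)
      rw [AddSubgroup.val_finsetSum] at h3
      exact h3.symm
    rw [h2, oA_mul_inv]
  refine ⟨fun b => w b - b2 u b, ?_, ?_, ?_⟩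
  · have h1 : b1 (fun b => w b - b2 u b) = b1 w - b1 (b2 u) := by
      unfold b1
      simp only [map_sub, Finset.sum_sub_distrib]
    rw [h1, dd12 u ualt, sub_zero]
  · intro v
    beta_reduce
    rw [key]
    have h1 : w v - (pr' N (w v) - ∑ a, u a v) = (w v - pr' N (w v)) + ∑ a, u a v := by abel
    rw [h1]
    exact (Hle_sub_pr (hN v)).add (Hle.sum _ _ fun a _ => (hu a v).1)
  · intro m hm hw v
    beta_reduce
    rw [key]
    have h1 : w v - (pr' N (w v) - ∑ a, u a v) = (w v - pr' N (w v)) + ∑ a, u a v := by abel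
    rw [h1]
    exact (Hge_sub_pr_le (hw v)).add (Hge.sum _ _ fun a _ => (hu a v).2.mono hm)

/-- raising the bottom in degree one -/
theorem bot1 (m : ℤ) (w : V → ZG A) (hm : ∀ v, Hge m (w v)) (hd : Hge (m + 1) (b1 w)) :
    ∃ w' : V → ZG A, b1 w' = b1 w ∧ (∀ v, Hge (m + 1) (w' v)) ∧
      ∀ N, m + 1 ≤ N → (∀ v, Hle N (w v)) → ∀ v, Hle N (w' v) := by
  have s1 := bot_sum m w hm hd
  let W : V → Mh m := fun v => ⟨pr' m (w v), pr_mem m _⟩
  have hW : ∑ v, W v = 0 := by
    apply Subtype.ext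
    rw [AddSubgroup.val_finsetSum]
    exact s1
  obtain ⟨U, hU, hU2⟩ := L1 W hW
  let u : V → V → ZG A := fun a b => (U a b : ZG A)
  have hu : ∀ a b, u a b * oA (g a) ∈ Mh (m + 1) := fun a b =>
    mul_mem_Mh (U a b).2 _ (by rw [ht_g])
  have ualt : IsAlt2 ad Set.univ u := by
    constructor
    · intro a b
      show (U a b : ZG A) = - (U b a : ZG A)
      rw [hU.1 a b, AddSubgroup.coe_neg]
    · intro a b h
      show (U a b : ZG A) = 0
      rw [hU.2 a b h]; rfl
  have key : ∀ b, b2 u b = ∑ a, u a b * oA (g a) - pr' m (w b) := by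
    intro b
    unfold b2
    simp only [Rr_eq, Finset.sum_sub_distrib]
    congr 1
    have h3 := congrArg Subtype.val (hU2 b)
    rw [AddSubgroup.val_finsetSum] at h3
    exact h3.symm
  refine ⟨fun b => w b + b2 u b, ?_, ?_, ?_⟩
  · have h1 : b1 (fun b => w b + b2 u b) = b1 w + b1 (b2 u) := by
      unfold b1
      simp only [map_add, Finset.sum_add_distrib]
    rw [h1, dd12 u ualt, add_zero]
  · intro v
    beta_reduce
    rw [key]
    have h1 : w v + (∑ a, u a v * oA (g a) - pr' m (w v)) =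
      (w v - pr' m (w v)) + ∑ a, u a v * oA (g a) := by abel
    rw [h1]
    exact (Hge_sub_pr (hm v)).add (Hge.sum _ _ fun a _ => (hu a v).2)
  · intro N hN hw v
    beta_reduce
    rw [key]
    have h1 : w v + (∑ a, u a v * oA (g a) - pr' m (w v)) =
      (w v - pr' m (w v)) + ∑ a, u a v * oA (g a) := by abel
    rw [h1]
    exact (Hle_sub_pr_le (hw v)).add (Hle.sum _ _ fun a _ => (hu a v).1.mono hN)

theorem tr_comm {a b c : V} (hab : ad a b) (hbc : ad b c) (_ : ad a c) :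
    g a * (g b * g c) = g b * (g a * g c) ∧ g a * (g b * g c) = g a * (g c * g b) := by
  constructor
  · rw [← mul_assoc, (g_comm hab).eq, mul_assoc]
  · rw [(g_comm hbc).eq]

/-- lowering the top in degree two -/
theorem top2 (N : ℤ) (w : V → V → ZG A) (hw : IsAlt2 ad Set.univ w) (hN : ∀ a b, Hle N (w a b))
    (hd : ∀ b, Hle N (b2 w b)) :
    ∃ w' : V → V → ZG A, IsAlt2 ad Set.univ w' ∧ (∀ b, b2 w' b = b2 w b) ∧
      (∀ a b, Hle (N - 1) (w' a b)) ∧
      ∀ m ≤ N - 1, (∀ a b, Hge m (w a b)) → ∀ a b, Hge m (w' a b) := by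
  have s1 : ∀ b, ∑ a, pr' N (w a b) * oA (g a) = 0 := fun b =>
    top_sum N (fun a => w a b) (fun a => hN a b) (hd b)
  let W : V → V → Mh (N + 2) := fun a b => ⟨pr' N (w a b) * oA (g a * g b),
    mul_mem_Mh (pr_mem N _) _ (by rw [ht_mul, ht_g, ht_g]; ring)⟩
  have hWc : ∀ a b, (W a b : ZG A) = pr' N (w a b) * oA (g a * g b) := fun _ _ => rfl
  have hWalt : IsAlt2 ad Set.univ W := by
    constructor
    · intro a b
      apply Subtype.ext
      rw [AddSubgroup.coe_neg, hWc, hWc]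
      by_cases h : ad a b
      · rw [(g_comm h).eq, hw.1 a b, map_neg, neg_mul]
      · rw [hw.2 a b (fun h2 => h h2.2.2), hw.2 b a (fun h2 => h (ad_symm _ _ h2.2.2))]
        simp
    · intro a b h
      apply Subtype.ext
      rw [hWc, hw.2 a b h]; simp
  have hW : ∀ b, ∑ a, W a b = 0 := by
    intro b
    apply Subtype.ext
    rw [AddSubgroup.val_finsetSum]
    simp only [hWc, map_mul, ← mul_assoc]
    rw [← Finset.sum_mul, s1, zero_mul]; rfl
  obtain ⟨U, hU, hU2⟩ := L2 W hWalt hW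
  let u : V → V → V → ZG A := fun a b c => (U a b c : ZG A) * oA (g a * (g b * g c))⁻¹
  have huc : ∀ a b c, u a b c = (U a b c : ZG A) * oA (g a * (g b * g c))⁻¹ := fun _ _ _ => rfl
  have hu : ∀ a b c, u a b c ∈ Mh (N - 1) := fun a b c =>
    mul_mem_Mh (U a b c).2 _ (by rw [ht_inv, ht_mul, ht_mul, ht_g, ht_g, ht_g]; ring)
  have ualt : IsAlt3 ad Set.univ u := by
    refine ⟨?_, ?_, ?_⟩
    · intro a b c
      rw [huc, huc]
      by_cases h : ad a b ∧ ad b c ∧ ad a c
      · rw [(tr_comm h.1 h.2.1 h.2.2).1, hU.1 a b c, AddSubgroup.coe_neg, neg_mul]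
      · rw [hU.2.2 a b c (fun h2 => h h2.2.2.2),
          hU.2.2 b a c (fun h2 => h ⟨ad_symm _ _ h2.2.2.2.1, h2.2.2.2.2.2, h2.2.2.2.2.1⟩)]
        simp
    · intro a b c
      rw [huc, huc]
      by_cases h : ad a b ∧ ad b c ∧ ad a c
      · rw [(tr_comm h.1 h.2.1 h.2.2).2, hU.2.1 a b c, AddSubgroup.coe_neg, neg_mul]
      · rw [hU.2.2 a b c (fun h2 => h h2.2.2.2),
          hU.2.2 a c b (fun h2 => h ⟨h2.2.2.2.2.2, ad_symm _ _ h2.2.2.2.2.1, h2.2.2.2.1⟩)]
        simp
    · intro a b c h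
      rw [huc, hU.2.2 a b c h]; simp
  have key : ∀ b c, b3 u b c = pr' N (w b c) - ∑ a, u a b c := by
    intro b c
    unfold b3
    simp only [Rr_eq, Finset.sum_sub_distrib]
    congr 1
    have h1 : ∀ a, u a b c * oA (g a) = (U a b c : ZG A) * oA (g b * g c)⁻¹ := by
      intro a
      rw [huc, mul_assoc, ← map_mul, mul_inv_rev, inv_mul_cancel_right]
    simp only [h1]
    rw [← Finset.sum_mul]
    have h2 : ∑ a, (U a b c : ZG A) = pr' N (w b c) * oA (g b * g c) := by
      have h3 := congrArg Subtype.val (hU2 b c)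
      rw [AddSubgroup.val_finsetSum] at h3
      exact h3.symm
    rw [h2, oA_mul_inv]
  have balt := b2_alt u ualt
  refine ⟨fun b c => w b c - b3 u b c, ⟨?_, ?_⟩, ?_, ?_, ?_⟩
  · intro b c
    show w b c - b3 u b c = - (w c b - b3 u c b)
    rw [hw.1 b c, balt.1 b c]; abel
  · intro b c h
    show w b c - b3 u b c = 0
    rw [hw.2 b c h, balt.2 b c h, sub_zero]
  · intro c
    have h1 : b2 (fun b c => w b c - b3 u b c) c = b2 w c - b2 (b3 u) c := by
      unfold b2
      simp only [map_sub, Finset.sum_sub_distrib]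
    rw [h1, dd23 u ualt, sub_zero]
  · intro b c
    beta_reduce
    rw [key]
    have h1 : w b c - (pr' N (w b c) - ∑ a, u a b c) = (w b c - pr' N (w b c)) + ∑ a, u a b c := by
      abel
    rw [h1]
    exact (Hle_sub_pr (hN b c)).add (Hle.sum _ _ fun a _ => (hu a b c).1)
  · intro m hm hw v c
    beta_reduce
    rw [key]
    have h1 : w v c - (pr' N (w v c) - ∑ a, u a v c) = (w v c - pr' N (w v c)) + ∑ a, u a v c := by
      abel
    rw [h1]
    exact (Hge_sub_pr_le (hw v c)).add (Hge.sum _ _ fun a _ => (hu a v c).2.mono hm)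

/-- raising the bottom in degree two -/
theorem bot2 (m : ℤ) (w : V → V → ZG A) (hw : IsAlt2 ad Set.univ w) (hm : ∀ a b, Hge m (w a b))
    (hd : ∀ b, Hge (m + 1) (b2 w b)) :
    ∃ w' : V → V → ZG A, IsAlt2 ad Set.univ w' ∧ (∀ b, b2 w' b = b2 w b) ∧
      (∀ a b, Hge (m + 1) (w' a b)) ∧
      ∀ N, m + 1 ≤ N → (∀ a b, Hle N (w a b)) → ∀ a b, Hle N (w' a b) := by
  have s1 : ∀ b, ∑ a, pr' m (w a b) = 0 := fun b =>
    bot_sum m (fun a => w a b) (fun a => hm a b) (hd b)
  let W : V → V → Mh m := fun a b => ⟨pr' m (w a b), pr_mem m _⟩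
  have hWc : ∀ a b, (W a b : ZG A) = pr' m (w a b) := fun _ _ => rfl
  have hWalt : IsAlt2 ad Set.univ W := by
    constructor
    · intro a b
      apply Subtype.ext
      rw [AddSubgroup.coe_neg, hWc, hWc, hw.1 a b, map_neg]
    · intro a b h
      apply Subtype.ext
      rw [hWc, hw.2 a b h]; simp
  have hW : ∀ b, ∑ a, W a b = 0 := by
    intro b
    apply Subtype.ext
    rw [AddSubgroup.val_finsetSum]
    simp only [hWc]
    rw [s1]; rfl
  obtain ⟨U, hU, hU2⟩ := L2 W hWalt hW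
  let u : V → V → V → ZG A := fun a b c => (U a b c : ZG A)
  have huc : ∀ a b c, u a b c = (U a b c : ZG A) := fun _ _ _ => rfl
  have hu : ∀ a b c, u a b c * oA (g a) ∈ Mh (m + 1) := fun a b c =>
    mul_mem_Mh (U a b c).2 _ (by rw [ht_g])
  have ualt : IsAlt3 ad Set.univ u := by
    refine ⟨?_, ?_, ?_⟩
    · intro a b c
      rw [huc, huc, hU.1 a b c, AddSubgroup.coe_neg]
    · intro a b c
      rw [huc, huc, hU.2.1 a b c, AddSubgroup.coe_neg]
    · intro a b c h
      rw [huc, hU.2.2 a b c h]; simp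
  have key : ∀ b c, b3 u b c = ∑ a, u a b c * oA (g a) - pr' m (w b c) := by
    intro b c
    unfold b3
    simp only [Rr_eq, Finset.sum_sub_distrib]
    congr 1
    have h3 := congrArg Subtype.val (hU2 b c)
    rw [AddSubgroup.val_finsetSum] at h3
    exact h3.symm
  have balt := b2_alt u ualt
  refine ⟨fun b c => w b c + b3 u b c, ⟨?_, ?_⟩, ?_, ?_, ?_⟩
  · intro b c
    show w b c + b3 u b c = - (w c b + b3 u c b)
    rw [hw.1 b c, balt.1 b c]; abel
  · intro b c h
    show w b c + b3 u b c = 0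
    rw [hw.2 b c h, balt.2 b c h, add_zero]
  · intro c
    have h1 : b2 (fun b c => w b c + b3 u b c) c = b2 w c + b2 (b3 u) c := by
      unfold b2
      simp only [map_add, Finset.sum_add_distrib]
    rw [h1, dd23 u ualt, add_zero]
  · intro b c
    beta_reduce
    rw [key]
    have h1 : w b c + (∑ a, u a b c * oA (g a) - pr' m (w b c)) =
      (w b c - pr' m (w b c)) + ∑ a, u a b c * oA (g a) := by abel
    rw [h1]
    exact (Hge_sub_pr (hm b c)).add (Hge.sum _ _ fun a _ => (hu a b c).2)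
  · intro N hN hw b c
    beta_reduce
    rw [key]
    have h1 : w b c + (∑ a, u a b c * oA (g a) - pr' m (w b c)) =
      (w b c - pr' m (w b c)) + ∑ a, u a b c * oA (g a) := by abel
    rw [h1]
    exact (Hle_sub_pr_le (hw b c)).add (Hle.sum _ _ fun a _ => (hu a b c).1.mono hN)

/-- lowering the top in degree three -/
theorem top3 (N : ℤ) (w : V → V → V → ZG A) (hw : IsAlt3 ad Set.univ w)
    (hN : ∀ a b c, Hle N (w a b c)) (hd : ∀ b c, Hle N (b3 w b c)) :
    ∀ a b c, Hle (N - 1) (w a b c) := by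
  have s1 : ∀ b c, ∑ a, pr' N (w a b c) * oA (g a) = 0 := fun b c =>
    top_sum N (fun a => w a b c) (fun a => hN a b c) (hd b c)
  let W : V → V → V → ZG A := fun a b c => pr' N (w a b c) * oA (g a * (g b * g c))
  have hWc : ∀ a b c, W a b c = pr' N (w a b c) * oA (g a * (g b * g c)) := fun _ _ _ => rfl
  have hWalt : IsAlt3 ad Set.univ W := by
    refine ⟨?_, ?_, ?_⟩
    · intro a b c
      rw [hWc, hWc]
      by_cases h : ad a b ∧ ad b c ∧ ad a c
      · rw [(tr_comm h.1 h.2.1 h.2.2).1, hw.1 a b c, map_neg, neg_mul]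
      · rw [hw.2.2 a b c (fun h2 => h h2.2.2.2),
          hw.2.2 b a c (fun h2 => h ⟨ad_symm _ _ h2.2.2.2.1, h2.2.2.2.2.2, h2.2.2.2.2.1⟩)]
        simp
    · intro a b c
      rw [hWc, hWc]
      by_cases h : ad a b ∧ ad b c ∧ ad a c
      · rw [(tr_comm h.1 h.2.1 h.2.2).2, hw.2.1 a b c, map_neg, neg_mul]
      · rw [hw.2.2 a b c (fun h2 => h h2.2.2.2),
          hw.2.2 a c b (fun h2 => h ⟨h2.2.2.2.2.2, ad_symm _ _ h2.2.2.2.2.1, h2.2.2.2.1⟩)]
        simp
    · intro a b c h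
      rw [hWc, hw.2.2 a b c h]; simp
  have hW : ∀ b c, ∑ a, W a b c = 0 := by
    intro b c
    have h1 : ∀ a, W a b c = pr' N (w a b c) * oA (g a) * oA (g b * g c) := by
      intro a; rw [hWc, oA_mul, mul_assoc]
    simp only [h1]
    rw [← Finset.sum_mul, s1, zero_mul]
  have h0 := L3 W hWalt hW
  intro a b c
  have h1 : pr' N (w a b c) = 0 := by
    rw [← oA_mul_inv (pr' N (w a b c)) (g a * (g b * g c)), ← hWc, h0, zero_mul]
  have h2 := Hle_sub_pr (hN a b c)
  rwa [h1, sub_zero] at h2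

/-- raising the bottom in degree three -/
theorem bot3 (m : ℤ) (w : V → V → V → ZG A) (hw : IsAlt3 ad Set.univ w)
    (hm : ∀ a b c, Hge m (w a b c)) (hd : ∀ b c, Hge (m + 1) (b3 w b c)) :
    ∀ a b c, Hge (m + 1) (w a b c) := by
  have s1 : ∀ b c, ∑ a, pr' m (w a b c) = 0 := fun b c =>
    bot_sum m (fun a => w a b c) (fun a => hm a b c) (hd b c)
  let W : V → V → V → ZG A := fun a b c => pr' m (w a b c)
  have hWc : ∀ a b c, W a b c = pr' m (w a b c) := fun _ _ _ => rfl
  have hWalt : IsAlt3 ad Set.univ W := by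
    refine ⟨?_, ?_, ?_⟩
    · intro a b c
      rw [hWc, hWc, hw.1 a b c, map_neg]
    · intro a b c
      rw [hWc, hWc, hw.2.1 a b c, map_neg]
    · intro a b c h
      rw [hWc, hw.2.2 a b c h]; simp
  have h0 := L3 W hWalt s1
  intro a b c
  have h1 : pr' m (w a b c) = 0 := h0 a b c
  have h2 := Hge_sub_pr (hm a b c)
  rwa [h1, sub_zero] at h2

end Pool.Agent.TH18
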