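import Pool.Agent.TH18.NotFP

/-! The elements `v⁻¹ w` generate the height-zero subgroup. -/

set_option autoImplicit false

namespace Pool.Agent.TH18

/-- the subgroup generated by the `v⁻¹ w` -/
def Hr : Subgroup A := ((Subgroup.subtype htm.ker).comp qH).range

theorem pair_mem (v w : V) : (g v)⁻¹ * g w ∈ Hr := by
  refine ⟨FreeGroup.of (v, w), ?_⟩
  show ((qH (FreeGroup.of (v, w)) : H) : A) = _
  unfold qH
  rw [FreeGroup.lift_apply_of]

theorem near : ∀ v : V, ∃ w : V, ae v w = true ∧ ae w 0 = true := by decide +kernel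

theorem rel_of (v w : V) (h : ae v w = true) (k : ℤ) : (g v) ^ k * ((g w) ^ k)⁻¹ ∈ Hr := by
  unfold ae at h
  rw [Bool.or_eq_true, decide_eq_true_iff] at h
  rcases h with h | h
  · have hc : Commute (g v) (g w)⁻¹ := (g_comm (v := v) (w := w) h).inv_right
    have e1 : (g v) ^ k * ((g w) ^ k)⁻¹ = ((g w)⁻¹ * g v) ^ k := by
      rw [← hc.eq, hc.mul_zpow, inv_zpow]
    rw [e1]
    exact zpow_mem (pair_mem w v) k
  · rw [h, mul_inv_cancel]; exact one_mem _

theorem rel_zero (v : V) (k : ℤ) : (g v) ^ k * ((g 0) ^ k)⁻¹ ∈ Hr := by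
  obtain ⟨w, h1, h2⟩ := near v
  have h3 := mul_mem (rel_of v w h1 k) (rel_of w 0 h2 k)
  have e1 : (g v) ^ k * ((g w) ^ k)⁻¹ * ((g w) ^ k * ((g 0) ^ k)⁻¹) = (g v) ^ k * ((g 0) ^ k)⁻¹ := by
    group
  rwa [e1] at h3

theorem normal_form (a : A) : a * ((g 0) ^ (ht a))⁻¹ ∈ Hr := by
  obtain ⟨l, rfl⟩ := exists_pr a
  induction l using List.reverseRecOn with
  | nil =>
    have h1 : pr Gr [] = 1 := rfl
    rw [h1, ht_one, zpow_zero, inv_one, mul_one]
    exact one_mem _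
  | append_singleton l p ih =>
    obtain ⟨u, s⟩ := p
    have h1 : pr Gr (l ++ [(u, s)]) = pr Gr l * lt1 Gr u s := by
      rw [pr_append]; simp [pr]
    rw [h1]
    generalize pr Gr l = a at ih
    have hs : ∃ e : ℤ, lt1 Gr u s = (g u) ^ e ∧ ht (lt1 Gr u s) = e := by
      cases s
      · refine ⟨-1, ?_, ?_⟩
        · rw [zpow_neg_one]; rfl
        · show ht (g u)⁻¹ = -1
          rw [ht_inv, ht_g]
      · refine ⟨1, ?_, ?_⟩
        · rw [zpow_one]; rfl
        · exact ht_g u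
    obtain ⟨e, he1, he2⟩ := hs
    rw [ht_mul, he2, he1]
    have e1 : a * (g u) ^ e * ((g 0) ^ (ht a + e))⁻¹ =
        (a * ((g 0) ^ (ht a))⁻¹) * (((g u) ^ (ht a) * ((g 0) ^ (ht a))⁻¹)⁻¹ *
          ((g u) ^ (ht a + e) * ((g 0) ^ (ht a + e))⁻¹)) := by
      rw [zpow_add, zpow_add]
      group
    rw [e1]
    exact mul_mem ih (mul_mem (inv_mem (rel_zero u _)) (rel_zero u _))

theorem qH_surj : Function.Surjective qH := by
  rintro ⟨a, ha⟩
  have h1 := normal_form a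
  have h2 : ht a = 0 := by
    have : htm a = 1 := ha
    unfold ht; rw [this]; rfl
  rw [h2, zpow_zero, inv_one, mul_one] at h1
  obtain ⟨r, hr⟩ := h1
  exact ⟨r, Subtype.ext hr⟩

end Pool.Agent.TH18
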